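import Pool.Agent.Lib.MP_906bc3_co.IsoMain

/-! Bipartite digraphs with nested neighbourhoods: insertion of the vertices by scale. -/

set_option autoImplicit false

namespace Pool.Agent.Lib.MP_906bc3_co.Chn

open Finset SimpleGraph Pool.Agent.Lib.MP_906bc3_co.Iso

variable {X Y : Type}

/-- paths with exactly `k + 1` steps -/
def Pk (E : X → X → Prop) : ℕ → X → X → Prop
  | 0, x, z => E x z
  | k + 1, x, z => ∃ u, E x u ∧ Pk E k u z

theorem Pk.tail {E : X → X → Prop} :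
    ∀ {k : ℕ} {x z : X}, Pk E (k + 1) x z → ∃ u, Pk E k x u ∧ E u z
  | 0, _, _, ⟨u, h1, h2⟩ => ⟨u, h1, h2⟩
  | _ + 1, _, _, ⟨u, h1, h2⟩ => by
    obtain ⟨v, h3, h4⟩ := Pk.tail h2
    exact ⟨v, ⟨u, h1, h3⟩, h4⟩

theorem Pk.snoc {E : X → X → Prop} :
    ∀ {k : ℕ} {x u z : X}, Pk E k x u → E u z → Pk E (k + 1) x z
  | 0, _, u, _, h1, h2 => ⟨u, h1, h2⟩
  | _ + 1, _, _, _, ⟨v, h1, h3⟩, h2 => ⟨v, h1, Pk.snoc h3 h2⟩

theorem pk_of_tg {E : X → X → Prop} {x z : X} (h : Relation.TransGen E x z) :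
    ∃ k, Pk E k x z := by
  induction h with
  | single h => exact ⟨0, h⟩
  | tail _ h ih =>
    obtain ⟨k, hk⟩ := ih
    exact ⟨k + 1, hk.snoc h⟩

variable [Fintype Y] {a : X → ℕ} {A O I : X → Y → Prop}

theorem dir (hO : ∀ x y, O x y → A x y) (hI : ∀ x y, I x y → A x y)
    (hN : ∀ x x' y, a x ≤ a x' → A x' y → A x y)
    (h4 : ∀ x x' y y', O x y → I x' y → O x' y' → I x y' → False) {S : X → Prop} {T : ℕ}
    (hS : ∀ x, S x → cd (fun y => A x y ∧ ¬ O x y ∧ ¬ I x y) ≤ T) :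
    ∀ (k : ℕ) (x z : X), Pk (fun x z => S x ∧ S z ∧ T < cd (fun y => O x y ∧ I z y)) k x z →
      S x ∧ S z ∧ ∃ y, O x y ∧ I z y := by
  intro k
  induction k with
  | zero => exact fun x z h => ⟨h.1, h.2.1, exists_of_cd (by have := h.2.2; omega)⟩
  | succ k ih =>
    intro x z h
    obtain ⟨u', p1, p2⟩ := h.tail
    obtain ⟨u, q1, q2⟩ := h
    obtain ⟨-, sz, y0, r1, r2⟩ := ih u z q2
    obtain ⟨sx, -, y1, r3, r4⟩ := ih x u' p1
    refine ⟨sx, sz, ?_⟩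
    by_contra hne
    rcases le_total (a z) (a x) with e | e
    · have k1 : cd (fun y => O x y ∧ I u y) ≤ cd (fun y => A z y ∧ ¬ O z y ∧ ¬ I z y) :=
        cd_mono fun y hy => ⟨hN z x y e (hO _ _ hy.1), fun o => h4 z u y y0 o hy.2 r1 r2,
          fun o => hne ⟨y, hy.1, o⟩⟩
      have k2 := hS z sz
      have k3 := q1.2.2
      omega
    · have k1 : cd (fun y => O u' y ∧ I z y) ≤ cd (fun y => A x y ∧ ¬ O x y ∧ ¬ I x y) :=
        cd_mono fun y hy => ⟨hN x z y e (hI _ _ hy.2), fun o => hne ⟨y, o, hy.2⟩,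
          fun o => h4 x u' y1 y r3 r4 hy.1 o⟩
      have k2 := hS x sx
      have k3 := p2.2.2
      omega

theorem cross {PA PB : Y → Prop} {M : X → Y → Prop} {T : ℕ} {HA HB : Y → X → Prop}
    (h1 : ∀ y, PA y → ∃ h, HA y h ∧ cd (M h) ≤ T) (h2 : ∀ w, PB w → ∃ g, HB w g ∧ cd (M g) ≤ T)
    (h : ∀ y w h g, PA y → PB w → HA y h → HB w g → M h w ∨ M g y) :
    cd PA ≤ 2 * T ∨ cd PB ≤ 2 * T := by
  classical
  by_contra hne
  push Not at hne
  obtain ⟨n1, n2⟩ := hne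
  choose φ f1 f2 using h1
  choose ψ g1 g2 using h2
  obtain ⟨d, hd⟩ : ∃ d, cd PB = T + d := ⟨cd PB - T, by omega⟩
  have key : (univ.filter PA).card * d ≤ (univ.filter PB).card * T := by
    refine card_mul_le_card_mul (fun y w => ∃ hw : PB w, M (ψ w hw) y) (fun y hy => ?_)
      (fun w hw => ?_)
    · have py := (mem_filter.1 hy).2
      have k1 : cd PB ≤ cd (M (φ y py)) + cd (fun w => ∃ hw : PB w, M (ψ w hw) y) :=
        cd_le_add fun w hw => (h y w _ _ py hw (f1 y py) (g1 w hw)).imp id fun e => ⟨hw, e⟩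
      have k2 := f2 y py
      have k3 : cd (fun w => ∃ hw : PB w, M (ψ w hw) y) ≤
          ((univ.filter PB).bipartiteAbove (fun y w => ∃ hw : PB w, M (ψ w hw) y) y).card := by
        unfold cd
        refine card_le_card fun w hw => ?_
        have : ∃ hw : PB w, M (ψ w hw) y := by simpa using hw
        exact (mem_bipartiteAbove _).2 ⟨mem_filter.2 ⟨mem_univ _, this.1⟩, this⟩
      omega
    · have pw := (mem_filter.1 hw).2
      refine le_trans ?_ (g2 w pw)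
      unfold cd
      refine card_le_card fun y hy => ?_
      obtain ⟨-, _, e⟩ := (mem_bipartiteBelow _).1 hy
      exact mem_filter.2 ⟨mem_univ _, e⟩
  have e1 : (univ.filter PA).card = cd PA := by unfold cd; congr
  have e2 : (univ.filter PB).card = cd PB := by unfold cd; congr
  rw [e1, e2, hd] at key
  have k1 : (2 * T + 1) * d ≤ cd PA * d := Nat.mul_le_mul_right d n1
  have k2 : T * (T + 1) ≤ T * d := Nat.mul_le_mul_left T (by omega)
  nlinarith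

theorem tour (hI : ∀ x y, I x y → A x y) (hN : ∀ x x' y, a x ≤ a x' → A x' y → A x y)
    (h4 : ∀ x x' y y', O x y → I x' y → O x' y' → I x y' → False) {T : ℕ} {P : X → Prop} {z : X}
    (hP : ∀ x, P x → a x ≤ a z ∧ cd (fun y => O x y ∧ I z y) ≤ T ∧
      cd (fun y => A x y ∧ ¬ O x y ∧ ¬ I x y) ≤ T) :
    cd (fun w => I z w ∧ ∃ x, P x ∧ O x w) ≤ 4 * T := by
  classical
  by_contra hne
  have hc : ∀ w, (I z w ∧ ∃ x, P x ∧ O x w) → ∃ x, P x ∧ O x w := fun w h => h.2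
  choose φ f1 f2 using hc
  obtain ⟨w0, hw0, k0⟩ := exists_half (p := fun w => I z w ∧ ∃ x, P x ∧ O x w)
    (ρ := fun w0 w => ∃ h0 : (I z w0 ∧ ∃ x, P x ∧ O x w0), I (φ w0 h0) w) (by omega)
    (fun y w ⟨hy, e⟩ ⟨hw, e'⟩ => h4 _ _ _ _ (f2 y hy) e' (f2 w hw) e)
  obtain ⟨k1, k2, k3⟩ := hP _ (f1 w0 hw0)
  have k4 := cd_le_add3 (p := fun w => I z w ∧ ∃ x, P x ∧ O x w)
    (q := fun w => (I z w ∧ ∃ x, P x ∧ O x w) ∧
      ∃ h0 : (I z w0 ∧ ∃ x, P x ∧ O x w0), I (φ w0 h0) w)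
    (r := fun y => O (φ w0 hw0) y ∧ I z y)
    (s := fun y => A (φ w0 hw0) y ∧ ¬ O (φ w0 hw0) y ∧ ¬ I (φ w0 hw0) y) (fun w hw => by
      by_cases e1 : I (φ w0 hw0) w
      · exact Or.inl ⟨hw, hw0, e1⟩
      · by_cases e2 : O (φ w0 hw0) w
        · exact Or.inr (Or.inl ⟨e2, hw.1⟩)
        · exact Or.inr (Or.inr ⟨hN _ _ _ k1 (hI _ _ hw.1), e2, e1⟩))
  omega

theorem step [Fintype X] (hO : ∀ x y, O x y → A x y) (hI : ∀ x y, I x y → A x y)
    (hN : ∀ x x' y, a x ≤ a x' → A x' y → A x y)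
    (h2 : ∀ x y, O x y → I x y → False)
    (h4 : ∀ x x' y y', O x y → I x' y → O x' y' → I x y' → False)
    (h6 : ∀ x x' x'' y y' y'', O x y → I x' y → O x' y' → I x'' y' → O x'' y'' → I x y'' → False)
    {Q S : X → Prop} (hd : ∀ x, S x → ¬ Q x) {T : ℕ} {rk : X → ℕ} {O' I' : X → Y → Prop}
    (hO' : ∀ x y, O' x y → O x y) (hI' : ∀ x y, I' x y → I x y)
    (hrk : ∀ x x' y, Q x → Q x' → O' x y → I' x' y → rk x < rk x')
    (hQ : ∀ q, Q q → cd (fun y => A q y ∧ ¬ O' q y ∧ ¬ I' q y) ≤ T)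
    (hS : ∀ x, S x → cd (fun y => A x y ∧ ¬ O x y ∧ ¬ I x y) ≤ T) :
    ∃ (rk2 : X → ℕ) (O2 I2 : X → Y → Prop), (∀ x y, O2 x y → O x y) ∧ (∀ x y, I2 x y → I x y) ∧
      (∀ x x' y, Q x ∨ S x → Q x' ∨ S x' → O2 x y → I2 x' y → rk2 x < rk2 x') ∧
      (∀ q, Q q → cd (fun y => A q y ∧ ¬ O2 q y ∧ ¬ I2 q y) ≤
        cd (fun y => A q y ∧ ¬ O' q y ∧ ¬ I' q y)) ∧
      ∀ x, S x → cd (fun y => A x y ∧ ¬ O2 x y ∧ ¬ I2 x y) ≤ 13 * T := by
  classical
  let Rb : X → X → Prop := fun x z => S x ∧ S z ∧ T < cd (fun y => O x y ∧ I z y)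
  have hdir : ∀ x z, Relation.TransGen Rb x z → ∃ y, O x y ∧ I z y := fun x z h => by
    obtain ⟨k, hk⟩ := pk_of_tg h
    exact (dir hO hI hN h4 hS k x z hk).2.2
  let PB : ℕ → X → Y → Prop := fun p x w => I x w ∧ ∃ g, Q g ∧ O' g w ∧ p ≤ rk g
  let PA : ℕ → X → Y → Prop := fun p x y => O x y ∧ ∃ h, Q h ∧ I' h y ∧ rk h ≤ p
  have L1 : ∀ x z p, (x = z ∨ ∃ y, O x y ∧ I z y) → cd (PA p z) ≤ 2 * T ∨ cd (PB p x) ≤ 2 * T :=
    fun x z p hx => by
      refine cross (M := fun q y => A q y ∧ ¬ O' q y ∧ ¬ I' q y)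
        (HA := fun y h => Q h ∧ I' h y ∧ rk h ≤ p) (HB := fun w g => Q g ∧ O' g w ∧ p ≤ rk g)
        (fun y ⟨_, h, e⟩ => ⟨h, e, hQ h e.1⟩) (fun w ⟨_, g, e⟩ => ⟨g, e, hQ g e.1⟩)
        fun y w h g py pw ⟨a1, a2, a3⟩ ⟨b1, b2, b3⟩ => ?_
      rcases le_total (a h) (a g) with e | e
      · refine Or.inl ⟨hN h g w e (hO _ _ (hO' _ _ b2)), fun o => ?_, fun o => ?_⟩
        · rcases hx with rfl | ⟨y0, c1, c2⟩
          · exact h4 x h y w py.1 (hI' _ _ a2) (hO' _ _ o) pw.1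
          · exact h6 x z h y0 y w c1 c2 py.1 (hI' _ _ a2) (hO' _ _ o) pw.1
        · have := hrk g h w b1 a1 b2 o
          omega
      · refine Or.inr ⟨hN g h y e (hI _ _ (hI' _ _ a2)), fun o => ?_, fun o => ?_⟩
        · have := hrk g h y b1 a1 o a2
          omega
        · rcases hx with rfl | ⟨y0, c1, c2⟩
          · exact h4 x g y w py.1 (hI' _ _ o) (hO' _ _ b2) pw.1
          · exact h6 x z g y0 y w c1 c2 py.1 (hI' _ _ o) (hO' _ _ b2) pw.1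
  have hex : ∀ x, ∃ p, cd (PB p x) ≤ 2 * T := fun x => by
    refine ⟨univ.sup rk + 1, ?_⟩
    by_contra hne
    obtain ⟨w, -, g, -, -, e⟩ := exists_of_cd (p := PB (univ.sup rk + 1) x) (by omega)
    have : rk g ≤ univ.sup rk := le_sup (mem_univ g)
    omega
  let lo : X → ℕ := fun x => Nat.find (hex x)
  let p : X → ℕ := fun z => (univ.filter fun x => Relation.ReflTransGen Rb x z).sup lo
  have p1 : ∀ x, lo x ≤ p x := fun x =>
    le_sup (f := lo) (mem_filter.2 ⟨mem_univ x, Relation.ReflTransGen.refl⟩)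
  have p2 : ∀ x z, Rb x z → p x ≤ p z := fun x z h =>
    sup_mono fun u hu => mem_filter.2 ⟨mem_univ u, (mem_filter.1 hu).2.tail h⟩
  have p3 : ∀ x, cd (PB (p x) x) ≤ 2 * T := fun x =>
    le_trans (cd_mono fun w ⟨e1, g, e2, e3, e4⟩ => ⟨e1, g, e2, e3, (p1 x).trans e4⟩)
      (Nat.find_spec (hex x))
  have p4 : ∀ z, cd (fun y => O z y ∧ ∃ h, Q h ∧ I' h y ∧ rk h < p z) ≤ 2 * T := fun z => by
    obtain ⟨x, hx, e⟩ := exists_mem_eq_sup (univ.filter fun x => Relation.ReflTransGen Rb x z)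
      ⟨z, mem_filter.2 ⟨mem_univ z, Relation.ReflTransGen.refl⟩⟩ lo
    have e' : p z = lo x := e
    by_contra hne
    obtain ⟨y, -, h, -, -, k0⟩ := exists_of_cd
      (p := fun y => O z y ∧ ∃ h, Q h ∧ I' h y ∧ rk h < p z) (by omega)
    have k1 : ¬ cd (PB (p z - 1) x) ≤ 2 * T := Nat.find_min (hex x) (by
      change p z - 1 < lo x
      omega)
    have k2 := (L1 x z (p z - 1) (by
      rcases Relation.reflTransGen_iff_eq_or_transGen.1 (mem_filter.1 hx).2 with r | r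
      · exact Or.inl r.symm
      · exact Or.inr (hdir _ _ r))).resolve_right k1
    exact hne (le_trans (cd_mono fun y ⟨e1, h, e2, e3, e4⟩ => ⟨e1, h, e2, e3, by omega⟩) k2)
  let ht : X → ℕ := fun z => (univ.filter fun x => Relation.TransGen Rb x z).card
  have t1 : ∀ z, ht z ≤ Fintype.card X := fun z => card_le_univ _
  have t2 : ∀ x z, Rb x z → ht x < ht z := fun x z h => by
    refine card_lt_card ⟨fun u hu => mem_filter.2 ⟨mem_univ u, (mem_filter.1 hu).2.tail h⟩,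
      fun e => ?_⟩
    obtain ⟨y, c1, c2⟩ := hdir x x
      (mem_filter.1 (e (mem_filter.2 ⟨mem_univ x, Relation.TransGen.single h⟩))).2
    exact h2 _ _ c1 c2
  obtain ⟨N, hN'⟩ : ∃ N, N = Fintype.card X + 1 := ⟨_, rfl⟩
  let r2 : X → ℕ := fun x => if S x then p x * (N + 1) + ht x else rk x * (N + 1) + N
  have r2S : ∀ x, S x → r2 x = p x * (N + 1) + ht x := fun x h => if_pos h
  have r2Q : ∀ x, ¬ S x → r2 x = rk x * (N + 1) + N := fun x h => if_neg h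
  have lt1 : ∀ {u v : ℕ}, u < v → u * (N + 1) + N < v * (N + 1) := fun {u v} h => by
    have := Nat.mul_le_mul_right (N + 1) (show u + 1 ≤ v from h)
    nlinarith
  have rb : ∀ x z, S x → S z → r2 z ≤ r2 x → cd (fun y => O x y ∧ I z y) ≤ T := fun x z sx sz e => by
    by_contra hne
    have k : Rb x z := ⟨sx, sz, by omega⟩
    have k1 := Nat.mul_le_mul_right (N + 1) (p2 x z k)
    have k2 := t2 x z k
    rw [r2S x sx, r2S z sz] at e
    omega
  refine ⟨r2, fun x y => (¬ S x ∧ O' x y) ∨ (S x ∧ O x y ∧ (¬ ∃ h, Q h ∧ I' h y ∧ rk h < p x) ∧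
      ¬ ∃ z, (S z ∧ a z ≤ a x ∧ r2 z ≤ r2 x) ∧ I z y),
    fun x y => (¬ S x ∧ I' x y) ∨ (S x ∧ I x y ∧ (¬ ∃ g, Q g ∧ O' g y ∧ p x ≤ rk g) ∧
      ¬ ∃ z, (S z ∧ a z ≤ a x ∧ r2 x ≤ r2 z) ∧ O z y),
    fun x y h => h.elim (fun h => hO' _ _ h.2) fun h => h.2.1,
    fun x y h => h.elim (fun h => hI' _ _ h.2) fun h => h.2.1, fun x z y qx qz o i => ?_,
    fun q hq => cd_mono fun y hy => ⟨hy.1, fun o => hy.2.1 (Or.inl ⟨fun s => hd q s hq, o⟩),
      fun o => hy.2.2 (Or.inl ⟨fun s => hd q s hq, o⟩)⟩, fun x sx => ?_⟩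
  · rcases o with ⟨nx, o⟩ | ⟨sx, o, o1, o2⟩ <;> rcases i with ⟨nz, i⟩ | ⟨sz, i, i1, i2⟩
    · have := lt1 (hrk x z y (qx.resolve_right nx) (qz.resolve_right nz) o i)
      rw [r2Q x nx, r2Q z nz]
      omega
    · have k : rk x < p z := by
        by_contra e
        exact i1 ⟨x, qx.resolve_right nx, o, by omega⟩
      have := lt1 k
      rw [r2Q x nx, r2S z sz]
      omega
    · have k : p x ≤ rk z := by
        by_contra e
        exact o1 ⟨z, qz.resolve_right nz, i, by omega⟩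
      have k1 := Nat.mul_le_mul_right (N + 1) k
      have k2 := t1 x
      rw [r2S x sx, r2Q z nz]
      omega
    · by_contra e
      rcases le_total (a z) (a x) with e' | e'
      · exact o2 ⟨z, ⟨sz, e', by omega⟩, i⟩
      · exact i2 ⟨x, ⟨sx, e', by omega⟩, o⟩
  · have c1 := hS x sx
    have c2 := p3 x
    have c3 := p4 x
    have c4 := tour hI hN h4 (T := T) (P := fun z => S z ∧ a z ≤ a x ∧ r2 x ≤ r2 z) (z := x)
      fun z hz => ⟨hz.2.1, rb z x hz.1 sx hz.2.2, hS z hz.1⟩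
    have c5 := tour (O := I) (I := O) hO hN (fun x x' y y' e1 e2 e3 e4 => h4 x' x y y' e2 e1 e4 e3)
      (T := T) (P := fun z => S z ∧ a z ≤ a x ∧ r2 z ≤ r2 x) (z := x)
      fun z hz => ⟨hz.2.1, le_trans (cd_mono fun y hy => ⟨hy.2, hy.1⟩) (rb x z sx hz.1 hz.2.2),
        le_trans (cd_mono fun y hy => ⟨hy.1, hy.2.2, hy.2.1⟩) (hS z hz.1)⟩
    have c6 := cd_le_add (p := fun y => (O x y ∧ ∃ h, Q h ∧ I' h y ∧ rk h < p x) ∨
        (O x y ∧ ∃ z, (S z ∧ a z ≤ a x ∧ r2 z ≤ r2 x) ∧ I z y))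
      (q := fun y => O x y ∧ ∃ h, Q h ∧ I' h y ∧ rk h < p x)
      (r := fun y => O x y ∧ ∃ z, (S z ∧ a z ≤ a x ∧ r2 z ≤ r2 x) ∧ I z y) fun _ h => h
    have c7 := cd_le_add (p := fun y => PB (p x) x y ∨
        (I x y ∧ ∃ z, (S z ∧ a z ≤ a x ∧ r2 x ≤ r2 z) ∧ O z y)) (q := PB (p x) x)
      (r := fun y => I x y ∧ ∃ z, (S z ∧ a z ≤ a x ∧ r2 x ≤ r2 z) ∧ O z y) fun _ h => h
    refine le_trans (cd_le_add3 (q := fun y => A x y ∧ ¬ O x y ∧ ¬ I x y)
      (r := fun y => (O x y ∧ ∃ h, Q h ∧ I' h y ∧ rk h < p x) ∨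
        (O x y ∧ ∃ z, (S z ∧ a z ≤ a x ∧ r2 z ≤ r2 x) ∧ I z y))
      (s := fun y => PB (p x) x y ∨
        (I x y ∧ ∃ z, (S z ∧ a z ≤ a x ∧ r2 x ≤ r2 z) ∧ O z y)) fun y hy => ?_) (by omega)
    by_cases o : O x y
    · refine Or.inr (Or.inl ?_)
      by_contra e
      exact hy.2.1 (Or.inr ⟨sx, o, fun k => e (Or.inl ⟨o, k⟩), fun k => e (Or.inr ⟨o, k⟩)⟩)
    · by_cases i : I x y
      · refine Or.inr (Or.inr ?_)
        by_contra e
        exact hy.2.2 (Or.inr ⟨sx, i, fun k => e (Or.inl ⟨i, k⟩), fun k => e (Or.inr ⟨i, k⟩)⟩)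
      · exact Or.inl ⟨hy.1, o, i⟩

theorem core {X Y : Type} [Fintype X] [Fintype Y] (a : X → ℕ) (A O I : X → Y → Prop)
    (hO : ∀ x y, O x y → A x y) (hI : ∀ x y, I x y → A x y)
    (hN : ∀ x x' y, a x ≤ a x' → A x' y → A x y)
    (h2 : ∀ x y, O x y → I x y → False)
    (h4 : ∀ x x' y y', O x y → I x' y → O x' y' → I x y' → False)
    (h6 : ∀ x x' x'' y y' y'', O x y → I x' y → O x' y' → I x'' y' → O x'' y'' → I x y'' → False) :
    ∃ (rk : X → ℕ) (O' I' : X → Y → Prop), (∀ x y, O' x y → O x y) ∧ (∀ x y, I' x y → I x y) ∧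
      (∀ x x' y, O' x y → I' x' y → rk x < rk x') ∧
      ∀ x, cd (fun y => A x y ∧ ¬ O' x y ∧ ¬ I' x y) ≤
        169 * cd (fun y => A x y ∧ ¬ O x y ∧ ¬ I x y) := by
  obtain ⟨r, hr⟩ : ∃ r : X → ℕ, ∀ x, r x = cd (fun y => A x y ∧ ¬ O x y ∧ ¬ I x y) :=
    ⟨_, fun _ => rfl⟩
  have key : ∀ k : ℕ, ∃ (rk : X → ℕ) (O' I' : X → Y → Prop), (∀ x y, O' x y → O x y) ∧
      (∀ x y, I' x y → I x y) ∧
      (∀ x x' y, r x < 13 ^ k → r x' < 13 ^ k → O' x y → I' x' y → rk x < rk x') ∧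
      ∀ x, r x < 13 ^ k → cd (fun y => A x y ∧ ¬ O' x y ∧ ¬ I' x y) ≤ 13 * 13 ^ k ∧
        cd (fun y => A x y ∧ ¬ O' x y ∧ ¬ I' x y) ≤ 169 * r x := by
    intro k
    induction k with
    | zero =>
      obtain ⟨rk, O', I', k1, k2, k3, -, k5⟩ := step hO hI hN h2 h4 h6 (Q := fun _ => False)
        (S := fun x => r x < 1) (fun _ _ h => h) (T := 0) (rk := fun _ => 0) (O' := O) (I' := I)
        (fun _ _ h => h) (fun _ _ h => h) (fun _ _ _ h => h.elim) (fun _ h => h.elim)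
        (fun x h => by rw [← hr]; omega)
      refine ⟨rk, O', I', k1, k2, fun x x' y e e' => k3 x x' y (Or.inr e) (Or.inr e'),
        fun x e => ?_⟩
      have := k5 x e
      omega
    | succ k ih =>
      obtain ⟨rk0, O0, I0, j1, j2, j3, j4⟩ := ih
      have pw : 13 ^ (k + 1) = 13 * 13 ^ k := by ring
      rw [pw]
      obtain ⟨rk, O', I', k1, k2, k3, k4, k5⟩ := step hO hI hN h2 h4 h6
        (Q := fun x => r x < 13 ^ k) (S := fun x => 13 ^ k ≤ r x ∧ r x < 13 * 13 ^ k)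
        (fun _ h h' => by omega) (T := 13 * 13 ^ k) j1 j2 j3 (fun q h => (j4 q h).1)
        (fun x h => by rw [← hr]; omega)
      refine ⟨rk, O', I', k1, k2, fun x x' y e e' => k3 x x' y (by omega) (by omega),
        fun x e => ?_⟩
      by_cases q : r x < 13 ^ k
      · have := k4 x q
        have := j4 x q
        omega
      · have := k5 x ⟨by omega, e⟩
        omega
  obtain ⟨rk, O', I', k1, k2, k3, k4⟩ := key (univ.sup r)
  have hb : ∀ x, r x < 13 ^ (univ.sup r) := fun x =>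
    lt_of_le_of_lt (le_sup (f := r) (mem_univ x)) (Nat.lt_pow_self (by norm_num))
  exact ⟨rk, O', I', k1, k2, fun x x' y => k3 x x' y (hb x) (hb x'),
    fun x => hr x ▸ (k4 x (hb x)).2⟩

end Pool.Agent.Lib.MP_906bc3_co.Chn
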