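import Pool.Agent.Lib.MP_906bc3_co.ChainMain

/-! Disjoint unions of threshold and chain graphs. -/

set_option autoImplicit false

namespace Pool.Agent.Lib.MP_906bc3_co.Chn

open Finset SimpleGraph Pool.Agent.Lib.MP_906bc3_co.Iso

theorem order2 {V β : Type} [Fintype V] (κ : V → β) (E : V → V → Prop) (Γ : SimpleGraph V)
    (X : V → Prop) (a : V → ℕ) (hg : ∀ x, ¬ Pb E 5 x x) (hE : ∀ u v, E u v → Γ.Adj u v)
    (hκ : ∀ u v, Γ.Adj u v → κ u = κ v) (hY : ∀ u v, ¬ X u → ¬ X v → ¬ Γ.Adj u v)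
    (hN : ∀ x x' y, X x → X x' → ¬ X y → κ x = κ x' → a x ≤ a x' → Γ.Adj x' y → Γ.Adj x y)
    (hX : ∀ t, (∀ x x', κ x = t → κ x' = t → X x → X x' → x ≠ x' → Γ.Adj x x') ∨
      ∀ x x', κ x = t → κ x' = t → X x → X x' → ¬ Γ.Adj x x') :
    ∃ (K : V → V → Prop) (ρ : V → ℕ), (∀ u v, K u v → ρ u < ρ v) ∧
      cd (fun e : V × V => E e.1 e.2 ∧ ¬ K e.1 e.2) ≤
        2028 * ∑ u, cd (fun v => Γ.Adj u v ∧ ¬ E u v ∧ ¬ E v u) := by
  classical
  let G : β → SimpleGraph V := fun t =>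
    { Adj := fun u v => Γ.Adj u v ∧ κ u = t
      symm := ⟨fun u v h => ⟨h.1.symm, (hκ _ _ h.1).symm.trans h.2⟩⟩
      loopless := ⟨fun u h => h.1.ne rfl⟩ }
  have hG : ∀ t u v, (G t).Adj u v ↔ Γ.Adj u v ∧ κ u = t := fun _ _ _ => Iff.rfl
  have h := fun t => order (fun u v => E u v ∧ κ u = t) (G t) (fun u => X u ∧ κ u = t) a
    (fun x h => hg x (Pb.lift (fun _ _ k => k.1) h)) (fun u v h => ⟨hE _ _ h.1, h.2⟩)
    (fun u v hu hv h => hY u v (fun k => hu ⟨k, h.2⟩)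
      (fun k => hv ⟨k, (hκ _ _ h.1).symm.trans h.2⟩) h.1)
    (fun x x' y hx hx' hy e h => ⟨hN x x' y hx.1 hx'.1
      (fun k => hy ⟨k, (hκ _ _ h.1).symm.trans h.2⟩) (hx.2.trans hx'.2.symm) e h.1, hx.2⟩)
    ((hX t).imp (fun k x x' hx hx' e => ⟨k x x' hx.2 hx'.2 hx.1 hx'.1 e, hx.2⟩)
      fun k x x' hx hx' e => k x x' hx.2 hx'.2 hx.1 hx'.1 e.1)
  choose K ρ k1 k2 using h
  refine ⟨fun u v => K (κ u) u v ∧ κ u = κ v, fun u => ρ (κ u) u, fun u v h => ?_, ?_⟩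
  · have := k1 _ _ _ h.1
    simp only [← h.2]
    exact this
  have mp : ∀ x ∈ (univ : Finset V), κ x ∈ univ.image κ := fun x hx => mem_image_of_mem κ hx
  rw [cd_prod fun u v => E u v ∧ ¬ (K (κ u) u v ∧ κ u = κ v), ← sum_fiberwise_of_maps_to mp,
    ← sum_fiberwise_of_maps_to mp fun u => cd (fun v => Γ.Adj u v ∧ ¬ E u v ∧ ¬ E v u), mul_sum]
  refine sum_le_sum fun t _ => le_trans ?_ ((k2 t).trans (Nat.mul_le_mul_left _ ?_))
  · rw [cd_prod fun u v => (E u v ∧ κ u = t) ∧ ¬ K t u v]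
    refine le_trans (sum_le_sum fun u hu => cd_mono fun v hv => ?_)
      (sum_le_sum_of_subset (filter_subset _ _))
    have e := (mem_filter.1 hu).2
    exact ⟨⟨hv.1, e⟩, fun k => hv.2 ⟨e ▸ k, hκ _ _ (hE _ _ hv.1)⟩⟩
  · rw [sum_filter]
    refine sum_le_sum fun u _ => ?_
    split_ifs with e
    · exact cd_mono fun v hv => ⟨hv.1.1, fun k => hv.2.1 ⟨k, e⟩,
        fun k => hv.2.2 ⟨k, (hκ _ _ hv.1.1).symm.trans e⟩⟩
    · by_contra k
      obtain ⟨v, hv⟩ := exists_of_cd (Nat.one_le_iff_ne_zero.2 fun z => k (le_of_eq z))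
      exact e hv.1.2

theorem main2 : ∃ c : ℕ, ∀ {V β : Type} [Fintype V] [DecidableEq V] (D : V → V → Prop)
    (κ : V → β) (X : V → Prop) (a : V → ℕ),
    (∀ u v, (fromRel D).Adj u v → κ u = κ v) →
    (∀ u v, ¬ X u → ¬ X v → ¬ (fromRel D).Adj u v) →
    (∀ x x' y, X x → X x' → ¬ X y → κ x = κ x' → a x ≤ a x' → (fromRel D).Adj x' y →
      (fromRel D).Adj x y) →
    (∀ t, (∀ x x', κ x = t → κ x' = t → X x → X x' → x ≠ x' → (fromRel D).Adj x x') ∨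
      ∀ x x', κ x = t → κ x' = t → X x → X x' → ¬ (fromRel D).Adj x x') →
    ∃ F : Finset (V × V),
      (∀ v : V, ¬ Relation.TransGen (fun x y => D x y ∧ (x, y) ∉ F) v v) ∧
      ∃ k : ℕ, ∃ C : Fin k → Finset (V × V),
        (∀ i j : Fin k, i ≠ j → Disjoint (C i) (C j)) ∧
        (∀ i : Fin k, ∃ v : V, Relation.TransGen (fun x y => D x y ∧ (x, y) ∈ C i) v v) ∧
        F.card ≤ c * k := by
  refine ⟨24342, fun {V β} _ _ D κ X a hκ hY hN hX => ?_⟩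
  classical
  obtain ⟨S, h1, h2, h3⟩ := packing D 5
  obtain ⟨R, hR⟩ : ∃ R, R = S.biUnion id := ⟨_, rfl⟩
  have hc : R.card ≤ S.card * 6 := hR ▸ card_biUnion_le_card_mul S id _ fun c hc => (h2 c hc).1
  rw [← hR] at h3
  obtain ⟨K, ρ, k1, k2⟩ := order2 κ (fun a b => D a b ∧ (a, b) ∉ R) (fromRel D) X a h3
    (fun u v h => (fromRel_adj _ _ _).2 ⟨by
      rintro rfl
      exact h3 u (Pb.of_arc (E := fun a b => D a b ∧ (a, b) ∉ R) h _), Or.inl h.1⟩) hκ hY hN hX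
  have k3 : ∀ u, cd (fun v => (fromRel D).Adj u v ∧ ¬ (D u v ∧ (u, v) ∉ R) ∧
      ¬ (D v u ∧ (v, u) ∉ R)) ≤ cd (fun v => (u, v) ∈ R) + cd (fun v => (v, u) ∈ R) := fun u =>
    cd_le_add fun v hv => ((fromRel_adj _ _ _).1 hv.1).2.imp
      (fun k => by_contra fun e => hv.2.1 ⟨k, e⟩) fun k => by_contra fun e => hv.2.2 ⟨k, e⟩
  have k4 := sum_le_sum (s := univ) fun u _ => k3 u
  have k5 : cd (fun e : V × V => e ∈ R) = ∑ u, cd (fun v => (u, v) ∈ R) :=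
    cd_prod fun u v => (u, v) ∈ R
  have k6 : cd (fun e : V × V => e ∈ R) = ∑ u, cd (fun v => (v, u) ∈ R) :=
    cd_swap fun u v => (v, u) ∈ R
  rw [cd_mem] at k5 k6
  rw [sum_add_distrib, ← k5, ← k6] at k4
  obtain ⟨Z, hZ, hZc⟩ : ∃ Z : Finset (V × V),
      (∀ x y, D x y → (x, y) ∉ R → (x, y) ∉ Z → K x y) ∧
      Z.card = cd (fun e : V × V => (D e.1 e.2 ∧ (e.1, e.2) ∉ R) ∧ ¬ K e.1 e.2) :=
    ⟨univ.filter fun e : V × V => (D e.1 e.2 ∧ (e.1, e.2) ∉ R) ∧ ¬ K e.1 e.2,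
      fun x y d r z => by_contra fun k => z (mem_filter.2 ⟨mem_univ _, ⟨d, r⟩, k⟩), by
        unfold cd
        convert rfl⟩
  refine ⟨R ∪ Z, fun v hv => ?_, S.card, fun i => (S.equivFin.symm i).1, fun i j hij =>
    h1 _ (S.equivFin.symm i).2 _ (S.equivFin.symm j).2
      fun e => hij (S.equivFin.symm.injective (Subtype.ext e)),
    fun i => (h2 _ (S.equivFin.symm i).2).2, ?_⟩
  · have key : ∀ x y, Relation.TransGen (fun x y => D x y ∧ (x, y) ∉ R ∪ Z) x y →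
        ρ x < ρ y := fun x y h => by
      have st : ∀ x y, D x y ∧ (x, y) ∉ R ∪ Z → ρ x < ρ y := fun x y h =>
        k1 x y (hZ x y h.1 (fun e => h.2 (mem_union_left _ e)) fun e => h.2 (mem_union_right _ e))
      induction h with
      | single h => exact st _ _ h
      | tail _ h ih => exact ih.trans (st _ _ h)
    exact lt_irrefl _ (key v v hv)
  · have k7 := card_union_le R Z
    omega

end Pool.Agent.Lib.MP_906bc3_co.Chn
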