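import Pool.Agent.Lib.MP_906bc3_co.Chain

/-! Threshold and chain graphs: reduction to the bipartite core. -/

set_option autoImplicit false

namespace Pool.Agent.Lib.MP_906bc3_co.Chn

open Finset SimpleGraph Pool.Agent.Lib.MP_906bc3_co.Iso

variable {V : Type} [Fintype V]

theorem cd_prod (P : V → V → Prop) : cd (fun e : V × V => P e.1 e.2) = ∑ u, cd (P u) := by
  classical
  unfold cd
  simp only [card_filter]
  rw [Fintype.sum_prod_type]

theorem cd_swap (P : V → V → Prop) : cd (fun e : V × V => P e.2 e.1) = ∑ u, cd (P u) := by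
  classical
  unfold cd
  simp only [card_filter]
  rw [Fintype.sum_prod_type_right]

theorem cd_eq_le (a : V) : cd (fun z => z = a) ≤ 1 := by
  classical
  unfold cd
  exact card_le_one.2 fun x hx y hy => (mem_filter.1 hx).2.trans (mem_filter.1 hy).2.symm

theorem one_le_cd {p : V → Prop} {a : V} (h : p a) : 1 ≤ cd p := by
  classical
  unfold cd
  exact card_pos.2 ⟨a, mem_filter.2 ⟨mem_univ _, h⟩⟩

theorem cd_mem (R : Finset V) : cd (fun e => e ∈ R) = R.card := by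
  classical
  unfold cd
  congr 1
  ext e
  simp

/-- the core with the hubs given by a predicate -/
theorem core' (X : V → Prop) (a : V → ℕ) (A O I : V → V → Prop)
    (hO : ∀ x y, X x → O x y → A x y) (hI : ∀ x y, X x → I x y → A x y)
    (hN : ∀ x x' y, X x → X x' → a x ≤ a x' → A x' y → A x y)
    (h2 : ∀ x y, O x y → I x y → False)
    (h4 : ∀ x x' y y', O x y → I x' y → O x' y' → I x y' → False)
    (h6 : ∀ x x' x'' y y' y'', O x y → I x' y → O x' y' → I x'' y' → O x'' y'' → I x y'' → False) :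
    ∃ (rk : V → ℕ) (O' I' : V → V → Prop), (∀ x y, O' x y → O x y) ∧ (∀ x y, I' x y → I x y) ∧
      (∀ x y, O' x y → X x) ∧
      (∀ x x' y, O' x y → I' x' y → rk x < rk x') ∧
      ∀ x, X x → cd (fun y => A x y ∧ ¬ O' x y ∧ ¬ I' x y) ≤
        169 * cd (fun y => A x y ∧ ¬ O x y ∧ ¬ I x y) := by
  classical
  obtain ⟨rk, O', I', k1, k2, k3, k4⟩ := core (X := {x // X x}) (Y := V) (fun x => a x.1)
    (fun x y => A x.1 y) (fun x y => O x.1 y) (fun x y => I x.1 y)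
    (fun x y => hO _ _ x.2) (fun x y => hI _ _ x.2) (fun x x' y => hN _ _ _ x.2 x'.2)
    (fun x y => h2 _ _) (fun x x' y y' => h4 _ _ _ _) (fun x x' x'' y y' y'' => h6 _ _ _ _ _ _)
  refine ⟨fun x => if h : X x then rk ⟨x, h⟩ else 0, fun x y => ∃ h : X x, O' ⟨x, h⟩ y,
    fun x y => ∃ h : X x, I' ⟨x, h⟩ y, fun x y ⟨h, k⟩ => k1 _ _ k, fun x y ⟨h, k⟩ => k2 _ _ k,
    fun x y ⟨h, _⟩ => h, fun x x' y ⟨h, k⟩ ⟨h', k'⟩ => ?_, fun x hx => ?_⟩
  · simp only [dif_pos h, dif_pos h']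
    exact k3 _ _ _ k k'
  · exact (cd_mono fun y hy => ⟨hy.1, fun k => hy.2.1 ⟨hx, k⟩, fun k => hy.2.2 ⟨hx, k⟩⟩).trans
      (k4 ⟨x, hx⟩)

/-- after the packing: few deletions give a ranking -/
theorem order (E : V → V → Prop) (Γ : SimpleGraph V) (X : V → Prop) (a : V → ℕ)
    (hg : ∀ x, ¬ Pb E 5 x x) (hE : ∀ u v, E u v → Γ.Adj u v)
    (hY : ∀ u v, ¬ X u → ¬ X v → ¬ Γ.Adj u v)
    (hN : ∀ x x' y, X x → X x' → ¬ X y → a x ≤ a x' → Γ.Adj x' y → Γ.Adj x y)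
    (hX : (∀ x x', X x → X x' → x ≠ x' → Γ.Adj x x') ∨ ∀ x x', X x → X x' → ¬ Γ.Adj x x') :
    ∃ (K : V → V → Prop) (ρ : V → ℕ), (∀ u v, K u v → ρ u < ρ v) ∧
      cd (fun e : V × V => E e.1 e.2 ∧ ¬ K e.1 e.2) ≤
        2028 * ∑ u, cd (fun v => Γ.Adj u v ∧ ¬ E u v ∧ ¬ E v u) := by
  classical
  obtain ⟨Cl, hCl⟩ : ∃ Cl : Prop, Cl ↔ ∀ x x', X x → X x' → x ≠ x' → Γ.Adj x x' := ⟨_, Iff.rfl⟩
  have hcl : ∀ u v, X u → X v → E u v → Cl := fun u v hu hv h =>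
    hCl.2 (hX.resolve_right fun k => k u v hu hv (hE _ _ h))
  have hb : ∀ x y, (E y x ∨ (x = y ∧ Cl)) → Bl E 1 y x := fun x y h => by
    rcases h with h | ⟨rfl, -⟩
    · exact Bl.of_arc h
    · exact Bl.rfl' _ _
  have h2 : ∀ x y, E x y → (E y x ∨ (x = y ∧ Cl)) → False := fun x y h k =>
    hg x (((Pb.of_arc h 0).trans_bl (hb _ _ k)).mono (by omega))
  have hA : ∀ x y, X x → E x y ∨ E y x → (¬ X y ∧ Γ.Adj x y) ∨ (X y ∧ Cl) := fun x y hx h => by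
    by_cases hy : X y
    · exact Or.inr ⟨hy, h.elim (hcl _ _ hx hy) (hcl _ _ hy hx)⟩
    · exact Or.inl ⟨hy, h.elim (hE _ _) fun k => (hE _ _ k).symm⟩
  obtain ⟨rk, O', I', k1, k2, k0, k3, k4⟩ := core' X a
    (fun x v => (¬ X v ∧ Γ.Adj x v) ∨ (X v ∧ Cl)) E (fun x v => E v x ∨ (x = v ∧ Cl))
    (fun x y hx h => hA x y hx (Or.inl h))
    (fun x y hx h => h.elim (fun k => hA x y hx (Or.inr k)) fun k => Or.inr ⟨k.1 ▸ hx, k.2⟩)
    (fun x x' y hx hx' h k => k.imp (fun k => ⟨k.1, hN _ _ _ hx hx' k.1 h k.2⟩) id) h2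
    (fun x x' y y' a1 a2 a3 a4 => hg x
      (((((Pb.of_arc a1 0).trans_bl (hb _ _ a2)).trans_bl (Bl.of_arc a3)).trans_bl
        (hb _ _ a4)).mono (by omega)))
    (fun x x' x'' y y' y'' a1 a2 a3 a4 a5 a6 => hg x
      ((((((Pb.of_arc a1 0).trans_bl (hb _ _ a2)).trans_bl (Bl.of_arc a3)).trans_bl
        (hb _ _ a4)).trans_bl (Bl.of_arc a5)).trans_bl (hb _ _ a6)))
  obtain ⟨M, hM⟩ : ∃ M : V → V → Prop, ∀ u v, M u v ↔
      X u ∧ ((¬ X v ∧ Γ.Adj u v) ∨ (X v ∧ Cl)) ∧ ¬ O' u v ∧ ¬ I' u v := ⟨_, fun _ _ => Iff.rfl⟩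
  have m0 : ∀ u, cd (M u) ≤ 169 * cd (fun v => Γ.Adj u v ∧ ¬ E u v ∧ ¬ E v u) := fun u => by
    by_cases hu : X u
    · refine ((cd_mono fun v hv => ((hM u v).1 hv).2).trans (k4 u hu)).trans
        (Nat.mul_le_mul_left _ (cd_mono fun v hv => ⟨?_, hv.2.1, fun k => hv.2.2 (Or.inl k)⟩))
      rcases hv.1 with k | k
      · exact k.2
      · exact hCl.1 k.2 u v hu k.1 fun e => hv.2.2 (Or.inr ⟨e, k.2⟩)
    · exact (cd_mono fun v hv => absurd ((hM u v).1 hv).1 hu).trans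
        (Nat.le_mul_of_pos_left _ (by omega))
  have mO : ∀ u v, X u → E u v → ¬ O' u v → M u v := fun u v hu h k =>
    (hM u v).2 ⟨hu, hA u v hu (Or.inl h), k, fun e => h2 _ _ h (k2 _ _ e)⟩
  have mI : ∀ u v, X u → E v u → ¬ I' u v → M u v := fun u v hu h k =>
    (hM u v).2 ⟨hu, hA u v hu (Or.inr h), fun e => h2 _ _ (k1 _ _ e) (Or.inl h), k⟩
  have c1 : ∀ u, cd (fun v => X u ∧ X v ∧ E u v ∧ rk v ≤ rk u ∧ cd (M v) ≤ cd (M u)) ≤
      4 * cd (M u) := fun u => by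
    rcases Nat.eq_zero_or_pos
      (cd (fun v => X u ∧ X v ∧ E u v ∧ rk v ≤ rk u ∧ cd (M v) ≤ cd (M u))) with h | h
    · omega
    obtain ⟨v0, ⟨hu, hv0, he, hr, hm⟩, hh⟩ := exists_half (ρ := E) h
      fun y z k k' => h2 _ _ k (Or.inl k')
    have := cd_le_add3 (p := fun v => X u ∧ X v ∧ E u v ∧ rk v ≤ rk u ∧ cd (M v) ≤ cd (M u))
      (q := fun z => (X u ∧ X z ∧ E u z ∧ rk z ≤ rk u ∧ cd (M z) ≤ cd (M u)) ∧ E v0 z)
      (r := M u) (s := M v0) fun z hz => by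
        by_cases e : E v0 z
        · exact Or.inl ⟨hz, e⟩
        by_cases o : O' u z
        · refine Or.inr (Or.inr ((hM v0 z).2 ⟨hv0, Or.inr ⟨hz.2.1, hcl _ _ hu hv0 he⟩,
            fun k => e (k1 _ _ k), fun k => ?_⟩))
          have := k3 _ _ _ o k
          omega
        · exact Or.inr (Or.inl (mO u z hu hz.2.2.1 o))
    omega
  have c2 : ∀ v, cd (fun u => X u ∧ X v ∧ E u v ∧ rk v ≤ rk u ∧ cd (M u) ≤ cd (M v)) ≤
      6 * cd (M v) := fun v => by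
    rcases Nat.eq_zero_or_pos
      (cd (fun u => X u ∧ X v ∧ E u v ∧ rk v ≤ rk u ∧ cd (M u) ≤ cd (M v))) with h | h
    · omega
    obtain ⟨u0, ⟨hu0, hv, he, hr, hm⟩, hh⟩ := exists_half (ρ := fun y z => E z y) h
      fun y z k k' => h2 _ _ k (Or.inl k')
    have hc := hcl _ _ hu0 hv he
    have t1 : 1 ≤ cd (M v) := by
      by_cases o : O' u0 v
      · refine one_le_cd ((hM v v).2 ⟨hv, Or.inr ⟨hv, hc⟩,
          fun k => h2 _ _ (k1 _ _ k) (Or.inr ⟨rfl, hc⟩), fun k => ?_⟩)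
        have := k3 _ _ _ o k
        omega
      · exact (one_le_cd (mO u0 v hu0 he o)).trans hm
    have t2 := cd_le_add (p := fun z => M u0 z ∨ z = u0) (q := M u0) (r := fun z => z = u0)
      fun _ h => h
    have t3 := cd_eq_le u0
    have := cd_le_add3 (p := fun u => X u ∧ X v ∧ E u v ∧ rk v ≤ rk u ∧ cd (M u) ≤ cd (M v))
      (q := fun z => (X z ∧ X v ∧ E z v ∧ rk v ≤ rk z ∧ cd (M z) ≤ cd (M v)) ∧ E z u0)
      (r := M v) (s := fun z => M u0 z ∨ z = u0) fun z hz => by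
        by_cases e : E z u0
        · exact Or.inl ⟨hz, e⟩
        by_cases e' : z = u0
        · exact Or.inr (Or.inr (Or.inr e'))
        by_cases o : I' v z
        · refine Or.inr (Or.inr (Or.inl ((hM u0 z).2 ⟨hu0, Or.inr ⟨hz.1, hc⟩, fun k => ?_,
            fun k => (k2 _ _ k).elim e fun k' => e' k'.1.symm⟩)))
          have := k3 _ _ _ k o
          omega
        · exact Or.inr (Or.inl (mI v z hv hz.2.2.1 o))
    omega
  refine ⟨fun u v => (¬ X v ∧ O' u v) ∨ (¬ X u ∧ X v ∧ I' v u) ∨ (X u ∧ X v ∧ rk u < rk v),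
    fun v => if X v then 2 * rk v + 1 else (univ.filter fun x => O' x v).sup fun x => 2 * rk x + 2,
    fun u v h => ?_, ?_⟩
  · rcases h with ⟨hv, o⟩ | ⟨hu, hv, i⟩ | ⟨hu, hv, r⟩
    · simp only [if_pos (k0 _ _ o), if_neg hv]
      have := le_sup (s := univ.filter fun x => O' x v) (f := fun x => 2 * rk x + 2)
        (mem_filter.2 ⟨mem_univ u, o⟩)
      exact lt_of_lt_of_le (by omega) this
    · simp only [if_neg hu, if_pos hv]
      refine Nat.lt_succ_of_le (Finset.sup_le fun x hx => ?_)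
      have := k3 _ _ _ (mem_filter.1 hx).2 i
      omega
    · simp only [if_pos hu, if_pos hv]
      omega
  · have s1 := cd_prod M
    have s2 := cd_swap M
    have s3 := cd_prod fun u v => X u ∧ X v ∧ E u v ∧ rk v ≤ rk u ∧ cd (M v) ≤ cd (M u)
    have s4 := cd_swap fun v u => X u ∧ X v ∧ E u v ∧ rk v ≤ rk u ∧ cd (M u) ≤ cd (M v)
    have s5 := sum_le_sum (s := univ) fun u _ => c1 u
    have s6 := sum_le_sum (s := univ) fun u _ => c2 u
    have s7 := sum_le_sum (s := univ) fun u _ => m0 u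
    rw [← mul_sum] at s5 s6 s7
    have s8 := cd_le_add (V := V × V) (p := fun e => M e.1 e.2 ∨ M e.2 e.1)
      (q := fun e => M e.1 e.2) (r := fun e => M e.2 e.1) fun _ h => h
    have s9 := cd_le_add3 (V := V × V) (p := fun e => E e.1 e.2 ∧ ¬ ((¬ X e.2 ∧ O' e.1 e.2) ∨
        (¬ X e.1 ∧ X e.2 ∧ I' e.2 e.1) ∨ (X e.1 ∧ X e.2 ∧ rk e.1 < rk e.2)))
      (q := fun e => M e.1 e.2 ∨ M e.2 e.1)
      (r := fun e => X e.1 ∧ X e.2 ∧ E e.1 e.2 ∧ rk e.2 ≤ rk e.1 ∧ cd (M e.2) ≤ cd (M e.1))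
      (s := fun e => X e.1 ∧ X e.2 ∧ E e.1 e.2 ∧ rk e.2 ≤ rk e.1 ∧ cd (M e.1) ≤ cd (M e.2))
      fun e ⟨he, hk⟩ => by
        by_cases hu : X e.1 <;> by_cases hv : X e.2
        · have hr : rk e.2 ≤ rk e.1 := not_lt.1 fun k => hk (Or.inr (Or.inr ⟨hu, hv, k⟩))
          rcases le_total (cd (M e.2)) (cd (M e.1)) with k | k
          · exact Or.inr (Or.inl ⟨hu, hv, he, hr, k⟩)
          · exact Or.inr (Or.inr ⟨hu, hv, he, hr, k⟩)
        · exact Or.inl (Or.inl (mO _ _ hu he fun k => hk (Or.inl ⟨hv, k⟩)))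
        · exact Or.inl (Or.inr (mI _ _ hv he fun k => hk (Or.inr (Or.inl ⟨hu, hv, k⟩))))
        · exact absurd (hE _ _ he) (hY _ _ hu hv)
    refine s9.trans ?_
    omega

theorem main : ∃ c : ℕ, ∀ {V : Type} [Fintype V] [DecidableEq V] (D : V → V → Prop)
    (X : V → Prop) (a : V → ℕ),
    (∀ u v, ¬ X u → ¬ X v → ¬ (fromRel D).Adj u v) →
    (∀ x x' y, X x → X x' → ¬ X y → a x ≤ a x' → (fromRel D).Adj x' y → (fromRel D).Adj x y) →
    ((∀ x x', X x → X x' → x ≠ x' → (fromRel D).Adj x x') ∨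
      ∀ x x', X x → X x' → ¬ (fromRel D).Adj x x') →
    ∃ F : Finset (V × V),
      (∀ v : V, ¬ Relation.TransGen (fun x y => D x y ∧ (x, y) ∉ F) v v) ∧
      ∃ k : ℕ, ∃ C : Fin k → Finset (V × V),
        (∀ i j : Fin k, i ≠ j → Disjoint (C i) (C j)) ∧
        (∀ i : Fin k, ∃ v : V, Relation.TransGen (fun x y => D x y ∧ (x, y) ∈ C i) v v) ∧
        F.card ≤ c * k := by
  refine ⟨24342, fun {V} _ _ D X a hY hN hX => ?_⟩
  classical
  obtain ⟨S, h1, h2, h3⟩ := packing D 5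
  obtain ⟨R, hR⟩ : ∃ R, R = S.biUnion id := ⟨_, rfl⟩
  have hc : R.card ≤ S.card * 6 := hR ▸ card_biUnion_le_card_mul S id _ fun c hc => (h2 c hc).1
  rw [← hR] at h3
  obtain ⟨K, ρ, k1, k2⟩ := order (fun a b => D a b ∧ (a, b) ∉ R) (fromRel D) X a h3
    (fun u v h => (fromRel_adj _ _ _).2 ⟨by
      rintro rfl
      exact h3 u (Pb.of_arc (E := fun a b => D a b ∧ (a, b) ∉ R) h _), Or.inl h.1⟩) hY hN hX
  have k3 : ∀ u, cd (fun v => (fromRel D).Adj u v ∧ ¬ (D u v ∧ (u, v) ∉ R) ∧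
      ¬ (D v u ∧ (v, u) ∉ R)) ≤ cd (fun v => (u, v) ∈ R) + cd (fun v => (v, u) ∈ R) := fun u =>
    cd_le_add fun v hv => ((fromRel_adj _ _ _).1 hv.1).2.imp
      (fun k => by_contra fun e => hv.2.1 ⟨k, e⟩) fun k => by_contra fun e => hv.2.2 ⟨k, e⟩
  have k4 := sum_le_sum (s := univ) fun u _ => k3 u
  have k5 : cd (fun e : V × V => e ∈ R) = ∑ u, cd (fun v => (u, v) ∈ R) :=
    cd_prod fun u v => (u, v) ∈ R
  have k6 : cd (fun e : V × V => e ∈ R) = ∑ u, cd (fun v => (v, u) ∈ R) :=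
    cd_swap fun u v => (v, u) ∈ R
  rw [cd_mem] at k5 k6
  rw [sum_add_distrib, ← k5, ← k6] at k4
  obtain ⟨Z, hZ, hZc⟩ : ∃ Z : Finset (V × V),
      (∀ x y, D x y → (x, y) ∉ R → (x, y) ∉ Z → K x y) ∧
      Z.card = cd (fun e : V × V => (D e.1 e.2 ∧ (e.1, e.2) ∉ R) ∧ ¬ K e.1 e.2) :=
    ⟨univ.filter fun e : V × V => (D e.1 e.2 ∧ (e.1, e.2) ∉ R) ∧ ¬ K e.1 e.2,
      fun x y d r z => by_contra fun k => z (mem_filter.2 ⟨mem_univ _, ⟨d, r⟩, k⟩), by
        unfold cd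
        convert rfl⟩
  refine ⟨R ∪ Z, fun v hv => ?_, S.card, fun i => (S.equivFin.symm i).1, fun i j hij =>
    h1 _ (S.equivFin.symm i).2 _ (S.equivFin.symm j).2
      fun e => hij (S.equivFin.symm.injective (Subtype.ext e)),
    fun i => (h2 _ (S.equivFin.symm i).2).2, ?_⟩
  · have key : ∀ x y, Relation.TransGen (fun x y => D x y ∧ (x, y) ∉ R ∪ Z) x y →
        ρ x < ρ y := fun x y h => by
      have st : ∀ x y, D x y ∧ (x, y) ∉ R ∪ Z → ρ x < ρ y := fun x y h =>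
        k1 x y (hZ x y h.1 (fun e => h.2 (mem_union_left _ e)) fun e => h.2 (mem_union_right _ e))
      induction h with
      | single h => exact st _ _ h
      | tail _ h ih => exact ih.trans (st _ _ h)
    exact lt_irrefl _ (key v v hv)
  · have k7 := card_union_le R Z
    omega

end Pool.Agent.Lib.MP_906bc3_co.Chn
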