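import Pool.Agent.Lib.MP_906bc3_co.IsoMain

/-! Cographs without a long threshold chain: a vertex of small out-degree. -/

set_option autoImplicit false

namespace Pool.Agent.Lib.MP_906bc3_co.Dep

open Finset SimpleGraph Pool.Agent.Lib.MP_906bc3_co.Iso

variable {V : Type}

/-- no induced path on four vertices -/
def NoP4 (Γ : SimpleGraph V) : Prop :=
  ∀ a b c d, Γ.Adj a b → Γ.Adj b c → Γ.Adj c d → a ≠ c → b ≠ d →
    Γ.Adj a c ∨ Γ.Adj b d ∨ Γ.Adj a d

/-- a threshold chain of length `j` inside a set -/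
def Chain (Γ : SimpleGraph V) : ℕ → (V → Prop) → Prop
  | 0, _ => True
  | j + 1, W => ∃ x l, W x ∧ W l ∧ Γ.Adj x l ∧
      Chain Γ j (fun y => W y ∧ Γ.Adj x y ∧ ¬ Γ.Adj l y ∧ y ≠ l)

theorem Chain.mono {Γ : SimpleGraph V} : ∀ {j : ℕ} {W W' : V → Prop}, (∀ y, W y → W' y) →
    Chain Γ j W → Chain Γ j W'
  | 0, _, _, _, _ => trivial
  | _ + 1, _, _, h, ⟨x, l, h1, h2, h3, h4⟩ =>
    ⟨x, l, h _ h1, h _ h2, h3, Chain.mono (fun y hy => ⟨h _ hy.1, hy.2⟩) h4⟩

/-- joined by a path inside `S` -/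
def Rch (Γ : SimpleGraph V) (S : V → Prop) (a b : V) : Prop :=
  Relation.ReflTransGen (fun x y => Γ.Adj x y ∧ S x ∧ S y) a b

/-- outside vertices see all of `W` or nothing -/
def Mod (Γ : SimpleGraph V) (W : V → Prop) : Prop :=
  ∀ y w w', ¬ W y → W w → W w' → Γ.Adj y w → Γ.Adj y w'

variable {Γ : SimpleGraph V}

theorem Rch.symm {S : V → Prop} {a b : V} (h : Rch Γ S a b) : Rch Γ S b a := by
  unfold Rch at *
  induction h with
  | refl => exact .refl
  | tail _ e ih => exact .head ⟨e.1.symm, e.2.2, e.2.1⟩ ih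

theorem Rch.trans {S : V → Prop} {a b c : V} (h : Rch Γ S a b) (h' : Rch Γ S b c) :
    Rch Γ S a c := Relation.ReflTransGen.trans h h'

theorem Rch.mem {S : V → Prop} {a b : V} (h : Rch Γ S a b) (ha : S a) : S b := by
  unfold Rch at h
  induction h with
  | refl => exact ha
  | tail _ e _ => exact e.2.2

theorem Rch.step {S : V → Prop} {a b c : V} (h : Rch Γ S a b) (ha : S a) (e : Γ.Adj b c)
    (hc : S c) : Rch Γ S a c := Relation.ReflTransGen.tail h ⟨e, h.mem ha, hc⟩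

/-- a component is connected in itself -/
theorem Rch.self {S : V → Prop} {a b : V} (ha : S a) (h : Rch Γ S a b) :
    Rch Γ (Rch Γ S a) a b := by
  unfold Rch at h
  induction h with
  | refl => exact Relation.ReflTransGen.refl
  | tail k e ih => exact Relation.ReflTransGen.tail ih ⟨e.1, k, Relation.ReflTransGen.tail k e⟩

theorem diam (hP : NoP4 Γ) {W : V → Prop} {l t : V} (h : Rch Γ W l t) :
    t = l ∨ Γ.Adj l t ∨ ∃ x, W x ∧ Γ.Adj l x ∧ Γ.Adj x t := by
  unfold Rch at h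
  induction h with
  | refl => exact Or.inl rfl
  | @tail t t2 _ e ih =>
    rcases ih with rfl | k | ⟨x, k1, k2, k3⟩
    · exact Or.inr (Or.inl e.1)
    · exact Or.inr (Or.inr ⟨t, e.2.1, k, e.1⟩)
    · by_cases e1 : l = t
      · exact Or.inr (Or.inl (e1 ▸ e.1))
      by_cases e2 : x = t2
      · exact Or.inr (Or.inl (e2 ▸ k2))
      rcases hP l x t t2 k2 k3 e.1 e1 e2 with k | k | k
      · exact Or.inr (Or.inr ⟨t, e.2.1, k, e.1⟩)
      · exact Or.inr (Or.inr ⟨x, k1, k2, k⟩)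
      · exact Or.inr (Or.inl k)

/-- the non-neighbours of `l` in `W` -/
def Non (Γ : SimpleGraph V) (W : V → Prop) (l y : V) : Prop := W y ∧ ¬ Γ.Adj l y ∧ y ≠ l

theorem spread (hP : NoP4 Γ) {W : V → Prop} {l y a b : V} (hy : Γ.Adj l y)
    (ha : Non Γ W l a) (h : Rch Γ (Non Γ W l) a b) (e : Γ.Adj y a) : Γ.Adj y b := by
  unfold Rch at h
  induction h with
  | refl => exact e
  | @tail t t2 _ k ih =>
    rcases hP l y t t2 hy ih k.1 (fun q => k.2.1.2.2 q.symm)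
      (fun q => k.2.2.2.1 (q ▸ hy)) with q | q | q
    · exact absurd q k.2.1.2.1
    · exact q
    · exact absurd q k.2.2.2.1

theorem comp_mod (hP : NoP4 Γ) {W : V → Prop} (hW : Mod Γ W) {l a : V} (ha : Non Γ W l a) :
    Mod Γ (Rch Γ (Non Γ W l) a) := by
  intro y w w' hy hw hw' e
  by_cases k : W y
  · by_cases k2 : Γ.Adj l y
    · exact spread hP k2 (hw.mem ha) (hw.symm.trans hw') e
    · by_cases k3 : y = l
      · exact absurd (k3 ▸ e) (hw.mem ha).2.1
      · exact absurd (hw.step ha e.symm ⟨k, k2, k3⟩) hy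
  · exact hW y w w' k (hw.mem ha).1 (hw'.mem ha).1 e

theorem comp_chain (hP : NoP4 Γ) {W : V → Prop} {l a : V} {j : ℕ} (hl : W l)
    (hc : Rch Γ W l a) (ha : Non Γ W l a) (hn : ¬ Chain Γ (j + 1) W) :
    ¬ Chain Γ j (Rch Γ (Non Γ W l) a) := by
  intro h
  rcases diam hP hc with k | k | ⟨x, k1, k2, k3⟩
  · exact ha.2.2 k
  · exact ha.2.1 k
  · exact hn ⟨x, l, k1, hl, k2.symm, h.mono fun y hy =>
      ⟨(hy.mem ha).1, spread hP k2 ha hy k3, (hy.mem ha).2.1, (hy.mem ha).2.2⟩⟩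

variable [Fintype V]

theorem cd_fiber {β : Type} (f : V → β) {p q : V → Prop} {K : ℕ}
    (h : ∀ a, p a → cd (fun y => p y ∧ f y = f a) ≤ K * cd (fun y => q y ∧ f y = f a)) :
    cd p ≤ K * cd q := by
  classical
  have e : ∀ r : V → Prop, cd r = ∑ b ∈ univ.image f, cd (fun y => r y ∧ f y = b) := fun r => by
    unfold cd
    rw [card_eq_sum_card_fiberwise (f := f) (t := univ.image f)
      (fun x _ => mem_coe.2 (mem_image_of_mem f (mem_univ x)))]
    refine sum_congr rfl fun b _ => ?_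
    rw [filter_filter]
    convert rfl
  rw [e p, e q, mul_sum]
  refine sum_le_sum fun b _ => ?_
  by_cases k : 1 ≤ cd (fun y => p y ∧ f y = b)
  · obtain ⟨a, ha, rfl⟩ := exists_of_cd k
    exact h a ha
  · omega

theorem cd_disj {p q r : V → Prop} (h1 : ∀ x, p x → r x) (h2 : ∀ x, q x → r x)
    (h3 : ∀ x, p x → ¬ q x) : cd p + cd q ≤ cd r := by
  classical
  unfold cd
  rw [← card_union_of_disjoint (disjoint_filter.2 fun x _ hx => h3 x hx)]
  refine card_le_card fun x hx => ?_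
  simp only [mem_filter, mem_univ, true_and, mem_union] at hx ⊢
  exact hx.elim (h1 x) (h2 x)

/-- `b` is within `k` steps of a point of `S` with few out-neighbours in `S` -/
def Near (E : V → V → Prop) (c k g : ℕ) (S : V → Prop) (b : V) : Prop :=
  ∃ u, S u ∧ Bl E k b u ∧ c * cd (On E S u) ≤ g * cd (E u)

/-- the statement for sets whose components are modules without a chain of length `j` -/
def St (Γ : SimpleGraph V) (E F : V → V → Prop) (c j k g K : ℕ) : Prop :=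
  ∀ S : V → Prop, (∀ a, S a → c * cd (F a) < cd (E a)) →
    (∀ a, S a → Mod Γ (Rch Γ S a) ∧ ¬ Chain Γ j (Rch Γ S a)) →
    ∀ q, ¬ S q → (∀ b, E q b → S b → ¬ Near E c k g S b) → cd (On E S q) ≤ K * cd (On F S q)

variable {E F : V → V → Prop} {c j k g K : ℕ}

/-- a point of least out-degree in a connected module has few out-neighbours inside -/
theorem low (hP : NoP4 Γ) (hE : ∀ a b, E a b → Γ.Adj a b)
    (hA : ∀ a b, Γ.Adj a b → E a b ∨ E b a ∨ F a b) (hg : ∀ x, ¬ Pb E (2 * k + 4) x x)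
    (hc : g + K ≤ c) (hS : St Γ E F c j k g K) {W : V → Prop}
    (hd : ∀ a, W a → c * cd (F a) < cd (E a)) (hW : Mod Γ W) (hn : ¬ Chain Γ (j + 1) W) {l : V}
    (hl : W l) (hcon : ∀ a, W a → Rch Γ W l a) (hmin : ∀ a, W a → cd (E l) ≤ cd (E a)) :
    c * cd (On E W l) ≤ 2 * (g + K + 1) * cd (E l) := by
  classical
  have hS' := hS (Non Γ W l) (fun a ha => hd a ha.1)
    (fun a ha => ⟨comp_mod hP hW ha, comp_chain hP hl (hcon a ha.1) ha hn⟩)
  -- out-neighbours of a close point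
  have out : ∀ u, W u → Pb E (k + 1) l u → ∀ y, E u y → (E l y ∨ F l y) ∨ Non Γ W l y := by
    intro u hu hp y hy
    have h1 : Pb E (k + 2) l y := hp.trans_bl (Bl.of_arc hy)
    have h2 : y ≠ l := fun e => hg l ((e ▸ h1 : Pb E (k + 2) l l).mono (by omega))
    by_cases h3 : Γ.Adj l y
    · rcases hA l y h3 with q | q | q
      · exact Or.inl (Or.inl q)
      · exact absurd ((h1.trans_bl (Bl.of_arc q)).mono (by omega)) (hg l)
      · exact Or.inl (Or.inr q)
    · by_cases h4 : W y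
      · exact Or.inr ⟨h4, h3, h2⟩
      · exact absurd (hW y u l h4 hu hl (hE _ _ hy).symm).symm h3
  have ex : ∀ q, On E W l q → ∃ u, W u ∧ Bl E (k + 1) q u ∧
      c * cd (On E (Non Γ W l) u) ≤ (g + K) * cd (E u) := by
    intro q hq
    by_cases h1 : c * cd (On E (Non Γ W l) q) ≤ K * cd (E q)
    · exact ⟨q, hq.2, Bl.rfl' _ _, h1.trans (Nat.mul_le_mul_right _ (by omega))⟩
    · by_contra hne
      have h2 := hS' q (fun h => h.2.1 (hE _ _ hq.1)) (fun b hb _ ⟨u, k1, k2, k3⟩ =>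
        hne ⟨u, k1.1, Or.inr ⟨b, hb, k2⟩, k3.trans (Nat.mul_le_mul_right _ (by omega))⟩)
      have h3 : cd (On F (Non Γ W l) q) ≤ cd (F q) := cd_mono fun _ h => h.1
      have h4 := hd q hq.2
      apply h1
      calc c * cd (On E (Non Γ W l) q) ≤ c * (K * cd (F q)) :=
            Nat.mul_le_mul_left _ (h2.trans (Nat.mul_le_mul_left _ h3))
        _ = K * (c * cd (F q)) := by ring
        _ ≤ K * cd (E q) := Nat.mul_le_mul_left _ h4.le
  choose! u hu1 hu2 hu3 using ex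
  by_cases h0 : 1 ≤ cd (On E W l)
  swap
  · have : cd (On E W l) = 0 := by omega
    rw [this]
    omega
  obtain ⟨q, hq, hh⟩ := exists_half (ρ := fun y z => On E W l y ∧ On E W l z ∧ E (u y) z) h0
    (fun y z h1 h2 => hg y (((hu2 y h1.1).trans_pb ⟨z, h1.2.2,
      (hu2 z h1.2.1).trans (Bl.of_arc h2.2.2)⟩).mono (by omega)))
  have a1 : cd (On E W l) ≤ cd (fun z => On E W l z ∧ On E W l q ∧ On E W l z ∧ E (u q) z) +
      cd (fun z => On E W l z ∧ ¬ E (u q) z) := cd_le_add fun z hz => by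
    by_cases e : E (u q) z
    · exact Or.inl ⟨hz, hq, hz, e⟩
    · exact Or.inr ⟨hz, e⟩
  have a2 : cd (fun z => E (u q) z ∧ (E l z ∨ F l z)) + cd (fun z => On E W l z ∧ ¬ E (u q) z) ≤
      cd (fun z => E l z ∨ F l z) :=
    cd_disj (fun _ h => h.2) (fun _ h => Or.inl h.1.1) fun _ h h' => h'.2 h.1
  have a3 : cd (fun z => E l z ∨ F l z) ≤ cd (E l) + cd (F l) := cd_le_add fun _ h => h
  have a4 : cd (E (u q)) ≤ cd (fun z => E (u q) z ∧ (E l z ∨ F l z)) +
      cd (On E (Non Γ W l) (u q)) := cd_le_add fun z hz =>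
    (out (u q) (hu1 q hq) ⟨q, hq.1, hu2 q hq⟩ z hz).imp (fun h => ⟨hz, h⟩) fun h => ⟨hz, h⟩
  have a5 := hu3 q hq
  have a6 := hmin _ (hu1 q hq)
  have a7 := hd l hl
  obtain ⟨m, rfl⟩ : ∃ m, c = g + K + m := ⟨c - (g + K), by omega⟩
  have b1 := Nat.mul_le_mul_left (g + K + m) a4
  have b2 := Nat.mul_le_mul_left m a6
  have b3 := Nat.mul_le_mul_left (g + K + m) (a2.trans a3)
  have b4 : cd (On E W l) ≤ 2 * cd (fun z => On E W l z ∧ ¬ E (u q) z) := by omega
  have b5 := Nat.mul_le_mul_left (g + K + m) b4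
  nlinarith

theorem st_zero : St Γ E F c 0 0 0 0 := by
  intro S _ h q _ _
  by_contra hne
  obtain ⟨a, ha⟩ := exists_of_cd (p := On E S q) (by omega)
  exact (h a ha.2).2 trivial

theorem st_succ (hP : NoP4 Γ) (hE : ∀ a b, E a b → Γ.Adj a b)
    (hA : ∀ a b, Γ.Adj a b → E a b ∨ E b a ∨ F a b) (hg : ∀ x, ¬ Pb E (2 * k + 4) x x)
    (hc : g + K ≤ c) (hS : St Γ E F c j k g K) :
    St Γ E F c (j + 1) (k + 2) (5 * g + 4 * K + 6) (2 * K + 1) := by
  classical
  intro S hd hM q hq hN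
  refine cd_fiber (fun a => Rch Γ S a) fun a ha => ?_
  set W := Rch Γ S a with hWdef
  have fib : ∀ y, S y → (Rch Γ S y = W ↔ W y) := fun y hy =>
    ⟨fun e => e ▸ Relation.ReflTransGen.refl, fun e => funext fun z => propext
      ⟨fun h => Rch.trans e h, fun h => Rch.trans (Rch.symm e) h⟩⟩
  have WS : ∀ y, W y → S y := fun y hy => Rch.mem hy ha.2
  have hW : Mod Γ W := (hM a ha.2).1
  have hn : ¬ Chain Γ (j + 1) W := (hM a ha.2).2
  have wa : W a := Relation.ReflTransGen.refl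
  suffices h : cd (On E W q) ≤ (2 * K + 1) * cd (On F W q) from
    (cd_mono fun y hy => ⟨hy.1.1, (fib y hy.1.2).1 hy.2⟩).trans (h.trans (Nat.mul_le_mul_left _
      (cd_mono fun y hy => ⟨⟨hy.1, WS y hy.2⟩, (fib y (WS y hy.2)).2 hy.2⟩)))
  have hN' : ∀ b, E q b → W b → ¬ Near E c (k + 2) (5 * g + 4 * K + 6) W b :=
    fun b hb wb ⟨u, k1, k2, k3⟩ => hN b hb (WS b wb) ⟨u, WS u k1, k2, le_trans
      (Nat.mul_le_mul_left _ (cd_mono fun y hy =>
        ⟨hy.1, Rch.step k1 ha.2 (hE _ _ hy.1) hy.2⟩)) k3⟩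
  obtain ⟨l, hl, hmin⟩ := exists_min_image (univ.filter W) (fun y => cd (E y))
    ⟨a, mem_filter.2 ⟨mem_univ _, wa⟩⟩
  have wl : W l := (mem_filter.1 hl).2
  have hmin' : ∀ y, W y → cd (E l) ≤ cd (E y) := fun y hy => hmin y (mem_filter.2 ⟨mem_univ _, hy⟩)
  have hcon : ∀ y, W y → Rch Γ W l y := fun y hy =>
    (Rch.self ha.2 wl).symm.trans (Rch.self ha.2 hy)
  have hdW : ∀ y, W y → c * cd (F y) < cd (E y) := fun y hy => hd y (WS y hy)
  have l1 := low hP hE hA hg hc hS hdW hW hn wl hcon hmin'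
  have l2 : c * cd (On E W l) ≤ (5 * g + 4 * K + 6) * cd (E l) :=
    l1.trans (Nat.mul_le_mul_right _ (by omega))
  have nq : ¬ W q := fun h => hq (WS q h)
  have z1 : cd (fun z => W z ∧ (E l z ∨ F l z)) ≤ cd (On E W l) + cd (F l) :=
    cd_le_add fun z hz => hz.2.imp (fun h => ⟨h, hz.1⟩) id
  have z2 : c * cd (fun z => W z ∧ (E l z ∨ F l z)) ≤ (2 * (g + K + 1) + 1) * cd (E l) := by
    have := Nat.mul_le_mul_left c z1
    have := hdW l wl
    nlinarith
  have s1 := hS (Non Γ W l) (fun y hy => hdW y hy.1)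
    (fun y hy => ⟨comp_mod hP hW hy, comp_chain hP wl (hcon y hy.1) hy hn⟩) q
    (fun h => nq h.1) (fun b hb nb ⟨u, k1, k2, k3⟩ => hN' b hb nb.1 (by
      by_cases e : ∃ x, E u x ∧ E x l
      · obtain ⟨x, e1, e2⟩ := e
        exact ⟨l, wl, (k2.trans (Bl.of_arc e1)).trans (Bl.of_arc e2), l2⟩
      · refine ⟨u, k1.1, k2.mono (by omega), ?_⟩
        have t1 : cd (On E W u) ≤ cd (On E (Non Γ W l) u) +
            cd (fun z => W z ∧ (E l z ∨ F l z)) := cd_le_add fun z hz => by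
          by_cases e1 : Γ.Adj l z
          · rcases hA l z e1 with r | r | r
            · exact Or.inr ⟨hz.2, Or.inl r⟩
            · exact absurd ⟨z, hz.1, r⟩ e
            · exact Or.inr ⟨hz.2, Or.inr r⟩
          · exact Or.inl ⟨hz.1, hz.2, e1, fun r => k1.2.1 (r ▸ (hE _ _ hz.1).symm)⟩
        have t2 := Nat.mul_le_mul_left c t1
        have t3 := Nat.mul_le_mul_left (2 * (g + K + 1) + 1) (hmin' u k1.1)
        nlinarith))
  have s2 : cd (On E W q) ≤ cd (fun z => W z ∧ (E l z ∨ F l z)) + cd (On E (Non Γ W l) q) :=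
    cd_le_add fun z hz => by
      by_cases e1 : Γ.Adj l z
      · rcases hA l z e1 with r | r | r
        · exact Or.inl ⟨hz.2, Or.inl r⟩
        · exact absurd ⟨l, wl, (Bl.of_arc r).mono (by omega), l2⟩ (hN' z hz.1 hz.2)
        · exact Or.inl ⟨hz.2, Or.inr r⟩
      · exact Or.inr ⟨hz.1, hz.2, e1, fun r =>
          hN' z hz.1 hz.2 ⟨l, wl, r ▸ Bl.rfl' _ _, l2⟩⟩
  have s3 : cd (On F (Non Γ W l) q) ≤ cd (On F W q) := cd_mono fun _ h => ⟨h.1, h.2.1⟩
  have s4 : cd (On E W a) ≤ cd (On E W q) + cd (On F W q) := cd_le_add fun z hz => by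
    rcases hA q z (hW q a z nq wa hz.2 (hE _ _ ha.1)) with r | r | r
    · exact Or.inl ⟨r, hz.2⟩
    · exact absurd (((Pb.of_arc ha.1 0).trans_bl ((Bl.of_arc hz.1).trans (Bl.of_arc r))).mono
        (by omega)) (hg q)
    · exact Or.inr ⟨r, hz.2⟩
  have s5 : (5 * g + 4 * K + 6) * cd (E a) < c * cd (On E W a) := by
    by_contra e
    exact hN' a ha.1 wa ⟨a, wa, Bl.rfl' _ _, by omega⟩
  have s6 := Nat.mul_le_mul_left (5 * g + 4 * K + 6) (hmin' a wa)
  have s7 := Nat.mul_le_mul_left c s4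
  have s8 : c * (2 * cd (fun z => W z ∧ (E l z ∨ F l z))) <
      c * (cd (On E W q) + cd (On F W q)) := by nlinarith
  have s9 := Nat.lt_of_mul_lt_mul_left s8
  have s10 := Nat.mul_le_mul_left K s3
  nlinarith

/-- constants for every length -/
theorem st_all (j : ℕ) : ∃ k g K : ℕ, ∀ {V : Type} [Fintype V] (Γ : SimpleGraph V)
    (E F : V → V → Prop) (c : ℕ), NoP4 Γ → (∀ a b, E a b → Γ.Adj a b) →
    (∀ a b, Γ.Adj a b → E a b ∨ E b a ∨ F a b) → (∀ x, ¬ Pb E (2 * k + 4) x x) → g + K ≤ c →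
    St Γ E F c j k g K := by
  induction j with
  | zero => exact ⟨0, 0, 0, fun _ _ _ _ _ _ _ _ _ => st_zero⟩
  | succ j ih =>
    obtain ⟨k, g, K, h⟩ := ih
    refine ⟨k + 2, 5 * g + 4 * K + 6, 2 * K + 1, fun Γ E F c h1 h2 h3 h4 h5 => ?_⟩
    have h6 : ∀ x, ¬ Pb E (2 * k + 4) x x := fun x e => h4 x (e.mono (by omega))
    exact st_succ h1 h2 h3 h6 (by omega) (h Γ E F c h1 h2 h3 h6 (by omega))

/-- the peeling vertex -/
theorem small (j : ℕ) : ∃ c L : ℕ, ∀ {V : Type} [Fintype V] (Γ : SimpleGraph V)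
    (E F : V → V → Prop) (U : V → Prop), NoP4 Γ → (∀ a b, E a b → Γ.Adj a b) →
    (∀ a b, Γ.Adj a b → E a b ∨ E b a ∨ F a b) → (∀ a b, Γ.Adj a b → U b) →
    (∀ x, ¬ Pb E L x x) → ¬ Chain Γ (j + 1) (fun _ => True) → ∀ a, U a →
    ∃ v, U v ∧ cd (E v) ≤ c * cd (F v) := by
  classical
  obtain ⟨k, g, K, h⟩ := st_all j
  refine ⟨2 * (g + K + 1) + 1, 2 * k + 4, fun {V} _ Γ E F U h1 h2 h3 hU h4 h5 a ha => ?_⟩
  by_contra hne
  push Not at hne
  have wa : Rch Γ U a a := Relation.ReflTransGen.refl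
  obtain ⟨l, hl, hmin⟩ := exists_min_image (univ.filter (Rch Γ U a)) (fun y => cd (E y))
    ⟨a, mem_filter.2 ⟨mem_univ _, wa⟩⟩
  have wl : Rch Γ U a l := (mem_filter.1 hl).2
  have l1 := low h1 h2 h3 h4 (by omega) (h Γ E F (2 * (g + K + 1) + 1) h1 h2 h3 h4 (by omega))
    (W := Rch Γ U a) (fun y hy => hne y (hy.mem ha))
    (fun y w _ hy hw _ e => absurd (hw.step ha e.symm (hU _ _ e.symm)) hy)
    (fun e => h5 (e.mono fun _ _ => trivial)) wl
    (fun y hy => (Rch.self ha wl).symm.trans (Rch.self ha hy))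
    (fun y hy => hmin y (mem_filter.2 ⟨mem_univ _, hy⟩))
  have l2 : cd (E l) ≤ cd (On E (Rch Γ U a) l) :=
    cd_mono fun y hy => ⟨hy, wl.step ha (h2 _ _ hy) (hU _ _ (h2 _ _ hy))⟩
  have l3 := hne l (wl.mem ha)
  have l4 := Nat.mul_le_mul_left (2 * (g + K + 1) + 1) l2
  nlinarith

end Pool.Agent.Lib.MP_906bc3_co.Dep
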