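import Pool.Agent.Lib.MP_906bc3_co.DepthMain

/-! The local form, and isolated vertices added to the path on four vertices. -/

set_option autoImplicit false

namespace Pool.Agent.Lib.MP_906bc3_co.Dep

open Finset SimpleGraph Pool.Agent.Lib.MP_906bc3_co.Iso

variable {V : Type} [Fintype V]

/-- all points within `n` steps have large out-degree -/
def Hv (E F : V → V → Prop) (c n : ℕ) (w : V) : Prop :=
  ∀ u, Bl E n w u → c * cd (F u) < cd (E u)

/-- the local statement -/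
def StL (Γ : SimpleGraph V) (E F : V → V → Prop) (c j k g ρ : ℕ) : Prop :=
  ∀ S : V → Prop, (∀ a, S a → Mod Γ (Rch Γ S a) ∧ ¬ Chain Γ j (Rch Γ S a)) →
    ∀ w, S w → Hv E F c ρ w → Near E c k g S w

variable {Γ : SimpleGraph V} {E F : V → V → Prop} {c j k g ρ : ℕ}

theorem stL_zero : StL Γ E F c 0 0 0 0 := fun _ h w hw _ => absurd trivial (h w hw).2

theorem stL_succ (hP : NoP4 Γ) (hE : ∀ a b, E a b → Γ.Adj a b)
    (hA : ∀ a b, Γ.Adj a b → E a b ∨ E b a ∨ F a b) (hg : ∀ x, ¬ Pb E (2 * k + 4) x x)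
    (hc : g ≤ c) (hS : StL Γ E F c j k g ρ) :
    StL Γ E F c (j + 1) (k + 3) (4 * (g + 1)) (ρ + 2 * k + 5) := by
  classical
  intro S hM w hw hH
  set W := Rch Γ S w with hWdef
  have WS : ∀ y, W y → S y := fun y hy => Rch.mem hy hw
  have hW : Mod Γ W := (hM w hw).1
  have hn : ¬ Chain Γ (j + 1) W := (hM w hw).2
  have ww : W w := Relation.ReflTransGen.refl
  have hcon : ∀ l y, W l → W y → Rch Γ W l y := fun l y hl hy =>
    (Rch.self hw hl).symm.trans (Rch.self hw hy)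
  have ex : ∀ l q, W l → W q → Bl E (k + 4) w q → ∃ t, W t ∧ Bl E (k + 1) q t ∧
      c * cd (On E (Non Γ W l) t) ≤ g * cd (E t) := by
    intro l q hl hq hb
    by_cases h1 : 1 ≤ cd (On E (Non Γ W l) q)
    · obtain ⟨b, hb1, hb2⟩ := exists_of_cd h1
      obtain ⟨t, k1, k2, k3⟩ := hS (Non Γ W l)
        (fun a ha => ⟨comp_mod hP hW ha, comp_chain hP hl (hcon l a hl ha.1) ha hn⟩) b hb2
        (fun u hu => hH u (((hb.trans (Bl.of_arc hb1)).trans hu).mono (by omega)))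
      exact ⟨t, k1.1, Or.inr ⟨b, hb1, k2⟩, k3⟩
    · refine ⟨q, hq, Bl.rfl' _ _, ?_⟩
      have : cd (On E (Non Γ W l) q) = 0 := by omega
      rw [this]
      omega
  have out : ∀ l t, W l → W t → (∀ y, E t y → y ≠ l ∧ ¬ E y l) →
      cd (E t) ≤ cd (fun z => E t z ∧ (E l z ∨ F l z)) + cd (On E (Non Γ W l) t) := by
    intro l t hl ht h
    refine cd_le_add fun y hy => ?_
    by_cases h3 : Γ.Adj l y
    · rcases hA l y h3 with q | q | q
      · exact Or.inl ⟨hy, Or.inl q⟩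
      · exact absurd q (h y hy).2
      · exact Or.inl ⟨hy, Or.inr q⟩
    · by_cases h4 : W y
      · exact Or.inr ⟨hy, h4, h3, (h y hy).1⟩
      · exact absurd (hW y t l h4 ht hl (hE _ _ hy).symm).symm h3
  obtain ⟨v, hv, hmin⟩ := exists_min_image (univ.filter fun y => W y ∧ Bl E (k + 3) w y)
    (fun y => cd (E y)) ⟨w, mem_filter.2 ⟨mem_univ _, ww, Bl.rfl' _ _⟩⟩
  obtain ⟨wv, bv⟩ := (mem_filter.1 hv).2
  have hmin' : ∀ y, W y → Bl E (k + 3) w y → cd (E v) ≤ cd (E y) :=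
    fun y h1 h2 => hmin y (mem_filter.2 ⟨mem_univ _, h1, h2⟩)
  obtain ⟨m, rfl⟩ : ∃ m, c = g + m := ⟨c - g, by omega⟩
  have hB : ∀ u, W u → Bl E (2 * k + 5) w u →
      (g + m) * cd (E v) ≤ (g + m) * cd (E u) + (g + 1) * cd (E v) := by
    intro u wu bu
    by_contra hlt
    have far : ¬ Bl E (k + 3) w u := fun h => by
      have := Nat.mul_le_mul_left (g + m) (hmin' u wu h)
      omega
    obtain ⟨t, t1, t2, t3⟩ := ex u w wu ww (Bl.rfl' _ _)
    have a1 := out u t wu t1 fun y hy =>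
      ⟨fun e => far (e ▸ (t2.trans (Bl.of_arc hy)).mono (by omega)),
        fun e => far ((t2.trans (Bl.of_arc hy)).trans (Bl.of_arc e))⟩
    have a2 : cd (fun z => E t z ∧ (E u z ∨ F u z)) ≤ cd (E u) + cd (F u) :=
      cd_le_add fun _ h => h.2
    have a3 := hH u (bu.mono (by omega))
    have a4 := Nat.mul_le_mul_left m (hmin' t t1 (t2.mono (by omega)))
    have a5 := Nat.mul_le_mul_left (g + m) (a1.trans (Nat.add_le_add_right a2 _))
    have a6 : cd (E u) ≤ cd (E v) := by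
      by_contra e
      have := Nat.mul_le_mul_left (g + m) (show cd (E v) ≤ cd (E u) by omega)
      omega
    nlinarith
  suffices h : (g + m) * cd (On E W v) ≤ 4 * (g + 1) * cd (E v) from
    ⟨v, WS v wv, bv, le_trans (Nat.mul_le_mul_left _ (cd_mono fun y hy =>
      ⟨hy.1, Rch.step wv hw (hE _ _ hy.1) hy.2⟩)) h⟩
  have ex' : ∀ q, On E W v q → ∃ t, W t ∧ Bl E (k + 1) q t ∧
      (g + m) * cd (On E (Non Γ W v) t) ≤ g * cd (E t) :=
    fun q hq => ex v q wv hq.2 (bv.trans (Bl.of_arc hq.1))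
  choose! u hu1 hu2 hu3 using ex'
  by_cases h0 : 1 ≤ cd (On E W v)
  swap
  · have : cd (On E W v) = 0 := by omega
    rw [this]
    omega
  obtain ⟨q, hq, hh⟩ := exists_half (ρ := fun y z => On E W v y ∧ On E W v z ∧ E (u y) z) h0
    (fun y z h1 h2 => hg y (((hu2 y h1.1).trans_pb ⟨z, h1.2.2,
      (hu2 z h1.2.1).trans (Bl.of_arc h2.2.2)⟩).mono (by omega)))
  have a1 : cd (On E W v) ≤ cd (fun z => On E W v z ∧ On E W v q ∧ On E W v z ∧ E (u q) z) +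
      cd (fun z => On E W v z ∧ ¬ E (u q) z) := cd_le_add fun z hz => by
    by_cases e : E (u q) z
    · exact Or.inl ⟨hz, hq, hz, e⟩
    · exact Or.inr ⟨hz, e⟩
  have a2 : cd (fun z => E (u q) z ∧ (E v z ∨ F v z)) + cd (fun z => On E W v z ∧ ¬ E (u q) z) ≤
      cd (fun z => E v z ∨ F v z) :=
    cd_disj (fun _ h => h.2) (fun _ h => Or.inl h.1.1) fun _ h h' => h'.2 h.1
  have a3 : cd (fun z => E v z ∨ F v z) ≤ cd (E v) + cd (F v) := cd_le_add fun _ h => h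
  have p0 : Pb E (k + 1) v (u q) := ⟨q, hq.1, hu2 q hq⟩
  have a4 := out v (u q) wv (hu1 q hq) fun y hy =>
    ⟨fun e => hg v ((e ▸ p0.trans_bl (Bl.of_arc hy) : Pb E (k + 1 + 1) v v).mono (by omega)),
      fun e => hg v (((p0.trans_bl (Bl.of_arc hy)).trans_bl (Bl.of_arc e)).mono (by omega))⟩
  have a5 := hu3 q hq
  have a6 := hB _ (hu1 q hq) (((bv.trans (Bl.of_arc hq.1)).trans (hu2 q hq)).mono (by omega))
  have a7 := hH v (bv.mono (by omega))
  have b1 := Nat.mul_le_mul_left (g + m) a4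
  have b3 := Nat.mul_le_mul_left (g + m) (a2.trans a3)
  have b4 : cd (On E W v) ≤ 2 * cd (fun z => On E W v z ∧ ¬ E (u q) z) := by omega
  have b5 := Nat.mul_le_mul_left (g + m) b4
  rcases le_total (cd (E v)) (cd (E (u q))) with e | e
  · have b2 := Nat.mul_le_mul_left m e
    nlinarith
  · have b2 := Nat.mul_le_mul_left g e
    nlinarith

theorem stL_all (j : ℕ) : ∃ k g ρ : ℕ, k ≤ ρ ∧ ∀ {V : Type} [Fintype V] (Γ : SimpleGraph V)
    (E F : V → V → Prop) (c : ℕ), NoP4 Γ → (∀ a b, E a b → Γ.Adj a b) →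
    (∀ a b, Γ.Adj a b → E a b ∨ E b a ∨ F a b) → (∀ x, ¬ Pb E (2 * k + 4) x x) → g ≤ c →
    StL Γ E F c j k g ρ := by
  induction j with
  | zero => exact ⟨0, 0, 0, le_rfl, fun _ _ _ _ _ _ _ _ _ => stL_zero⟩
  | succ j ih =>
    obtain ⟨k, g, ρ, h0, h⟩ := ih
    refine ⟨k + 3, 4 * (g + 1), ρ + 2 * k + 5, by omega, fun Γ E F c h1 h2 h3 h4 h5 => ?_⟩
    have h6 : ∀ x, ¬ Pb E (2 * k + 4) x x := fun x e => h4 x (e.mono (by omega))
    exact stL_succ h1 h2 h3 h6 (by omega) (h Γ E F c h1 h2 h3 h6 (by omega))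

omit [Fintype V] in
theorem has_path4 {Γ : SimpleGraph V} {B : V → Prop} {a b c d : V} (ha : B a) (hb : B b) (hc : B c)
    (hd : B d) (h1 : Γ.Adj a b) (h2 : Γ.Adj b c) (h3 : Γ.Adj c d) (h4 : a ≠ c) (h5 : b ≠ d)
    (k1 : ¬ Γ.Adj a c) (k2 : ¬ Γ.Adj b d) (k3 : ¬ Γ.Adj a d) : Has (pathGraph 4) Γ 0 B := by
  have h1' := h1.symm
  have h2' := h2.symm
  have h3' := h3.symm
  have k1' : ¬ Γ.Adj c a := fun h => k1 h.symm
  have k2' : ¬ Γ.Adj d b := fun h => k2 h.symm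
  have k3' : ¬ Γ.Adj d a := fun h => k3 h.symm
  have e1 := h1.ne
  have e2 := h2.ne
  have e3 := h3.ne
  have e4 : a ≠ d := fun e => k1 (e ▸ h3')
  let f : Fin 4 ⊕ Fin 0 → V := Sum.elim ![a, b, c, d] Fin.elim0
  refine ⟨⟨⟨f, ?_⟩, ?_⟩, ?_⟩
  · rintro (x | i) (y | j) e
    · fin_cases x <;> fin_cases y <;> simp_all [f]
    · exact j.elim0
    · exact i.elim0
    · exact i.elim0
  · rintro (x | i) (y | j)
    · change Γ.Adj (![a, b, c, d] x) (![a, b, c, d] y) ↔ _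
      fin_cases x <;> fin_cases y <;>
        simp [pathGraph_adj, h1, h2, h3, h1', h2', h3', k1, k2, k3, k1', k2', k3']
    · exact j.elim0
    · exact i.elim0
    · exact i.elim0
  · rintro (x | i)
    · fin_cases x
      · exact ha
      · exact hb
      · exact hc
      · exact hd
    · exact i.elim0

theorem base4 (j : ℕ) : ∃ c R : ℕ, ∀ {V : Type} [Fintype V] (Γ : SimpleGraph V)
    (E F : V → V → Prop), (∀ a b, E a b → Γ.Adj a b) → (∀ x, ¬ Pb E R x x) →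
    ¬ Chain Γ j (fun _ => True) → Q Γ E F (Has (pathGraph 4) Γ 0) c R := by
  obtain ⟨k, g, ρ, h0, h⟩ := stL_all j
  refine ⟨g + 1, ρ + 2 * k + 4, fun {V} _ Γ E F hE hg hn W x hx hA hd => ?_⟩
  by_contra hne
  set B := Bl (On E W) (ρ + 2 * k + 4) x with hB
  have BW : ∀ y, B y → W y := fun y hy => Bl.keep (W := W) (fun _ _ h => h.2) hy hx
  let Γ' : SimpleGraph V :=
    { Adj := fun a b => Γ.Adj a b ∧ B a ∧ B b
      symm := ⟨fun _ _ h => ⟨h.1.symm, h.2.2, h.2.1⟩⟩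
      loopless := ⟨fun _ h => h.1.ne rfl⟩ }
  have hH : Hv (fun a b => On E W a b ∧ B a ∧ B b) F (g + 1) ρ x := fun u hu => by
    have hu' : Bl (On E W) ρ x u := hu.lift fun _ _ e => e.1
    exact (hd u (hu'.mono (by omega))).trans_le (cd_mono fun y hy =>
      ⟨hy, hu'.mono (by omega), (hu'.trans (Bl.of_arc hy)).mono (by omega)⟩)
  obtain ⟨u, -, u2, u3⟩ := h Γ' (fun a b => On E W a b ∧ B a ∧ B b) F (g + 1)
    (fun p q r s e1 e2 e3 e4 e5 => by
      by_contra e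
      push Not at e
      exact hne (has_path4 e1.2.1 e1.2.2 e3.2.1 e3.2.2 e1.1 e2.1 e3.1 e4 e5
        (fun z => e.1 ⟨z, e1.2.1, e3.2.1⟩) (fun z => e.2.1 ⟨z, e1.2.2, e3.2.2⟩)
        (fun z => e.2.2 ⟨z, e1.2.1, e3.2.2⟩)))
    (fun a b e => ⟨hE _ _ e.1.1, e.2⟩)
    (fun a b e => (hA a b (BW a e.2.1) (BW b e.2.2) e.1).imp (fun z => ⟨⟨z, BW b e.2.2⟩, e.2⟩)
      (Or.imp (fun z => ⟨⟨z, BW a e.2.1⟩, e.2.2, e.2.1⟩) id))
    (fun y e => hg y ((e.lift fun _ _ z => z.1.1).mono (by omega))) (by omega) (fun _ => True)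
    (fun a _ => ⟨fun y w _ hy hw _ e => absurd (hw.step trivial e.symm trivial) hy,
      fun e => hn (Chain.lift (Γ := Γ) (Γ' := Γ') (U := B) (fun _ _ => Iff.rfl)
        (fun _ _ _ => trivial) e)⟩) x trivial hH
  have u4 := hH u (u2.mono h0)
  have u5 : cd (fun b => On E W u b ∧ B u ∧ B b) ≤
      cd (On (fun a b => On E W a b ∧ B a ∧ B b) (fun _ => True) u) :=
    cd_mono fun y hy => ⟨hy, trivial⟩
  have u6 := Nat.mul_le_mul_left (g + 1) u5
  nlinarith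

theorem main4 (s j : ℕ) : ∃ c : ℕ, ∀ {V : Type} [Fintype V] [DecidableEq V] (D : V → V → Prop),
    IsEmpty ((pathGraph 4 ⊕g (⊥ : SimpleGraph (Fin s))) ↪g fromRel D) →
    IsEmpty ((fromRel fun a b : Fin j × Bool => a.2 = true ∧ a.1 ≤ b.1) ↪g fromRel D) →
    ∃ F : Finset (V × V),
      (∀ v : V, ¬ Relation.TransGen (fun x y => D x y ∧ (x, y) ∉ F) v v) ∧
      ∃ k : ℕ, ∃ C : Fin k → Finset (V × V),
        (∀ i j : Fin k, i ≠ j → Disjoint (C i) (C j)) ∧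
        (∀ i : Fin k, ∃ v : V, Relation.TransGen (fun x y => D x y ∧ (x, y) ∈ C i) v v) ∧
        F.card ≤ c * k := by
  obtain ⟨c, R, hb⟩ := base4 (j + 1)
  have p1 : 1 ≤ 4 ^ s := Nat.one_le_pow _ _ (by omega)
  have p2 : 1 ≤ 2 ^ s := Nat.one_le_pow _ _ (by omega)
  have q1 : (c + 2) * 1 ≤ (c + 2) * 4 ^ s := Nat.mul_le_mul_left _ p1
  have q2 : (R + 1 + 4) * 1 ≤ (R + 1 + 4) * 2 ^ s := Nat.mul_le_mul_left _ p2
  obtain ⟨c', hc⟩ : ∃ c', c' + 2 = (c + 2) * 4 ^ s := ⟨(c + 2) * 4 ^ s - 2, by omega⟩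
  obtain ⟨L, hL⟩ : ∃ L, L + 1 + 4 = (R + 1 + 4) * 2 ^ s := ⟨(R + 1 + 4) * 2 ^ s - 5, by omega⟩
  refine ⟨(c' + 1) * (L + 1), fun {V} _ _ D hP hT => ?_⟩
  have hn : ¬ Chain (fromRel D) (j + 1) (fun _ => True) := fun e => by
    have : Nonempty V := ⟨e.choose⟩
    exact hT.false (emb_of_chain e.pred).some
  obtain ⟨F, f1, k, C, f2, f3, f4⟩ := linear (pathGraph 4) D s c' L (fun E F hE hg =>
    iter (c := c) (R := R + 1) (fun W x hx hA hd => by
      obtain ⟨φ, hφ⟩ := hb (fromRel D) E F (fun a b h => (fromRel_adj _ _ _).2 ⟨by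
          rintro rfl
          exact hg a (Pb.of_arc h _), Or.inl (hE _ _ h)⟩)
        (fun x h => hg x (h.mono (by omega))) hn W x hx hA (fun u hu => hd u hu.succ)
      exact ⟨φ, fun i => (hφ i).succ⟩) s c' (L + 1) hc hL hg) hP
  exact ⟨F, f1, k, C, f2, fun i => (f3 i).2, f4⟩

end Pool.Agent.Lib.MP_906bc3_co.Dep
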