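import Pool.Agent.Lib.MP_906bc3_co.Depth

/-! From forbidden induced subgraphs to the linear bound on cographs of bounded depth. -/

set_option autoImplicit false

namespace Pool.Agent.Lib.MP_906bc3_co.Dep

open Finset SimpleGraph Pool.Agent.Lib.MP_906bc3_co.Iso

variable {V : Type}

theorem noP4_of {Γ : SimpleGraph V} (h : IsEmpty (pathGraph 4 ↪g Γ)) : NoP4 Γ := by
  intro a b c d h1 h2 h3 h4 h5
  by_contra hn
  push Not at hn
  obtain ⟨k1, k2, k3⟩ := hn
  have h1' := h1.symm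
  have h2' := h2.symm
  have h3' := h3.symm
  have k1' : ¬ Γ.Adj c a := fun h => k1 h.symm
  have k2' : ¬ Γ.Adj d b := fun h => k2 h.symm
  have k3' : ¬ Γ.Adj d a := fun h => k3 h.symm
  have e1 := h1.ne
  have e2 := h2.ne
  have e3 := h3.ne
  have e4 : a ≠ d := fun e => k1 (e ▸ h3')
  refine h.false ⟨⟨![a, b, c, d], ?_⟩, ?_⟩
  · intro i j e
    fin_cases i <;> fin_cases j <;> simp_all
  · intro i j
    change Γ.Adj (![a, b, c, d] i) (![a, b, c, d] j) ↔ _
    fin_cases i <;> fin_cases j <;>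
      simp [pathGraph_adj, h1, h2, h3, h1', h2', h3', k1, k2, k3, k1', k2', k3']

theorem seq_of_chain {Γ : SimpleGraph V} [Nonempty V] : ∀ {j : ℕ} {W : V → Prop}, Chain Γ j W →
    ∃ x l : ℕ → V, (∀ i, i < j → W (x i) ∧ W (l i) ∧ Γ.Adj (x i) (l i)) ∧
      ∀ i m, i < m → m < j → (Γ.Adj (x i) (x m) ∧ ¬ Γ.Adj (l i) (x m) ∧ x m ≠ l i) ∧
        (Γ.Adj (x i) (l m) ∧ ¬ Γ.Adj (l i) (l m) ∧ l m ≠ l i)
  | 0, _, _ => ⟨fun _ => Classical.arbitrary V, fun _ => Classical.arbitrary V,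
      fun _ h => absurd h (by omega), fun _ _ _ h => absurd h (by omega)⟩
  | j + 1, W, ⟨x0, l0, h1, h2, h3, h4⟩ => by
    obtain ⟨x, l, k1, k2⟩ := seq_of_chain h4
    refine ⟨fun n => Nat.casesOn n x0 x, fun n => Nat.casesOn n l0 l, fun i hi => ?_,
      fun i m him hm => ?_⟩
    · cases i with
      | zero => exact ⟨h1, h2, h3⟩
      | succ i =>
        obtain ⟨a, b, c⟩ := k1 i (by omega)
        exact ⟨a.1, b.1, c⟩
    · cases m with
      | zero => omega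
      | succ m =>
        cases i with
        | zero =>
          obtain ⟨a, b, -⟩ := k1 m (by omega)
          exact ⟨a.2, b.2⟩
        | succ i => exact k2 i m (by omega) (by omega)

theorem emb_of_chain {Γ : SimpleGraph V} [Nonempty V] {j : ℕ} {W : V → Prop} (h : Chain Γ j W) :
    Nonempty ((fromRel fun a b : Fin j × Bool => a.2 = true ∧ a.1 ≤ b.1) ↪g Γ) := by
  obtain ⟨x, l, k1, k2⟩ := seq_of_chain h
  let f : Fin j × Bool → V := fun a => if a.2 = true then x a.1 else l a.1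
  have key : ∀ a b : Fin j × Bool, a.1 ≤ b.1 → a ≠ b → f a ≠ f b ∧
      (Γ.Adj (f a) (f b) ↔ (a.2 = true ∧ a.1 ≤ b.1) ∨ (b.2 = true ∧ b.1 ≤ a.1)) := by
    rintro ⟨i, s⟩ ⟨m, t⟩ hle hne
    rcases eq_or_lt_of_le hle with e | e
    · obtain rfl : i = m := e
      have q := (k1 i i.2).2.2
      cases s <;> cases t
      · exact absurd rfl hne
      · exact ⟨q.ne.symm, by simpa [f] using q.symm⟩
      · exact ⟨q.ne, by simpa [f] using q⟩
      · exact absurd rfl hne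
    · obtain ⟨⟨a1, a2, a3⟩, b1, b2, b3⟩ := k2 i m e m.2
      have e' : ¬ m ≤ i := not_le.2 e
      have e'' : i ≤ m := hle
      cases s <;> cases t
      · exact ⟨b3.symm, by simpa [f] using b2⟩
      · exact ⟨a3.symm, by simpa [f, e'] using a2⟩
      · exact ⟨b1.ne, by simpa [f, e''] using b1⟩
      · exact ⟨a1.ne, by simpa [f, e''] using a1⟩
  refine ⟨⟨⟨f, fun a b e => ?_⟩, fun {a b} => ?_⟩⟩
  · by_contra hne
    rcases le_total a.1 b.1 with q | q
    · exact (key a b q hne).1 e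
    · exact (key b a q (Ne.symm hne)).1 e.symm
  · change Γ.Adj (f a) (f b) ↔ _
    rw [fromRel_adj]
    by_cases hne : a = b
    · subst hne
      simp
    · rcases le_total a.1 b.1 with q | q
      · rw [(key a b q hne).2]
        simp [hne]
      · rw [Γ.adj_comm, (key b a q (Ne.symm hne)).2, or_comm]
        simp [hne]

theorem Chain.lift {Γ Γ' : SimpleGraph V} {U : V → Prop}
    (h : ∀ a b, Γ'.Adj a b ↔ Γ.Adj a b ∧ U a ∧ U b) : ∀ {j : ℕ} {W W' : V → Prop},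
    (∀ y, W y → U y → W' y) → Chain Γ' j W → Chain Γ j W'
  | 0, _, _, _, _ => trivial
  | _ + 1, _, _, hW, ⟨x, l, h1, h2, h3, h4⟩ =>
    have k := (h _ _).1 h3
    ⟨x, l, hW _ h1 k.2.1, hW _ h2 k.2.2, k.1, Chain.lift h (fun y hy uy =>
      ⟨hW _ hy.1 uy, ((h _ _).1 hy.2.1).1, fun e => hy.2.2.1 ((h _ _).2 ⟨e, k.2.2, uy⟩),
        hy.2.2.2⟩) h4⟩

theorem Chain.pred {Γ : SimpleGraph V} : ∀ {j : ℕ} {W : V → Prop}, Chain Γ (j + 1) W → Chain Γ j W
  | 0, _, _ => trivial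
  | _ + 1, _, ⟨x, l, h1, h2, h3, h4⟩ => ⟨x, l, h1, h2, h3, Chain.pred h4⟩

theorem main (j : ℕ) : ∃ c : ℕ, ∀ {V : Type} [Fintype V] [DecidableEq V] (D : V → V → Prop),
    IsEmpty (pathGraph 4 ↪g fromRel D) →
    IsEmpty ((fromRel fun a b : Fin j × Bool => a.2 = true ∧ a.1 ≤ b.1) ↪g fromRel D) →
    ∃ F : Finset (V × V),
      (∀ v : V, ¬ Relation.TransGen (fun x y => D x y ∧ (x, y) ∉ F) v v) ∧
      ∃ k : ℕ, ∃ C : Fin k → Finset (V × V),
        (∀ i j : Fin k, i ≠ j → Disjoint (C i) (C j)) ∧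
        (∀ i : Fin k, ∃ v : V, Relation.TransGen (fun x y => D x y ∧ (x, y) ∈ C i) v v) ∧
        F.card ≤ c * k := by
  obtain ⟨c, L, hs⟩ := small j
  refine ⟨(c + 1) * (L + 1), fun {V} _ _ D hP hT => ?_⟩
  obtain ⟨S, h1, h2, h3⟩ := packing D L
  set R := S.biUnion id with hR
  have hc : R.card ≤ S.card * (L + 1) :=
    card_biUnion_le_card_mul S id _ fun c hc => (h2 c hc).1
  have hP' := noP4_of hP
  obtain ⟨X, rk, k1, k2⟩ := peel (G := fun x y => D x y ∧ (x, y) ∉ R) R c (fun U hU => by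
    obtain ⟨a, ha⟩ := hU
    have : Nonempty V := ⟨a⟩
    let Γ' : SimpleGraph V :=
      { Adj := fun x y => (fromRel D).Adj x y ∧ x ∈ U ∧ y ∈ U
        symm := ⟨fun _ _ h => ⟨h.1.symm, h.2.2, h.2.1⟩⟩
        loopless := ⟨fun _ h => h.1.ne rfl⟩ }
    obtain ⟨v, hv, hd⟩ := hs Γ' (fun x y => (D x y ∧ (x, y) ∉ R) ∧ x ∈ U ∧ y ∈ U)
      (fun x y => y ∈ U ∧ ((x, y) ∈ R ∨ (y, x) ∈ R)) (fun y => y ∈ U)
      (fun p q r s e1 e2 e3 e4 e5 => (hP' p q r s e1.1 e2.1 e3.1 e4 e5).imp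
        (fun e => ⟨e, e1.2.1, e3.2.1⟩) (Or.imp (fun e => ⟨e, e1.2.2, e3.2.2⟩)
          fun e => ⟨e, e1.2.1, e3.2.2⟩))
      (fun p q e => ⟨(fromRel_adj _ _ _).2 ⟨by
        rintro rfl
        exact h3 p ⟨p, e.1, Bl.rfl' _ _⟩, Or.inl e.1.1⟩, e.2⟩)
      (fun p q e => by
        by_cases r : (p, q) ∈ R ∨ (q, p) ∈ R
        · exact Or.inr (Or.inr ⟨e.2.2, r⟩)
        · rw [not_or] at r
          rcases ((fromRel_adj _ _ _).1 e.1).2 with k | k
          · exact Or.inl ⟨⟨k, r.1⟩, e.2⟩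
          · exact Or.inr (Or.inl ⟨⟨k, r.2⟩, e.2.2, e.2.1⟩))
      (fun _ _ e => e.2.2) (fun x e => h3 x (e.lift fun _ _ e => e.1))
      (fun e => hT.false (emb_of_chain (Chain.pred (Chain.lift (Γ := fromRel D) (Γ' := Γ')
        (U := fun y => y ∈ U) (W' := fun _ => True) (fun _ _ => Iff.rfl)
        (fun _ _ _ => trivial) e))).some) a ha
    exact ⟨v, hv, (cd_mono fun y hy => ⟨hy.1, hv, hy.2⟩).trans hd⟩) univ
  refine ⟨R ∪ X, fun v hv => ?_, S.card, fun i => (S.equivFin.symm i).1, fun i j hij =>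
    h1 _ (S.equivFin.symm i).2 _ (S.equivFin.symm j).2
      fun e => hij (S.equivFin.symm.injective (Subtype.ext e)),
    fun i => (h2 _ (S.equivFin.symm i).2).2, ?_⟩
  · have key : ∀ x y, Relation.TransGen (fun x y => D x y ∧ (x, y) ∉ R ∪ X) x y →
        rk y < rk x := fun x y h => by
      have st : ∀ x y, D x y ∧ (x, y) ∉ R ∪ X → rk y < rk x := fun x y h =>
        k2 x (mem_univ _) y (mem_univ _) ⟨h.1, fun e => h.2 (mem_union_left _ e)⟩
          fun e => h.2 (mem_union_right _ e)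
      induction h with
      | single h => exact st _ _ h
      | tail _ h ih => exact (st _ _ h).trans ih
    exact lt_irrefl _ (key v v hv)
  · have k3 := k1.trans (Nat.mul_le_mul_left c (card_filter_le _ _))
    have k4 := card_union_le R X
    have k5 := Nat.mul_le_mul_left (c + 1) hc
    calc (R ∪ X).card ≤ (c + 1) * R.card := by rw [add_mul]; omega
      _ ≤ (c + 1) * (S.card * (L + 1)) := k5
      _ = _ := by ring

end Pool.Agent.Lib.MP_906bc3_co.Dep
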