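import Pool.Agent.Lib.MP_906bc3_co.IsoStep

/-! The induced path on three vertices plus isolated vertices, peeling and packing. -/

set_option autoImplicit false

namespace Pool.Agent.Lib.MP_906bc3_co.Iso

open Finset SimpleGraph

variable {V : Type}

/-- `H` plus `s` isolated vertices is an induced subgraph of `Γ` inside `B` -/
def Has {α : Type} (H : SimpleGraph α) (Γ : SimpleGraph V) (s : ℕ) (B : V → Prop) : Prop :=
  ∃ φ : (H ⊕g (⊥ : SimpleGraph (Fin s))) ↪g Γ, ∀ i, B (φ i)

theorem Has.succ {α : Type} {H : SimpleGraph α} {Γ : SimpleGraph V} {s : ℕ} {B B' : V → Prop}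
    {u : V} (h : Has H Γ s B') (hu : B u) (ht : ∀ t, B' t → B t ∧ t ≠ u ∧ ¬ Γ.Adj u t) :
    Has H Γ (s + 1) B := by
  obtain ⟨φ, hφ⟩ := h
  have n1 : ∀ i, φ i ≠ u := fun i => (ht _ (hφ i)).2.1
  have n2 : ∀ i, ¬ Γ.Adj u (φ i) := fun i => (ht _ (hφ i)).2.2
  have n3 : ∀ i, ¬ Γ.Adj (φ i) u := fun i h => n2 i h.symm
  let f : α ⊕ Fin (s + 1) → V :=
    Sum.elim (fun a => φ (Sum.inl a)) (Fin.cons u fun j => φ (Sum.inr j))
  have hinj : Function.Injective f := by
    rintro (a | i) (b | j) e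
    · exact congrArg Sum.inl (Sum.inl.inj (φ.injective e))
    · induction j using Fin.cases with
      | zero => exact absurd e (n1 _)
      | succ j => exact absurd (φ.injective e) (by simp)
    · induction i using Fin.cases with
      | zero => exact absurd e.symm (n1 _)
      | succ i => exact absurd (φ.injective e) (by simp)
    · induction i using Fin.cases with
      | zero =>
        induction j using Fin.cases with
        | zero => rfl
        | succ j => exact absurd e.symm (n1 _)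
      | succ i =>
        induction j using Fin.cases with
        | zero => exact absurd e (n1 _)
        | succ j =>
          have e' : φ (Sum.inr i) = φ (Sum.inr j) := e
          rw [Sum.inr.inj (φ.injective e')]
  refine ⟨⟨⟨f, hinj⟩, ?_⟩, ?_⟩
  · rintro (a | i) (b | j)
    · exact (φ.map_rel_iff (a := Sum.inl a) (b := Sum.inl b)).trans (by simp)
    · induction j using Fin.cases with
      | zero => exact iff_of_false (n3 _) (by simp)
      | succ j => exact (φ.map_rel_iff (a := Sum.inl a) (b := Sum.inr j)).trans (by simp)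
    · induction i using Fin.cases with
      | zero => exact iff_of_false (n2 _) (by simp)
      | succ i => exact (φ.map_rel_iff (a := Sum.inr i) (b := Sum.inl b)).trans (by simp)
    · induction i using Fin.cases with
      | zero =>
        induction j using Fin.cases with
        | zero => exact iff_of_false (Γ.irrefl) (by simp)
        | succ j => exact iff_of_false (n2 _) (by simp)
      | succ i =>
        induction j using Fin.cases with
        | zero => exact iff_of_false (n3 _) (by simp)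
        | succ j => exact (φ.map_rel_iff (a := Sum.inr i) (b := Sum.inr j)).trans (by simp)
  · rintro (a | i)
    · exact (ht _ (hφ (Sum.inl a))).1
    · induction i using Fin.cases with
      | zero => exact hu
      | succ i => exact (ht _ (hφ (Sum.inr i))).1

theorem has_path3 {Γ : SimpleGraph V} {B : V → Prop} {p q r : V} (hp : B p) (hq : B q) (hr : B r)
    (h1 : Γ.Adj p q) (h2 : Γ.Adj q r) (h3 : p ≠ r) (h4 : ¬ Γ.Adj p r) :
    Has (pathGraph 3) Γ 0 B := by
  have h1' := h1.symm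
  have h2' := h2.symm
  have h4' : ¬ Γ.Adj r p := fun h => h4 h.symm
  have e1 := h1.ne
  have e2 := h2.ne
  let f : Fin 3 ⊕ Fin 0 → V := Sum.elim ![p, q, r] Fin.elim0
  refine ⟨⟨⟨f, ?_⟩, ?_⟩, ?_⟩
  · rintro (a | i) (b | j) e
    · fin_cases a <;> fin_cases b <;> simp_all [f]
    · exact j.elim0
    · exact i.elim0
    · exact i.elim0
  · rintro (a | i) (b | j)
    · change Γ.Adj (![p, q, r] a) (![p, q, r] b) ↔ _
      fin_cases a <;> fin_cases b <;> simp [pathGraph_adj, h1, h2, h4, h1', h2', h4']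
    · exact j.elim0
    · exact i.elim0
    · exact i.elim0
  · rintro (a | i)
    · fin_cases a
      · exact hp
      · exact hq
      · exact hr
    · exact i.elim0

variable [Fintype V]

theorem base3 {Γ : SimpleGraph V} {E F : V → V → Prop} (hE : ∀ a b, E a b → Γ.Adj a b)
    (hg : ∀ x, ¬ Pb E 3 x x) : Q Γ E F (Has (pathGraph 3) Γ 0) 6 4 := by
  have h0 : Q Γ E F (fun B => ∃ t, B t) 0 0 := fun W x _ _ _ => ⟨x, rfl⟩
  intro W x hx hA hd
  obtain ⟨B', u, ⟨t, ht⟩, hu, hB⟩ := step (R := 0) hg h0 W x hx hA hd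
  obtain ⟨k1, k2, k3⟩ := hB t ht
  by_contra hn
  have key : ∀ (k j : ℕ) (z y : V), Bl (On E W) k z y → Bl (On E W) j x z → j + k ≤ 4 →
      z = y ∨ Γ.Adj z y := by
    intro k
    induction k with
    | zero => exact fun j z y h _ _ => Or.inl h
    | succ k ih =>
      intro j z y h hz hjk
      rcases h with h | ⟨w, h1, h2⟩
      · exact Or.inl h
      have hw := hz.trans (Bl.of_arc h1)
      rcases ih (j + 1) w y h2 hw (by omega) with e | e
      · exact Or.inr (e ▸ hE _ _ h1.1)
      · by_contra hc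
        push Not at hc
        exact hn (has_path3 (hz.mono (by omega)) (hw.mono (by omega))
          ((hw.trans h2).mono (by omega)) (hE _ _ h1.1) e hc.1 hc.2)
  rcases key 4 0 x u hu rfl le_rfl with e | e <;> rcases key 4 0 x t k1 rfl le_rfl with e' | e'
  · exact k2 (e'.symm.trans e)
  · exact k3 (e ▸ e')
  · exact k3 (e' ▸ e.symm)
  · exact hn (has_path3 hu (Bl.rfl' _ _) k1 e.symm e' k2.symm k3)

theorem iter {α : Type} {H : SimpleGraph α} {Γ : SimpleGraph V} {E F : V → V → Prop} {c R : ℕ}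
    (h0 : Q Γ E F (Has H Γ 0) c R) : ∀ s c' R' : ℕ, c' + 2 = (c + 2) * 4 ^ s →
      R' + 4 = (R + 4) * 2 ^ s → (∀ x, ¬ Pb E (R' - 1) x x) → Q Γ E F (Has H Γ s) c' R' := by
  intro s
  induction s with
  | zero =>
    intro c' R' h1 h2 _
    obtain rfl : c' = c := by omega
    obtain rfl : R' = R := by omega
    exact h0
  | succ s ih =>
    intro c' R' h1 h2 hg
    have p1 : 1 ≤ 4 ^ s := Nat.one_le_pow _ _ (by omega)
    have p2 : 1 ≤ 2 ^ s := Nat.one_le_pow _ _ (by omega)
    obtain ⟨c1, hc1⟩ : ∃ c1, c1 + 2 = (c + 2) * 4 ^ s := ⟨(c + 2) * 4 ^ s - 2, by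
      have : (c + 2) * 1 ≤ (c + 2) * 4 ^ s := Nat.mul_le_mul_left _ p1
      omega⟩
    obtain ⟨R1, hR1⟩ : ∃ R1, R1 + 4 = (R + 4) * 2 ^ s := ⟨(R + 4) * 2 ^ s - 4, by
      have : (R + 4) * 1 ≤ (R + 4) * 2 ^ s := Nat.mul_le_mul_left _ p2
      omega⟩
    rw [pow_succ, ← mul_assoc, ← hc1] at h1
    rw [pow_succ, ← mul_assoc, ← hR1] at h2
    obtain rfl : c' = 4 * c1 + 6 := by omega
    obtain rfl : R' = 2 * R1 + 4 := by omega
    have hq := step (R := R1) hg (ih c1 R1 hc1 hR1 fun x h => hg x (h.mono (by omega)))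
    intro W x hx hA hd
    obtain ⟨B', u, k1, k2, k3⟩ := hq W x hx hA hd
    exact k1.succ k2 k3

variable [DecidableEq V]

/-- If every non-empty set has a vertex with at most `c` times as many out-neighbours as
`R`-neighbours, then at most `c |R|` arcs meet all cycles. -/
theorem peel {G : V → V → Prop} (R : Finset (V × V)) (c : ℕ)
    (h : ∀ U : Finset V, U.Nonempty → ∃ v ∈ U, cd (fun y => G v y ∧ y ∈ U) ≤
      c * cd (fun y => y ∈ U ∧ ((v, y) ∈ R ∨ (y, v) ∈ R))) (U : Finset V) :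
    ∃ (X : Finset (V × V)) (rk : V → ℕ),
      X.card ≤ c * (R.filter fun e => e.1 ∈ U ∧ e.2 ∈ U).card ∧
      ∀ x ∈ U, ∀ y ∈ U, G x y → (x, y) ∉ X → rk y < rk x := by
  classical
  induction U using Finset.strongInduction with
  | H U ih =>
    rcases U.eq_empty_or_nonempty with rfl | hU
    · exact ⟨∅, fun _ => 0, by simp, by simp⟩
    obtain ⟨v, hv, hd⟩ := h U hU
    obtain ⟨X, rk, h1, h2⟩ := ih (U.erase v) (erase_ssubset hv)
    refine ⟨X ∪ (univ.filter fun y => G v y ∧ y ∈ U).image (fun y => (v, y)),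
      fun x => if x = v then 0 else rk x + 1, ?_, fun x hx y hy hG hX => ?_⟩
    · have h3 : ((univ.filter fun y => G v y ∧ y ∈ U).image (fun y => (v, y))).card ≤
          cd (fun y => G v y ∧ y ∈ U) := by
        refine card_image_le.trans ?_
        unfold cd
        convert le_rfl
      have h4 : cd (fun y => y ∈ U ∧ ((v, y) ∈ R ∨ (y, v) ∈ R)) ≤
          ((R.filter fun e => e.1 ∈ U ∧ e.2 ∈ U).filter fun e => e.1 = v ∨ e.2 = v).card := by
        refine le_trans ?_ (card_image_le (f := fun e : V × V => if e.1 = v then e.2 else e.1))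
        unfold cd
        refine card_le_card fun y hy => ?_
        simp only [mem_filter, mem_univ, true_and] at hy
        obtain ⟨hyU, hyR⟩ := hy
        rcases hyR with k | k
        · exact mem_image.2 ⟨(v, y), mem_filter.2 ⟨mem_filter.2 ⟨k, hv, hyU⟩, Or.inl rfl⟩, by simp⟩
        · refine mem_image.2 ⟨(y, v), mem_filter.2 ⟨mem_filter.2 ⟨k, hyU, hv⟩, Or.inr rfl⟩, ?_⟩
          by_cases e : y = v <;> simp [e]
      have h5 : (R.filter fun e => e.1 ∈ U.erase v ∧ e.2 ∈ U.erase v).card ≤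
          ((R.filter fun e => e.1 ∈ U ∧ e.2 ∈ U).filter fun e => ¬ (e.1 = v ∨ e.2 = v)).card :=
        card_le_card fun e he => by
          simp only [mem_filter, mem_erase] at he ⊢
          tauto
      have h6 := card_filter_add_card_filter_not (s := R.filter fun e => e.1 ∈ U ∧ e.2 ∈ U)
        (fun e => e.1 = v ∨ e.2 = v)
      have h7 := card_union_le X ((univ.filter fun y => G v y ∧ y ∈ U).image (fun y => (v, y)))
      have h8 := Nat.mul_le_mul_left c h4
      have h9 := Nat.mul_le_mul_left c h5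
      rw [← h6, mul_add]
      omega
    · rw [mem_union, not_or] at hX
      have hxv : x ≠ v := by
        rintro rfl
        exact hX.2 (mem_image.2 ⟨y, mem_filter.2 ⟨mem_univ _, hG, hy⟩, rfl⟩)
      by_cases hyv : y = v
      · simp [hxv, hyv]
      · have := h2 x (mem_erase.2 ⟨hxv, hx⟩) y (mem_erase.2 ⟨hyv, hy⟩) hG hX.1
        simp only [hxv, hyv, if_false]
        omega

theorem rtg_mono {T : Type} {r s : T → T → Prop} (h : ∀ a b, r a b → s a b) {x y : T}
    (k : Relation.ReflTransGen r x y) : Relation.ReflTransGen s x y := by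
  induction k with
  | refl => exact Relation.ReflTransGen.refl
  | tail _ e ih => exact ih.tail (h _ _ e)

omit [Fintype V] in
theorem arcs_of_bl {E : V → V → Prop} : ∀ {k : ℕ} {x y : V}, Bl E k x y →
    ∃ c : Finset (V × V), c.card ≤ k ∧ (∀ e ∈ c, E e.1 e.2) ∧
      Relation.ReflTransGen (fun a b => (a, b) ∈ c) x y
  | 0, _, _, h => ⟨∅, le_rfl, by simp, (show _ = _ from h) ▸ Relation.ReflTransGen.refl⟩
  | k + 1, x, y, h => by
    rcases h with rfl | ⟨z, h1, h2⟩
    · exact ⟨∅, by simp, by simp, Relation.ReflTransGen.refl⟩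
    · obtain ⟨c, k1, k2, k3⟩ := arcs_of_bl h2
      refine ⟨insert (x, z) c, (card_insert_le _ _).trans (by omega), fun e he => ?_,
        Relation.ReflTransGen.head (mem_insert_self _ _)
          (rtg_mono (fun a b hab => mem_insert_of_mem hab) k3)⟩
      rcases mem_insert.1 he with rfl | he'
      · exact h1
      · exact k2 e he'

/-- a maximal packing of short cycles -/
theorem packing (D : V → V → Prop) (g : ℕ) : ∃ S : Finset (Finset (V × V)),
    (∀ c ∈ S, ∀ c' ∈ S, c ≠ c' → Disjoint c c') ∧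
    (∀ c ∈ S, c.card ≤ g + 1 ∧ ∃ v, Relation.TransGen (fun a b => D a b ∧ (a, b) ∈ c) v v) ∧
    ∀ x, ¬ Pb (fun a b => D a b ∧ (a, b) ∉ S.biUnion id) g x x := by
  classical
  obtain ⟨S, hS, hmax⟩ := exists_max_image (univ.filter fun S : Finset (Finset (V × V)) =>
    (∀ c ∈ S, ∀ c' ∈ S, c ≠ c' → Disjoint c c') ∧
    ∀ c ∈ S, c.card ≤ g + 1 ∧ ∃ v, Relation.TransGen (fun a b => D a b ∧ (a, b) ∈ c) v v)
    card ⟨∅, mem_filter.2 ⟨mem_univ _, by simp, by simp⟩⟩
  obtain ⟨h1, h2⟩ := (mem_filter.1 hS).2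
  refine ⟨S, h1, h2, fun x ⟨z, hz, hb⟩ => ?_⟩
  obtain ⟨c, k1, k2, k3⟩ := arcs_of_bl hb
  have k4 : ∀ e ∈ insert (x, z) c, D e.1 e.2 ∧ (e.1, e.2) ∉ S.biUnion id := fun e he => by
    rcases mem_insert.1 he with rfl | he'
    · exact hz
    · exact k2 e he'
  have k5 : ∀ c' ∈ S, Disjoint (insert (x, z) c) c' := fun c' hc' =>
    disjoint_left.2 fun e he he' => (k4 e he).2 (mem_biUnion.2 ⟨c', hc', he'⟩)
  have k6 : insert (x, z) c ∉ S := fun h =>
    disjoint_left.1 (k5 _ h) (mem_insert_self _ _) (mem_insert_self _ _)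
  have k7 := hmax (insert (insert (x, z) c) S) (mem_filter.2 ⟨mem_univ _, fun a ha b hb hab => by
      rcases mem_insert.1 ha with e | ha' <;> rcases mem_insert.1 hb with e' | hb'
      · exact absurd (e.trans e'.symm) hab
      · rw [e]; exact k5 b hb'
      · rw [e']; exact (k5 a ha').symm
      · exact h1 a ha' b hb' hab, fun a ha => by
      rcases mem_insert.1 ha with e | ha'
      · rw [e]
        refine ⟨(card_insert_le _ _).trans (by omega), x,
          Relation.TransGen.head' ⟨hz.1, mem_insert_self _ _⟩ (rtg_mono (fun a b hab =>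
            ⟨(k2 _ hab).1, mem_insert_of_mem hab⟩) k3)⟩
      · exact h2 a ha'⟩)
  rw [card_insert_of_notMem k6] at k7
  omega

/-- from the local property to the linear bound -/
theorem linear {α : Type} (H : SimpleGraph α) (D : V → V → Prop) (s c L : ℕ)
    (hQ : ∀ E F : V → V → Prop, (∀ a b, E a b → D a b) → (∀ x, ¬ Pb E L x x) →
      Q (fromRel D) E F (Has H (fromRel D) s) c (L + 1))
    (hD : IsEmpty ((H ⊕g (⊥ : SimpleGraph (Fin s))) ↪g fromRel D)) :
    ∃ F : Finset (V × V),
      (∀ v : V, ¬ Relation.TransGen (fun x y => D x y ∧ (x, y) ∉ F) v v) ∧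
      ∃ k : ℕ, ∃ C : Fin k → Finset (V × V),
        (∀ i j : Fin k, i ≠ j → Disjoint (C i) (C j)) ∧
        (∀ i : Fin k, (C i).card ≤ L + 1 ∧
          ∃ v : V, Relation.TransGen (fun x y => D x y ∧ (x, y) ∈ C i) v v) ∧
        F.card ≤ (c + 1) * (L + 1) * k := by
  obtain ⟨S, h1, h2, h3⟩ := packing D L
  set R := S.biUnion id with hR
  have hc : R.card ≤ S.card * (L + 1) :=
    card_biUnion_le_card_mul S id _ fun c hc => (h2 c hc).1
  obtain ⟨X, rk, k1, k2⟩ := peel (G := fun x y => D x y ∧ (x, y) ∉ R) R c (fun U hU => by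
    by_contra hne
    push Not at hne
    obtain ⟨v, hv⟩ := hU
    obtain ⟨φ, -⟩ := hQ (fun x y => D x y ∧ (x, y) ∉ R)
      (fun x y => y ∈ U ∧ ((x, y) ∈ R ∨ (y, x) ∈ R)) (fun _ _ h => h.1) h3 (fun y => y ∈ U) v hv
      (fun a b _ hb h => by
        by_cases e : (a, b) ∈ R ∨ (b, a) ∈ R
        · exact Or.inr (Or.inr ⟨hb, e⟩)
        · rw [not_or] at e
          rcases ((fromRel_adj _ _ _).1 h).2 with k | k
          · exact Or.inl ⟨k, e.1⟩
          · exact Or.inr (Or.inl ⟨k, e.2⟩))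
      (fun u hu => hne u (Bl.keep (W := fun y => y ∈ U) (fun _ _ h => h.2) hu hv))
    exact hD.false φ) univ
  refine ⟨R ∪ X, fun v hv => ?_, S.card, fun i => (S.equivFin.symm i).1, fun i j hij =>
    h1 _ (S.equivFin.symm i).2 _ (S.equivFin.symm j).2
      fun e => hij (S.equivFin.symm.injective (Subtype.ext e)),
    fun i => h2 _ (S.equivFin.symm i).2, ?_⟩
  · have key : ∀ x y, Relation.TransGen (fun x y => D x y ∧ (x, y) ∉ R ∪ X) x y →
        rk y < rk x := fun x y h => by
      have st : ∀ x y, D x y ∧ (x, y) ∉ R ∪ X → rk y < rk x := fun x y h =>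
        k2 x (mem_univ _) y (mem_univ _) ⟨h.1, fun e => h.2 (mem_union_left _ e)⟩
          fun e => h.2 (mem_union_right _ e)
      induction h with
      | single h => exact st _ _ h
      | tail _ h ih => exact (st _ _ h).trans ih
    exact lt_irrefl _ (key v v hv)
  · have k3 := k1.trans (Nat.mul_le_mul_left c (card_filter_le _ _))
    have k4 := card_union_le R X
    have k5 := Nat.mul_le_mul_left (c + 1) hc
    calc (R ∪ X).card ≤ (c + 1) * R.card := by rw [add_mul]; omega
      _ ≤ (c + 1) * (S.card * (L + 1)) := k5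
      _ = _ := by ring

theorem main3 (D : V → V → Prop) (s : ℕ)
    (hD : IsEmpty ((pathGraph 3 ⊕g (⊥ : SimpleGraph (Fin s))) ↪g fromRel D)) :
    ∃ F : Finset (V × V),
      (∀ v : V, ¬ Relation.TransGen (fun x y => D x y ∧ (x, y) ∉ F) v v) ∧
      ∃ k : ℕ, ∃ C : Fin k → Finset (V × V),
        (∀ i j : Fin k, i ≠ j → Disjoint (C i) (C j)) ∧
        (∀ i : Fin k, (C i).card ≤ 2 ^ (s + 3) ∧
          ∃ v : V, Relation.TransGen (fun x y => D x y ∧ (x, y) ∈ C i) v v) ∧
        F.card ≤ 8 ^ (s + 2) * k := by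
  have p1 : 1 ≤ 4 ^ s := Nat.one_le_pow _ _ (by omega)
  have p2 : 1 ≤ 2 ^ s := Nat.one_le_pow _ _ (by omega)
  obtain ⟨c, hc⟩ : ∃ c, c + 2 = (6 + 2) * 4 ^ s := ⟨8 * 4 ^ s - 2, by omega⟩
  obtain ⟨L, hL⟩ : ∃ L, L + 1 + 4 = (4 + 4) * 2 ^ s := ⟨8 * 2 ^ s - 5, by omega⟩
  obtain ⟨F, f1, k, C, f2, f3, f4⟩ := linear (pathGraph 3) D s c L (fun E F hE hg =>
    iter (base3 (fun a b h => (fromRel_adj _ _ _).2 ⟨by
        rintro rfl
        exact hg a (Pb.of_arc h _), Or.inl (hE _ _ h)⟩)
      (fun x h => hg x (h.mono (by omega)))) s c (L + 1) hc hL hg) hD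
  refine ⟨F, f1, k, C, f2, fun i => ⟨(f3 i).1.trans ?_, (f3 i).2⟩,
    f4.trans (Nat.mul_le_mul_right _ ?_)⟩
  · rw [pow_add]
    omega
  · calc (c + 1) * (L + 1) ≤ (8 * 4 ^ s) * (8 * 2 ^ s) := Nat.mul_le_mul (by omega) (by omega)
      _ = 64 * (4 * 2) ^ s := by rw [mul_pow]; ring
      _ = 8 ^ (s + 2) := by norm_num [pow_add, mul_comm]

end Pool.Agent.Lib.MP_906bc3_co.Iso
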