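import Pool.Agent.Lib.MP_906bc3_co.Neg
import Pool.Agent.Lib.MP_906bc3_co.IsoMain

/-! The classification of forbidden induced subgraphs, up to one family. -/

set_option autoImplicit false

namespace Pool.Agent.MP_906bc3_co.Neg

open SimpleGraph

theorem iso_of_full {U : Type} [Fintype U] {M : SimpleGraph U} {r : ℕ}
    (φ : M ↪g (pathGraph 4).sum (⊥ : SimpleGraph (Fin r))) (h : ∀ i, ∃ a, φ a = .inl i) :
    ∃ s, Nonempty (M ≃g (pathGraph 4).sum (⊥ : SimpleGraph (Fin s))) := by
  classical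
  choose p hp using h
  let T := {a : U // ∃ j, φ a = .inr j}
  let e := Fintype.equivFin T
  let ψ : Fin 4 ⊕ Fin (Fintype.card T) → U := Sum.elim p fun j => (e.symm j).1
  have hb : Function.Bijective ψ := by
    constructor
    · rintro (i | i) (j | j) hij
      · have : φ (p i) = φ (p j) := congrArg φ hij
        rw [hp, hp] at this
        rw [Sum.inl.inj this]
      · obtain ⟨k, hk⟩ := (e.symm j).2
        have : φ (p i) = φ (e.symm j).1 := congrArg φ hij
        rw [hp, hk] at this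
        exact absurd this Sum.inl_ne_inr
      · obtain ⟨k, hk⟩ := (e.symm i).2
        have : φ (e.symm i).1 = φ (p j) := congrArg φ hij
        rw [hp, hk] at this
        exact absurd this Sum.inr_ne_inl
      · rw [e.symm.injective (Subtype.ext hij)]
    · intro a
      rcases ha : φ a with i | j
      · exact ⟨.inl i, φ.injective (by rw [ha]; exact hp i)⟩
      · exact ⟨.inr (e ⟨a, j, ha⟩), by simp [ψ]⟩
  refine ⟨_, ⟨RelIso.symm ⟨Equiv.ofBijective ψ hb, ?_⟩⟩⟩
  rintro (i | i) (j | j) <;> rw [← φ.map_rel_iff] <;>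
    simp only [Equiv.ofBijective_apply, ψ, Sum.elim_inl, Sum.elim_inr]
  · rw [hp, hp]; simp
  · obtain ⟨k, hk⟩ := (e.symm j).2
    rw [hp, hk]; simp
  · obtain ⟨k, hk⟩ := (e.symm i).2
    rw [hp, hk]; simp
  · obtain ⟨k, hk⟩ := (e.symm i).2
    obtain ⟨l, hl⟩ := (e.symm j).2
    rw [hk, hl]; simp

theorem emb_of_miss {U : Type} {M : SimpleGraph U} {r : ℕ}
    (φ : M ↪g (pathGraph 4).sum (⊥ : SimpleGraph (Fin r))) (i : Fin 4) (h : ∀ a, φ a ≠ .inl i) :
    Nonempty (M ↪g (pathGraph 3).sum (⊥ : SimpleGraph (Fin (r + 1)))) := by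
  obtain ⟨f, f1, f2⟩ : ∃ f : Fin 4 → Option (Fin 3),
      (∀ x y, x ≠ i → y ≠ i → f x = f y → x = y) ∧
      ∀ x y, x ≠ i → y ≠ i → ((∃ a b, f x = some a ∧ f y = some b ∧
        (a.val + 1 = b.val ∨ b.val + 1 = a.val)) ↔ (x.val + 1 = y.val ∨ y.val + 1 = x.val)) := by
    clear h
    fin_cases i
    · exact ⟨![none, some 0, some 1, some 2], by decide,
        fun x y => by fin_cases x <;> fin_cases y <;> simp⟩
    · exact ⟨![none, some 2, some 0, some 1], by decide,
        fun x y => by fin_cases x <;> fin_cases y <;> simp⟩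
    · exact ⟨![some 0, some 1, some 2, none], by decide,
        fun x y => by fin_cases x <;> fin_cases y <;> simp⟩
    · exact ⟨![some 0, some 1, some 2, none], by decide,
        fun x y => by fin_cases x <;> fin_cases y <;> simp⟩
  let g : Fin 4 ⊕ Fin r → Fin 3 ⊕ Fin (r + 1) :=
    Sum.elim (fun x => (f x).elim (.inr 0) .inl) fun j => .inr j.succ
  refine ⟨⟨⟨fun a => g (φ a), fun a b hab => φ.injective ?_⟩, fun {a b} => ?_⟩⟩
  · have ha := h a
    have hb := h b
    simp only at hab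
    rcases h1 : φ a with x | x <;> rcases h2 : φ b with y | y <;> rw [h1] at ha hab <;>
      rw [h2] at hb hab
    · have := f1 x y (fun e => ha (by rw [e])) (fun e => hb (by rw [e]))
      rcases hx : f x with _ | u <;> rcases hy : f y with _ | v <;> simp_all [g]
    · rcases hx : f x with _ | u <;> simp [g, hx, (Fin.succ_ne_zero y).symm] at hab
    · rcases hy : f y with _ | u <;> simp [g, hy] at hab
    · simpa [g] using hab
  · have ha := h a
    have hb := h b
    rw [← φ.map_rel_iff]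
    simp only [Function.Embedding.coeFn_mk]
    rcases h1 : φ a with x | x <;> rcases h2 : φ b with y | y <;> rw [h1] at ha <;> rw [h2] at hb
    · have := f2 x y (fun e => ha (by rw [e])) (fun e => hb (by rw [e]))
      rw [sum_adj_inl, pathGraph_adj, ← this]
      rcases hx : f x with _ | u <;> rcases hy : f y with _ | v <;> simp [g, hx, hy, pathGraph_adj]
    · rcases hx : f x with _ | u <;> simp [g, hx]
    · rcases hy : f y with _ | u <;> simp [g, hy]
    · simp [g]

theorem dich {U : Type} [Fintype U] (M : SimpleGraph U)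
    (hM : ∀ s, IsEmpty (M ≃g (pathGraph 4).sum (⊥ : SimpleGraph (Fin s)))) :
    (∃ c : ℕ, ∀ (n : ℕ) (G : Digraph (Fin n)), IsEmpty (M ↪g fromRel G.Adj) → Lin c G.Adj) ↔
      ∃ s, Nonempty (M ↪g (pathGraph 3).sum (⊥ : SimpleGraph (Fin s))) := by
  constructor
  · rintro ⟨c, hc⟩
    obtain ⟨φ⟩ := neg M c hc
    by_cases h : ∀ i, ∃ a, φ a = .inl i
    · obtain ⟨s, ⟨e⟩⟩ := iso_of_full φ h
      exact (hM s).elim e
    · push Not at h
      obtain ⟨i, hi⟩ := h
      exact ⟨_, emb_of_miss φ i hi⟩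
  · rintro ⟨s, ⟨φ⟩⟩
    refine ⟨8 ^ (s + 2), fun n G hG => ?_⟩
    obtain ⟨F, h1, k, C, h2, h3, h4⟩ :=
      Pool.Agent.Lib.MP_906bc3_co.Iso.main3 G.Adj s ⟨fun ψ => hG.elim (ψ.comp φ)⟩
    exact ⟨F, h1, k, C, h2, fun i => (h3 i).2, h4⟩

end Pool.Agent.MP_906bc3_co.Neg
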