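import Mathlib

set_option autoImplicit false

namespace Pool.Agent.MP_906bc3_co.EdgeFree

open Finset
open scoped Classical

variable {V : Type*}

/-- there is a walk of length at most n -/
def W (E : V → V → Prop) : ℕ → V → V → Prop
  | 0, x, y => x = y
  | n + 1, x, y => W E n x y ∨ ∃ z, W E n x z ∧ E z y

theorem W.mono {E : V → V → Prop} {n k : ℕ} {x y : V} (h : W E n x y) (hk : n ≤ k) :
    W E k x y := by
  induction hk with
  | refl => exact h
  | step _ ih => exact Or.inl ih

theorem W.refl (E : V → V → Prop) (n : ℕ) (x : V) : W E n x x :=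
  W.mono (n := 0) rfl (Nat.zero_le _)

theorem W.trans {E : V → V → Prop} {n : ℕ} {x y : V} (h : W E n x y) :
    ∀ {k : ℕ} {z : V}, W E k y z → W E (n + k) x z := by
  intro k
  induction k with
  | zero => intro z hz; cases hz; exact h
  | succ k ih =>
    intro z hz
    rcases hz with hz | ⟨w, hw, he⟩
    · exact Or.inl (ih hz)
    · exact Or.inr ⟨w, ih hw, he⟩

theorem W.one {E : V → V → Prop} {x y : V} (h : x = y ∨ E x y) : W E 1 x y := by
  rcases h with h | h
  · exact Or.inl h
  · exact Or.inr ⟨x, rfl, h⟩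

theorem rtg_mono {r q : V → V → Prop} (h : ∀ a b, r a b → q a b) {x y : V}
    (hxy : Relation.ReflTransGen r x y) : Relation.ReflTransGen q x y := by
  induction hxy with
  | refl => exact Relation.ReflTransGen.refl
  | tail _ hb ih => exact ih.tail (h _ _ hb)

theorem W.arcs {E : V → V → Prop} : ∀ {n : ℕ} {x y : V}, W E n x y →
    ∃ C : Finset (V × V), C.card ≤ n ∧ (∀ e ∈ C, E e.1 e.2) ∧
      Relation.ReflTransGen (fun a b => (a, b) ∈ C) x y := by
  intro n
  induction n with
  | zero =>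
    intro x y h
    cases h
    exact ⟨∅, by simp, by simp, Relation.ReflTransGen.refl⟩
  | succ n ih =>
    intro x y h
    rcases h with h | ⟨z, hz, he⟩
    · obtain ⟨C, h1, h2, h3⟩ := ih h
      exact ⟨C, by omega, h2, h3⟩
    · obtain ⟨C, h1, h2, h3⟩ := ih hz
      refine ⟨insert (z, y) C, (card_insert_le _ _).trans (by omega), ?_, ?_⟩
      · intro e he'
        rcases mem_insert.1 he' with rfl | he'
        · exact he
        · exact h2 e he'
      · exact (rtg_mono (q := fun a b => (a, b) ∈ insert (z, y) C)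
          (fun a b hab => mem_insert_of_mem hab) h3).tail (mem_insert_self _ _)

theorem chain_of_transGen {P : V → V → Prop} {x y : V} (h : Relation.TransGen P x y) :
    ∃ L : ℕ, ∃ u : ℕ → V, 1 ≤ L ∧ u 0 = x ∧ u L = y ∧ ∀ i < L, P (u i) (u (i + 1)) := by
  induction h with
  | @single b hb =>
    refine ⟨1, fun i => if i = 0 then x else b, le_rfl, by simp, by simp, ?_⟩
    intro i hi
    have : i = 0 := by omega
    subst this
    simpa using hb
  | @tail b c _ hbc ih =>
    obtain ⟨L, u, h1, h0, hL, hs⟩ := ih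
    refine ⟨L + 1, fun i => if i ≤ L then u i else c, by omega, by simpa using h0, by simp, ?_⟩
    intro i hi
    by_cases hiL : i < L
    · have e1 : i ≤ L := by omega
      have e2 : i + 1 ≤ L := by omega
      simpa [e1, e2] using hs i hiL
    · have : i = L := by omega
      subst this
      simpa [hL] using hbc

variable [Fintype V]

/-- number of M neighbours -/
noncomputable def m (M : V → V → Prop) (x : V) : ℕ := (univ.filter fun y => M x y).card

theorem pick {M : V → V → Prop} (hM : ∀ x y, M x y → M y x) (v0 : V) (a : ℕ) (t : ℕ → ℕ)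
    (Z : ℕ → Finset V) (I : Finset ℕ) : I.card ≤ a + 1 → (∀ j ∈ I, a * t j < (Z j).card) →
    (∀ j ∈ I, ∀ z ∈ Z j, m M z ≤ t j) →
    ∃ f : ℕ → V, (∀ j ∈ I, f j ∈ Z j) ∧ ∀ j ∈ I, ∀ j' ∈ I, j ≠ j' → ¬ M (f j) (f j') := by
  induction I using Finset.induction_on_max_value t with
  | empty => intro _ _ _; exact ⟨fun _ => v0, by simp, by simp⟩
  | insert b s hb hmax ih =>
    intro hc hZ hm
    rw [card_insert_of_notMem hb] at hc
    obtain ⟨f, hf1, hf2⟩ := ih (by omega) (fun j hj => hZ j (mem_insert_of_mem hj))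
      (fun j hj => hm j (mem_insert_of_mem hj))
    have hB : (s.biUnion fun j => univ.filter fun y => M (f j) y).card < (Z b).card := by
      refine lt_of_le_of_lt ?_ (hZ b (mem_insert_self _ _))
      refine card_biUnion_le.trans ?_
      refine (sum_le_card_nsmul s _ (t b) ?_).trans ?_
      · intro j hj
        exact (hm j (mem_insert_of_mem hj) _ (hf1 j hj)).trans (hmax j hj)
      · rw [smul_eq_mul]
        exact Nat.mul_le_mul_right _ (by omega)
    obtain ⟨z, hz, hzn⟩ := exists_mem_notMem_of_card_lt_card hB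
    have hzn' : ∀ j ∈ s, ¬ M (f j) z := by
      intro j hj hh
      exact hzn (mem_biUnion.2 ⟨j, hj, by simpa using hh⟩)
    have hne : ∀ j ∈ s, j ≠ b := fun j hj e => hb (e ▸ hj)
    refine ⟨fun j => if j = b then z else f j, ?_, ?_⟩
    · intro j hj
      rcases mem_insert.1 hj with rfl | hj
      · simpa using hz
      · simpa [hne j hj] using hf1 j hj
    · intro j hj j' hj' hjj
      rcases mem_insert.1 hj with e | g
      · rcases mem_insert.1 hj' with e' | g'
        · exact absurd (e.trans e'.symm) hjj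
        · simp only [e, if_true, hne j' g', if_false]
          exact fun hh => hzn' j' g' (hM _ _ hh)
      · rcases mem_insert.1 hj' with e' | g'
        · simp only [e', if_true, hne j g, if_false]
          exact hzn' j g
        · simp only [hne j g, hne j' g', if_false]
          exact hf2 j g j' g' hjj

theorem small {E M : V → V → Prop} (hM : ∀ x y, M x y → M y x) (d t : ℕ) :
    ∀ (a : ℕ) (N : Finset V), (∀ h ∈ N, (N.filter fun z => z = h ∨ E z h).card ≤ d) →
      (∀ h ∈ N, m M h ≤ t) →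
      (∀ S ⊆ N, (∀ x ∈ S, ∀ y ∈ S, x ≠ y → ¬ E x y ∧ ¬ M x y) → S.card ≤ a) →
      N.card ≤ a * (2 * d + t) := by
  intro a
  induction a with
  | zero =>
    intro N _ _ hS
    rcases N.eq_empty_or_nonempty with rfl | ⟨x, hx⟩
    · simp
    · have := hS {x} (by simpa using hx) (by simp)
      simp at this
  | succ a ih =>
    intro N hd ht hS
    rcases N.eq_empty_or_nonempty with rfl | hN
    · simp
    have hsum : ∑ x ∈ N, (N.filter fun h => x = h ∨ E x h).card ≤ ∑ _x ∈ N, d := by
      have : ∑ x ∈ N, (N.filter fun h => x = h ∨ E x h).card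
          = ∑ h ∈ N, (N.filter fun z => z = h ∨ E z h).card := by
        simp only [card_filter]
        exact sum_comm
      rw [this]
      exact sum_le_sum hd
    obtain ⟨x, hx, hxd⟩ := exists_le_of_sum_le hN hsum
    let B : Finset V := (N.filter fun h => x = h ∨ E x h) ∪ (N.filter fun z => z = x ∨ E z x) ∪
      (univ.filter fun y => M x y)
    have hB : B.card ≤ 2 * d + t := by
      have h1 := card_union_le ((N.filter fun h => x = h ∨ E x h) ∪
        (N.filter fun z => z = x ∨ E z x)) (univ.filter fun y => M x y)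
      have h2 := card_union_le (N.filter fun h => x = h ∨ E x h) (N.filter fun z => z = x ∨ E z x)
      have h3 := hd x hx
      have h4 : (univ.filter fun y => M x y).card ≤ t := ht x hx
      show (_ ∪ _ ∪ _ : Finset V).card ≤ _
      omega
    have hN' : (N \ B).card ≤ a * (2 * d + t) := by
      apply ih
      · intro h hh
        exact (card_le_card (filter_subset_filter _ sdiff_subset)).trans (hd h (mem_sdiff.1 hh).1)
      · intro h hh
        exact ht h (mem_sdiff.1 hh).1
      · intro S hSN hSi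
        have hout : ∀ y ∈ S, x ≠ y ∧ ¬ E x y ∧ ¬ E y x ∧ ¬ M x y := by
          intro y hy
          obtain ⟨hyN, hyB⟩ := mem_sdiff.1 (hSN hy)
          simp only [B, mem_union, mem_filter, mem_univ, true_and, hyN, not_or] at hyB
          exact ⟨hyB.1.1.1, hyB.1.1.2, hyB.1.2.2, hyB.2⟩
        have hxS : x ∉ S := fun h => (hout x h).1 rfl
        have := hS (insert x S) (insert_subset hx (hSN.trans sdiff_subset)) (by
          intro y hy z hz hyz
          rcases mem_insert.1 hy with e | hy'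
          · rcases mem_insert.1 hz with e' | hz'
            · exact absurd (e.trans e'.symm) hyz
            · rw [e]
              exact ⟨(hout z hz').2.1, (hout z hz').2.2.2⟩
          · rcases mem_insert.1 hz with e' | hz'
            · rw [e']
              exact ⟨(hout y hy').2.2.1, fun h => (hout y hy').2.2.2 (hM _ _ h)⟩
            · exact hSi y hy' z hz' hyz)
        rw [card_insert_of_notMem hxS] at this
        omega
    have := le_card_sdiff B N
    have e : (a + 1) * (2 * d + t) = a * (2 * d + t) + (2 * d + t) := by ring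
    omega

theorem sum_m (R : Finset (V × V)) :
    ∑ v, m (fun x y => (x, y) ∈ R ∨ (y, x) ∈ R) v ≤ 2 * R.card := by
  have e1 : ∑ v : V, (univ.filter fun y => (v, y) ∈ R).card = R.card := by
    simp only [card_filter]
    rw [← Fintype.sum_prod_type (fun e : V × V => if e ∈ R then 1 else 0)]
    simp
  have e2 : ∑ v : V, (univ.filter fun y => (y, v) ∈ R).card = R.card := by
    simp only [card_filter]
    rw [← Fintype.sum_prod_type_right (fun e : V × V => if e ∈ R then 1 else 0)]
    simp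
  have : ∀ v ∈ (univ : Finset V), m (fun x y => (x, y) ∈ R ∨ (y, x) ∈ R) v ≤
      (univ.filter fun y => (v, y) ∈ R).card + (univ.filter fun y => (y, v) ∈ R).card := by
    intro v _
    refine le_trans (card_le_card ?_) (card_union_le _ _)
    intro y hy
    simpa using hy
  have := sum_le_sum this
  rw [sum_add_distrib, e1, e2] at this
  omega

/-- a maximal packing of short cycles -/
theorem pack (A : V → V → Prop) (g : ℕ) :
    ∃ T : Finset (Finset (V × V)), (∀ C ∈ T, ∀ D ∈ T, C ≠ D → Disjoint C D) ∧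
      (∀ C ∈ T, C.card ≤ g + 1 ∧
        ∃ v, Relation.TransGen (fun a b => A a b ∧ (a, b) ∈ C) v v) ∧
      ∀ x y, W (fun a b => A a b ∧ (a, b) ∉ T.biUnion id) g x y →
        ¬ (A y x ∧ (y, x) ∉ T.biUnion id) := by
  obtain ⟨T, hT, hmax⟩ := exists_max_image
    (univ.filter fun T : Finset (Finset (V × V)) => (∀ C ∈ T, ∀ D ∈ T, C ≠ D → Disjoint C D) ∧
      (∀ C ∈ T, C.card ≤ g + 1 ∧ ∃ v, Relation.TransGen (fun a b => A a b ∧ (a, b) ∈ C) v v))
    card ⟨∅, by simp⟩
  obtain ⟨h1, h2⟩ := (mem_filter.1 hT).2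
  refine ⟨T, h1, h2, fun x y hw he => ?_⟩
  obtain ⟨C, c1, c2, c3⟩ := hw.arcs
  have hdis : ∀ D ∈ T, Disjoint (insert (y, x) C) D := by
    intro D hD
    refine disjoint_left.2 fun e he' heD => ?_
    have : e ∈ T.biUnion id := mem_biUnion.2 ⟨D, hD, heD⟩
    rcases mem_insert.1 he' with rfl | he'
    · exact he.2 this
    · exact (c2 e he').2 this
  have hnot : insert (y, x) C ∉ T := by
    intro h
    exact disjoint_left.1 (hdis _ h) (mem_insert_self _ _) (mem_insert_self _ _)
  have := hmax (insert (insert (y, x) C) T) (mem_filter.2 ⟨mem_univ _, ?_, ?_⟩)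
  · rw [card_insert_of_notMem hnot] at this
    omega
  · intro D hD D' hD' hne
    rcases mem_insert.1 hD with rfl | hD
    · rcases mem_insert.1 hD' with rfl | hD'
      · exact absurd rfl hne
      · exact hdis _ hD'
    · rcases mem_insert.1 hD' with rfl | hD'
      · exact (hdis _ hD).symm
      · exact h1 _ hD _ hD' hne
  · intro D hD
    rcases mem_insert.1 hD with rfl | hD
    · refine ⟨(card_insert_le _ _).trans (by omega), x, ?_⟩
      refine Relation.TransGen.tail' (b := y) ?_ ⟨he.1, mem_insert_self _ _⟩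
      exact rtg_mono (fun a b hab => ⟨(c2 _ hab).1, mem_insert_of_mem hab⟩) c3
    · exact h2 _ hD

/-- light alternatives for the arc from x to y, seen from a next vertex y' -/
noncomputable def Zo (E M : V → V → Prop) (x y y' : V) : Finset V :=
  univ.filter fun z => E x z ∧ m M z ≤ m M x ∧ (z = y ∨ E z y ∨ E z y')

/-- the arc from x to y has many alternatives on the scale of x -/
def Go (E M : V → V → Prop) (c : ℕ) (x y : V) : Prop :=
  m M y ≤ m M x → ∀ y', E y y' → m M y' ≤ m M x → c * m M x < (Zo E M x y y').card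

/-- robust arcs -/
def Rb (E M : V → V → Prop) (c : ℕ) (x y : V) : Prop :=
  E x y ∧ Go E M c x y ∧ Go (fun a b => E b a) M c y x

/-- the hypothesis on common non-neighbours of an arc -/
def Free (E M : V → V → Prop) (a : ℕ) : Prop :=
  ∀ y y', E y y' → ∀ S : Finset V, (∀ x ∈ S, ∀ z ∈ S, x ≠ z → ¬ E x z ∧ ¬ M x z) →
    (∀ z ∈ S, ¬ E z y ∧ ¬ E y z ∧ ¬ E z y' ∧ ¬ E y' z ∧ ¬ M y z ∧ ¬ M y' z) → S.card ≤ a

omit [Fintype V] in
theorem W.e {E : V → V → Prop} {x y : V} (h : E x y) : W E 1 x y := W.one (Or.inr h)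

theorem stretch {E M : V → V → Prop} {c : ℕ} {u0 u1 u2 u3 : V} (h0 : Rb E M c u0 u1)
    (h1 : Rb E M c u1 u2) (h2 : Rb E M c u2 u3) :
    ∃ t, ∃ Z : Finset V, c * t < Z.card ∧ m M u0 ≤ t ∧ m M u1 ≤ t ∧
      ∀ z ∈ Z, m M z ≤ t ∧ W E 3 u0 z ∧ W E 3 z u3 := by
  have w0 := W.e h0.1
  have w1 := W.e h1.1
  have w2 := W.e h2.1
  have hc : (m M u1 ≤ m M u0 ∧ m M u2 ≤ m M u0) ∨
      (m M u0 ≤ m M u1 ∧ m M u2 ≤ m M u1 ∧ m M u3 ≤ m M u1) ∨
      (m M u0 ≤ m M u2 ∧ m M u1 ≤ m M u2) ∨
      (m M u0 ≤ m M u3 ∧ m M u1 ≤ m M u3 ∧ m M u2 ≤ m M u3) := by omega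
  rcases hc with h | h | h | h
  · refine ⟨_, _, h0.2.1 h.1 u2 h1.1 h.2, le_rfl, h.1, fun z hz => ?_⟩
    obtain ⟨a1, a2, a3⟩ := (mem_filter.1 hz).2
    refine ⟨a2, (W.e a1).mono (by omega), ?_⟩
    rcases a3 with rfl | a3 | a3
    · exact (w1.trans w2).mono (by omega)
    · exact ((W.e a3).trans w1).trans w2
    · exact ((W.e a3).trans w2).mono (by omega)
  · refine ⟨_, _, h1.2.1 h.2.1 u3 h2.1 h.2.2, h.1, le_rfl, fun z hz => ?_⟩
    obtain ⟨a1, a2, a3⟩ := (mem_filter.1 hz).2
    refine ⟨a2, (w0.trans (W.e a1)).mono (by omega), ?_⟩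
    rcases a3 with rfl | a3 | a3
    · exact w2.mono (by omega)
    · exact ((W.e a3).trans w2).mono (by omega)
    · exact (W.e a3).mono (by omega)
  · refine ⟨_, _, h1.2.2 h.2 u0 h0.1 h.1, h.1, h.2, fun z hz => ?_⟩
    obtain ⟨a1, a2, a3⟩ := (mem_filter.1 hz).2
    refine ⟨a2, ?_, ((W.e a1).trans w2).mono (by omega)⟩
    rcases a3 with rfl | a3 | a3
    · exact w0.mono (by omega)
    · exact (w0.trans (W.e a3)).mono (by omega)
    · exact (W.e a3).mono (by omega)
  · refine ⟨_, _, h2.2.2 h.2.2 u1 h1.1 h.2.1, h.1, h.2.1, fun z hz => ?_⟩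
    obtain ⟨a1, a2, a3⟩ := (mem_filter.1 hz).2
    refine ⟨a2, ?_, (W.e a1).mono (by omega)⟩
    rcases a3 with rfl | a3 | a3
    · exact (w0.trans w1).mono (by omega)
    · exact (w0.trans w1).trans (W.e a3)
    · exact (w0.trans (W.e a3)).mono (by omega)

theorem noback {E M : V → V → Prop} (hM : ∀ x y, M x y → M y x) (a : ℕ)
    (hg : ∀ x y, W E (7 * a + 16) x y → ¬ E y x) (hind : Free E M a)
    (L : ℕ) : ∀ u : ℕ → V, 1 ≤ L → (∀ i < L, Rb E M (a + 2) (u i) (u (i + 1))) →
      ¬ W E 7 (u L) (u 0) := by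
  induction L using Nat.strong_induction_on with
  | _ L ih =>
    intro u hL hs hback
    obtain ⟨K, rfl⟩ : ∃ K, L = K + 1 := ⟨L - 1, by omega⟩
    have hfar : ¬ W E (7 * a + 9) (u 0) (u K) := by
      intro h
      exact hg (u (K + 1)) (u K) ((hback.trans h).mono (by omega)) (hs K (by omega)).1
    have walk : ∀ l i, i + l ≤ K + 1 → W E l (u i) (u (i + l)) := by
      intro l
      induction l with
      | zero => intro i _; exact W.refl _ _ _
      | succ l ihl =>
        intro i hi
        exact (ihl i (by omega)).trans (W.e (hs (i + l) (by omega)).1)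
    let idx : ℕ → ℕ := fun j => Nat.findGreatest (fun i => W E (7 * j) (u 0) (u i)) K
    have i1 : ∀ j, idx j ≤ K := fun j => Nat.findGreatest_le _
    have i2 : ∀ j, W E (7 * j) (u 0) (u (idx j)) := fun j =>
      Nat.findGreatest_spec (P := fun i => W E (7 * j) (u 0) (u i)) (Nat.zero_le K) (W.refl _ _ _)
    have i0 : ∀ j l, 7 * j + l ≤ 7 * a + 9 → idx j + l < K := by
      intro j l hj
      by_contra hc
      have h1 := i1 j
      have w := (i2 j).trans (walk (K - idx j) (idx j) (by omega))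
      have e : idx j + (K - idx j) = K := by omega
      rw [e] at w
      exact hfar (w.mono (by omega))
    have i3 : ∀ j ≤ a + 1, idx j + 3 ≤ K := by
      intro j hj
      have := i0 j 2 (by omega)
      omega
    have i4 : ∀ j ≤ a + 1, ¬ W E (7 * j) (u 0) (u (idx j + 3)) := fun j hj =>
      Nat.findGreatest_is_greatest (P := fun i => W E (7 * j) (u 0) (u i))
        (show idx j < idx j + 3 by omega) (i3 j hj)
    have i5 : ∀ j j', j < j' → j' ≤ a + 1 → idx j + 4 ≤ idx j' := by
      intro j j' hjj hj'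
      have h4 : idx j + 4 ≤ K := by
        have := i0 j 3 (by omega)
        omega
      have w2 := (i2 j).trans (walk 4 (idx j) (by omega))
      exact Nat.le_findGreatest (P := fun i => W E (7 * j') (u 0) (u i)) h4 (w2.mono (by omega))
    have key : ∀ j j' e e', j < j' → j' ≤ a + 1 →
        W E 3 (u (idx j)) e → W E 3 e (u (idx j + 3)) →
        W E 3 (u (idx j')) e' → W E 3 e' (u (idx j' + 3)) → e ≠ e' ∧ ¬ E e e' ∧ ¬ E e' e := by
      intro j j' e e' hjj hj' p1 p2 q1 q2
      have fw : ¬ (e = e' ∨ E e e') := by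
        intro h
        exact i4 j' hj' (((((i2 j).trans p1).trans (W.one h)).trans q2).mono (by omega))
      refine ⟨fun h => fw (Or.inl h), fun h => fw (Or.inr h), fun h => ?_⟩
      have h5 := i5 j j' hjj hj'
      have h1 := i1 j'
      refine ih (idx j' - (idx j + 3)) (by omega) (fun i => u (idx j + 3 + i)) (by omega) ?_ ?_
      · intro i hi
        exact hs (idx j + 3 + i) (by omega)
      · have e : idx j + 3 + (idx j' - (idx j + 3)) = idx j' := by omega
        simp only [e, Nat.add_zero]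
        exact (q1.trans (W.e h)).trans p2
    have key' : ∀ j j' e e', j ≠ j' → j ≤ a + 1 → j' ≤ a + 1 →
        W E 3 (u (idx j)) e → W E 3 e (u (idx j + 3)) →
        W E 3 (u (idx j')) e' → W E 3 e' (u (idx j' + 3)) → e ≠ e' ∧ ¬ E e e' ∧ ¬ E e' e := by
      intro j j' e e' hjj hj hj' p1 p2 q1 q2
      rcases lt_or_gt_of_ne hjj with h | h
      · exact key j j' e e' h hj' p1 p2 q1 q2
      · have := key j' j e' e h hj q1 q2 p1 p2
        exact ⟨this.1.symm, this.2.2, this.2.1⟩
    have hst : ∀ j, ∃ t, ∃ Z : Finset V, j ≤ a + 1 → ((a + 2) * t < Z.card ∧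
        m M (u (idx j)) ≤ t ∧ m M (u (idx j + 1)) ≤ t ∧
        ∀ z ∈ Z, m M z ≤ t ∧ W E 3 (u (idx j)) z ∧ W E 3 z (u (idx j + 3))) := by
      intro j
      by_cases hj : j ≤ a + 1
      · have h3 := i3 j hj
        obtain ⟨t, Z, h⟩ := stretch (hs (idx j) (by omega)) (hs (idx j + 1) (by omega))
          (hs (idx j + 1 + 1) (by omega))
        exact ⟨t, Z, fun _ => h⟩
      · exact ⟨0, ∅, fun h => absurd h hj⟩
    choose t Z hZ using hst
    obtain ⟨j0, hj0, hmin⟩ := exists_min_image (range (a + 2)) t ⟨0, by simp⟩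
    have hj0' : j0 ≤ a + 1 := by have := mem_range.1 hj0; omega
    have hI : ∀ j ∈ (range (a + 2)).erase j0, j ≠ j0 ∧ j ≤ a + 1 ∧ t j0 ≤ t j := by
      intro j hj
      obtain ⟨h1, h2⟩ := mem_erase.1 hj
      exact ⟨h1, by have := mem_range.1 h2; omega, hmin j h2⟩
    let B : Finset V := (univ.filter fun z => M (u (idx j0)) z) ∪
      (univ.filter fun z => M (u (idx j0 + 1)) z)
    have hB : B.card ≤ 2 * t j0 := by
      have h1 := card_union_le (univ.filter fun z => M (u (idx j0)) z)
        (univ.filter fun z => M (u (idx j0 + 1)) z)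
      have h2 : (univ.filter fun z => M (u (idx j0)) z).card ≤ t j0 := (hZ j0 hj0').2.1
      have h3 : (univ.filter fun z => M (u (idx j0 + 1)) z).card ≤ t j0 := (hZ j0 hj0').2.2.1
      show (_ ∪ _ : Finset V).card ≤ _
      omega
    have hcard : ((range (a + 2)).erase j0).card = a + 1 := by
      rw [card_erase_of_mem hj0, card_range]
      omega
    obtain ⟨f, hf1, hf2⟩ := pick hM (u 0) a t (fun j => Z j \ B) ((range (a + 2)).erase j0)
      hcard.le
      (fun j hj => by
        obtain ⟨_, h2, h3⟩ := hI j hj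
        have h4 := (hZ j h2).1
        have h5 := le_card_sdiff B (Z j)
        have e : (a + 2) * t j = a * t j + 2 * t j := by ring
        omega)
      (fun j hj z hz => ((hZ j (hI j hj).2.1).2.2.2 z (mem_sdiff.1 hz).1).1)
    have hq : ∀ j ∈ (range (a + 2)).erase j0,
        W E 3 (u (idx j)) (f j) ∧ W E 3 (f j) (u (idx j + 3)) := fun j hj =>
      ((hZ j (hI j hj).2.1).2.2.2 _ (mem_sdiff.1 (hf1 j hj)).1).2
    have hinj : Set.InjOn f ((range (a + 2)).erase j0 : Finset ℕ) := by
      intro j hj j' hj' e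
      by_contra hne
      exact (key' j j' _ _ hne (hI j hj).2.1 (hI j' hj').2.1 (hq j hj).1 (hq j hj).2
        (hq j' hj').1 (hq j' hj').2).1 e
    have h3 := i3 j0 hj0'
    have := hind (u (idx j0)) (u (idx j0 + 1)) (hs (idx j0) (by omega)).1
      (((range (a + 2)).erase j0).image f) (by
        intro x hx y hy hxy
        obtain ⟨j, hj, rfl⟩ := mem_image.1 hx
        obtain ⟨j', hj', rfl⟩ := mem_image.1 hy
        have hjj : j ≠ j' := fun e => hxy (e ▸ rfl)
        exact ⟨(key' j j' _ _ hjj (hI j hj).2.1 (hI j' hj').2.1 (hq j hj).1 (hq j hj).2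
          (hq j' hj').1 (hq j' hj').2).2.1, hf2 j hj j' hj' hjj⟩)
      (by
        intro x hx
        obtain ⟨j, hj, rfl⟩ := mem_image.1 hx
        have k1 := key' j j0 (f j) (u (idx j0)) (hI j hj).1 (hI j hj).2.1 hj0' (hq j hj).1
          (hq j hj).2 (W.refl _ _ _) (walk 3 (idx j0) (by omega))
        have k2 := key' j j0 (f j) (u (idx j0 + 1)) (hI j hj).1 (hI j hj).2.1 hj0' (hq j hj).1
          (hq j hj).2 ((walk 1 (idx j0) (by omega)).mono (by omega))
          ((walk 2 (idx j0 + 1) (by omega)).mono (by omega))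
        have hb := (mem_sdiff.1 (hf1 j hj)).2
        simp only [B, mem_union, mem_filter, mem_univ, true_and, not_or] at hb
        exact ⟨k1.2.1, k1.2.2, k2.2.1, k2.2.2, hb.1, hb.2⟩)
    rw [card_image_of_injOn hinj, hcard] at this
    omega

omit [Fintype V] in
theorem half {Q : V → V → Prop} (hQ : ∀ x y, Q x y → ¬ Q y x) (S : Finset V) (hS : S.Nonempty) :
    ∃ y ∈ S, 2 * (S.filter fun z => Q y z).card ≤ S.card := by
  have e : ∑ y ∈ S, (S.filter fun z => Q y z).card = ∑ y ∈ S, (S.filter fun z => Q z y).card := by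
    simp only [card_filter]
    exact sum_comm
  have h1 : ∀ y ∈ S, (S.filter fun z => Q y z).card + (S.filter fun z => Q z y).card ≤ S.card := by
    intro y _
    rw [← card_union_of_disjoint]
    · exact card_le_card (union_subset (filter_subset _ _) (filter_subset _ _))
    · exact disjoint_left.2 fun z h1 h2 => hQ _ _ (mem_filter.1 h1).2 (mem_filter.1 h2).2
  have h2 := sum_le_sum h1
  rw [sum_add_distrib, ← e] at h2
  refine exists_le_of_sum_le hS ?_
  rw [← mul_sum]
  omega

theorem bad {E M : V → V → Prop} (hM : ∀ x y, M x y → M y x) (a c : ℕ)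
    (hanti : ∀ y z, (E y z ∨ ∃ w, E y w ∧ E w z) → ¬ (E z y ∨ ∃ w, E z w ∧ E w y))
    (hind : Free E M a) (x : V) :
    (univ.filter fun y => E x y ∧ ¬ Go E M c x y).card
      ≤ 2 * (c + 2 + a * (2 * c + 1)) * m M x := by
  set S := univ.filter fun y => E x y ∧ ¬ Go E M c x y with hS
  have hw : ∀ y ∈ S, E x y ∧ m M y ≤ m M x ∧ ∃ y', E y y' ∧ m M y' ≤ m M x ∧
      (Zo E M x y y').card ≤ c * m M x := by
    intro y hy
    obtain ⟨h1, h2⟩ := (mem_filter.1 hy).2
    unfold Go at h2
    push Not at h2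
    exact ⟨h1, h2⟩
  rcases S.eq_empty_or_nonempty with h | hne
  · rw [h]; simp
  obtain ⟨y, hy, hhalf0⟩ := half hanti S hne
  have hhalf : 2 * (S.filter fun z => E y z ∨ ∃ w, E y w ∧ E w z).card ≤ S.card := by
    convert hhalf0
  obtain ⟨_, hmy, y', hyy, hmy', hZ⟩ := hw y hy
  let N : Finset V := S.filter fun z =>
    ¬ E z y ∧ ¬ E y z ∧ ¬ E z y' ∧ ¬ E y' z ∧ ¬ M y z ∧ ¬ M y' z
  have hN : N.card ≤ a * (2 * (c * m M x) + m M x) := by
    refine small (E := E) hM (c * m M x) (m M x) a N ?_ ?_ ?_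
    · intro h hh
      obtain ⟨_, _, h', _, _, hZ'⟩ := hw h (mem_filter.1 hh).1
      refine (card_le_card ?_).trans hZ'
      intro z hz
      obtain ⟨hz1, hz2⟩ := mem_filter.1 hz
      obtain ⟨b1, b2, _⟩ := hw z (mem_filter.1 hz1).1
      exact mem_filter.2 ⟨mem_univ _, b1, b2, hz2.imp id Or.inl⟩
    · intro h hh
      exact (hw h (mem_filter.1 hh).1).2.1
    · intro T hT hTi
      exact hind y y' hyy T hTi fun z hz => (mem_filter.1 (hT hz)).2
  have hsub : S ⊆ Zo E M x y y' ∪ (univ.filter fun z => M y z) ∪ (univ.filter fun z => M y' z) ∪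
      (S.filter fun z => E y z ∨ ∃ w, E y w ∧ E w z) ∪ N := by
    intro z hz
    obtain ⟨b1, b2, _⟩ := hw z hz
    simp only [N, Zo, mem_union, mem_filter, mem_univ, true_and, hz, b1, b2]
    by_cases h1 : E y' z
    · exact Or.inl (Or.inr (Or.inr ⟨y', hyy, h1⟩))
    · tauto
  have c1 := card_le_card hsub
  have c2 := card_union_le (Zo E M x y y' ∪ (univ.filter fun z => M y z) ∪
    (univ.filter fun z => M y' z) ∪ (S.filter fun z => E y z ∨ ∃ w, E y w ∧ E w z)) N
  have c3 := card_union_le (Zo E M x y y' ∪ (univ.filter fun z => M y z) ∪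
    (univ.filter fun z => M y' z)) (S.filter fun z => E y z ∨ ∃ w, E y w ∧ E w z)
  have c4 := card_union_le (Zo E M x y y' ∪ (univ.filter fun z => M y z))
    (univ.filter fun z => M y' z)
  have c5 := card_union_le (Zo E M x y y') (univ.filter fun z => M y z)
  have c6 : (univ.filter fun z => M y z).card ≤ m M x := hmy
  have c7 : (univ.filter fun z => M y' z).card ≤ m M x := hmy'
  have e : 2 * (c + 2 + a * (2 * c + 1)) * m M x
      = 2 * (c * m M x + 2 * m M x + a * (2 * (c * m M x) + m M x)) := by ring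
  omega

theorem core {E M : V → V → Prop} (hM : ∀ x y, M x y → M y x) (a : ℕ)
    (hg : ∀ x y, W E (7 * a + 16) x y → ¬ E y x) (hind : Free E M a) :
    (∀ x, ¬ Relation.TransGen (Rb E M (a + 2)) x x) ∧
    (univ.filter fun e : V × V => E e.1 e.2 ∧ ¬ Rb E M (a + 2) e.1 e.2).card
      ≤ 2 * (4 * a ^ 2 + 12 * a + 8) * ∑ v, m M v := by
  refine ⟨fun x hx => ?_, ?_⟩
  · obtain ⟨L, u, h1, h0, hL, hs⟩ := chain_of_transGen hx
    exact noback hM a hg hind L u h1 hs (by rw [h0, hL]; exact W.refl _ _ _)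
  have hanti : ∀ y z, (E y z ∨ ∃ w, E y w ∧ E w z) → ¬ (E z y ∨ ∃ w, E z w ∧ E w y) := by
    intro y z h1 h2
    have w : W E 2 y z := by
      rcases h1 with h | ⟨w, h, h'⟩
      · exact (W.e h).mono (by omega)
      · exact (W.e h).trans (W.e h')
    rcases h2 with h | ⟨w', h, h'⟩
    · exact hg y z (w.mono (by omega)) h
    · exact hg y w' ((w.trans (W.e h)).mono (by omega)) h'
  have hout := fun x => bad hM a (a + 2) hanti hind x
  have hin := fun x => bad (E := fun a b => E b a) hM a (a + 2)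
    (fun y z h1 h2 => hanti z y (h1.imp id fun ⟨w, h, h'⟩ => ⟨w, h', h⟩)
      (h2.imp id fun ⟨w, h, h'⟩ => ⟨w, h', h⟩))
    (fun y y' h S h1 h2 => hind y' y h S
      (fun x hx z hz hxz => ⟨(h1 z hz x hx hxz.symm).1, (h1 x hx z hz hxz).2⟩)
      (fun z hz => by
        obtain ⟨b1, b2, b3, b4, b5, b6⟩ := h2 z hz
        exact ⟨b4, b3, b2, b1, b6, b5⟩)) x
  have e1 : (univ.filter fun e : V × V => E e.1 e.2 ∧ ¬ Go E M (a + 2) e.1 e.2).card
      = ∑ v, (univ.filter fun y => E v y ∧ ¬ Go E M (a + 2) v y).card := by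
    simp only [card_filter]
    exact Fintype.sum_prod_type _
  have e2 : (univ.filter fun e : V × V =>
        E e.1 e.2 ∧ ¬ Go (fun a b => E b a) M (a + 2) e.2 e.1).card
      = ∑ v, (univ.filter fun y => E y v ∧ ¬ Go (fun a b => E b a) M (a + 2) v y).card := by
    simp only [card_filter]
    exact Fintype.sum_prod_type_right _
  have s1 := sum_le_sum fun v (_ : v ∈ (univ : Finset V)) => hout v
  have s2 := sum_le_sum fun v (_ : v ∈ (univ : Finset V)) => hin v
  rw [← mul_sum] at s1 s2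
  have hsub : (univ.filter fun e : V × V => E e.1 e.2 ∧ ¬ Rb E M (a + 2) e.1 e.2) ⊆
      (univ.filter fun e : V × V => E e.1 e.2 ∧ ¬ Go E M (a + 2) e.1 e.2) ∪
      (univ.filter fun e : V × V => E e.1 e.2 ∧ ¬ Go (fun a b => E b a) M (a + 2) e.2 e.1) := by
    intro e he
    obtain ⟨h1, h2⟩ := (mem_filter.1 he).2
    by_cases h : Go E M (a + 2) e.1 e.2
    · exact mem_union_right _ (mem_filter.2 ⟨mem_univ _, h1, fun h' => h2 ⟨h1, h, h'⟩⟩)
    · exact mem_union_left _ (mem_filter.2 ⟨mem_univ _, h1, h⟩)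
  have := (card_le_card hsub).trans (card_union_le _ _)
  rw [e1, e2] at this
  have e : 2 * (a + 2 + 2 + a * (2 * (a + 2) + 1)) = 4 * a ^ 2 + 12 * a + 8 := by ring
  rw [e] at s1 s2
  rw [mul_assoc, two_mul]
  exact this.trans (Nat.add_le_add s1 (by convert s2))

theorem main (a : ℕ) (A : V → V → Prop)
    (hA : ∀ y y', A y y' → y ≠ y' → ∀ S : Finset V, (∀ x ∈ S, ∀ z ∈ S, x ≠ z → ¬ A x z) →
      (∀ z ∈ S, ¬ A z y ∧ ¬ A y z ∧ ¬ A z y' ∧ ¬ A y' z) → S.card ≤ a) :
    ∃ F : Finset (V × V),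
      (∀ v : V, ¬ Relation.TransGen (fun x y => A x y ∧ (x, y) ∉ F) v v) ∧
      ∃ k : ℕ, ∃ C : Fin k → Finset (V × V),
        (∀ i j : Fin k, i ≠ j → Disjoint (C i) (C j)) ∧
        (∀ i : Fin k, (C i).card ≤ 7 * a + 17 ∧
          ∃ v : V, Relation.TransGen (fun x y => A x y ∧ (x, y) ∈ C i) v v) ∧
        F.card ≤ (7 * a + 17) * (16 * a ^ 2 + 48 * a + 33) * k := by
  obtain ⟨T, t1, t2, t3⟩ := pack A (7 * a + 16)
  set R : Finset (V × V) := T.biUnion id with hR
  obtain ⟨hac, hr⟩ := core (E := fun x y => A x y ∧ (x, y) ∉ R)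
    (M := fun x y => (x, y) ∈ R ∨ (y, x) ∈ R) (fun _ _ h => h.symm) a t3 (by
      intro y y' h S h1 h2
      refine hA y y' h.1 ?_ S (fun x hx z hz hxz h' => ?_) (fun z hz => ?_)
      · rintro rfl
        exact t3 y y (W.refl _ _ _) h
      · obtain ⟨b1, b2⟩ := h1 x hx z hz hxz
        exact b1 ⟨h', fun h3 => b2 (Or.inl h3)⟩
      · obtain ⟨b1, b2, b3, b4, b5, b6⟩ := h2 z hz
        exact ⟨fun h' => b1 ⟨h', fun h3 => b5 (Or.inr h3)⟩,
          fun h' => b2 ⟨h', fun h3 => b5 (Or.inl h3)⟩,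
          fun h' => b3 ⟨h', fun h3 => b6 (Or.inr h3)⟩,
          fun h' => b4 ⟨h', fun h3 => b6 (Or.inl h3)⟩⟩)
  have hRc : R.card ≤ T.card * (7 * a + 17) := by
    refine card_biUnion_le.trans ?_
    exact (sum_le_card_nsmul T _ (7 * a + 17) fun C hC => (t2 C hC).1).trans (by simp)
  have hm := sum_m R
  set Q : V → V → Prop := Rb (fun x y => A x y ∧ (x, y) ∉ R)
    (fun x y => (x, y) ∈ R ∨ (y, x) ∈ R) (a + 2) with hQ
  refine ⟨R ∪ univ.filter fun e : V × V => (A e.1 e.2 ∧ (e.1, e.2) ∉ R) ∧ ¬ Q e.1 e.2, ?_,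
    T.card, fun i => (T.equivFin.symm i : Finset (V × V)), ?_, ?_, ?_⟩
  · intro v hv
    refine hac v (Relation.TransGen.mono ?_ v v hv)
    intro x y h
    by_contra hc
    refine h.2 (mem_union_right _ (mem_filter.2 ⟨mem_univ _, ⟨h.1, fun h3 => ?_⟩, hc⟩))
    exact h.2 (mem_union_left _ h3)
  · intro i j hij
    refine t1 _ (T.equivFin.symm i).2 _ (T.equivFin.symm j).2 fun e => hij ?_
    exact T.equivFin.symm.injective (Subtype.ext e)
  · intro i
    exact t2 _ (T.equivFin.symm i).2
  · refine (card_union_le _ _).trans ?_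
    have h1 : 2 * (4 * a ^ 2 + 12 * a + 8) * ∑ v, m (fun x y => (x, y) ∈ R ∨ (y, x) ∈ R) v
        ≤ 2 * (4 * a ^ 2 + 12 * a + 8) * (2 * R.card) := Nat.mul_le_mul_left _ hm
    calc _ ≤ R.card + 2 * (4 * a ^ 2 + 12 * a + 8) * (2 * R.card) :=
          Nat.add_le_add_left (Nat.le_trans (by convert hr) h1) _
      _ = (16 * a ^ 2 + 48 * a + 33) * R.card := by ring
      _ ≤ (16 * a ^ 2 + 48 * a + 33) * (T.card * (7 * a + 17)) := Nat.mul_le_mul_left _ hRc
      _ = _ := by ring

end Pool.Agent.MP_906bc3_co.EdgeFree
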