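import Mathlib
import Pool.Agent.Lib.MP_906bc3_co.EdgeFree

set_option autoImplicit false

namespace Pool.Agent.Lib.MP_906bc3_co.EdgePlusIndependentFree

/-- If for every arc y → y' (y ≠ y') every set of pairwise non-adjacent vertices adjacent to
neither y nor y' has at most a elements, then there are a feedback arc set F and k pairwise
arc-disjoint sets of at most 7a+17 arcs, each containing a directed cycle, with
|F| at most (7a+17)(16a^2+48a+33) k. -/
theorem result (a n : ℕ) (G : Digraph (Fin n))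
    (hG : ∀ y y' : Fin n, G.Adj y y' → y ≠ y' → ∀ S : Finset (Fin n),
      (∀ x ∈ S, ∀ z ∈ S, x ≠ z → ¬ G.Adj x z) →
      (∀ z ∈ S, ¬ G.Adj z y ∧ ¬ G.Adj y z ∧ ¬ G.Adj z y' ∧ ¬ G.Adj y' z) → S.card ≤ a) :
    ∃ F : Finset (Fin n × Fin n),
      (∀ v : Fin n, ¬ Relation.TransGen (fun x y => G.Adj x y ∧ (x, y) ∉ F) v v) ∧
      ∃ k : ℕ, ∃ C : Fin k → Finset (Fin n × Fin n),
        (∀ i j : Fin k, i ≠ j → Disjoint (C i) (C j)) ∧
        (∀ i : Fin k, (C i).card ≤ 7 * a + 17 ∧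
          ∃ v : Fin n, Relation.TransGen (fun x y => G.Adj x y ∧ (x, y) ∈ C i) v v) ∧
        F.card ≤ (7 * a + 17) * (16 * a ^ 2 + 48 * a + 33) * k :=
  Pool.Agent.MP_906bc3_co.EdgeFree.main a G.Adj hG

end Pool.Agent.Lib.MP_906bc3_co.EdgePlusIndependentFree
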