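import Mathlib

/-! Balls in digraphs without short cycles: adding an isolated vertex to an induced pattern. -/

set_option autoImplicit false

namespace Pool.Agent.Lib.MP_906bc3_co.Iso

open Finset

variable {V : Type}

/-- `y` is reached from `x` in at most `k` steps -/
def Bl (E : V → V → Prop) : ℕ → V → V → Prop
  | 0, x, y => x = y
  | k + 1, x, y => x = y ∨ ∃ z, E x z ∧ Bl E k z y

/-- `y` is reached from `x` in at least one and at most `k + 1` steps -/
def Pb (E : V → V → Prop) (k : ℕ) (x y : V) : Prop := ∃ z, E x z ∧ Bl E k z y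

variable {E : V → V → Prop}

theorem Bl.rfl' (k : ℕ) (x : V) : Bl E k x x := by
  cases k with
  | zero => exact rfl
  | succ k => exact Or.inl rfl

theorem Bl.succ : ∀ {k : ℕ} {x y : V}, Bl E k x y → Bl E (k + 1) x y
  | 0, _, _, h => Or.inl h
  | _ + 1, _, _, h => h.imp id fun ⟨z, h1, h2⟩ => ⟨z, h1, Bl.succ h2⟩

theorem Bl.mono {k l : ℕ} {x y : V} (h : Bl E k x y) (hk : k ≤ l) : Bl E l x y := by
  induction hk with
  | refl => exact h
  | step _ ih => exact ih.succ

theorem Bl.trans : ∀ {k l : ℕ} {x y z : V}, Bl E k x y → Bl E l y z → Bl E (k + l) x z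
  | 0, l, x, y, z, h1, h2 => by
    obtain rfl : x = y := h1
    exact h2.mono (by omega)
  | k + 1, l, x, y, z, h1, h2 => by
    rcases h1 with rfl | ⟨w, h3, h4⟩
    · exact h2.mono (by omega)
    · rw [show k + 1 + l = (k + l) + 1 by omega]
      exact Or.inr ⟨w, h3, Bl.trans h4 h2⟩

theorem Bl.of_arc {x y : V} (h : E x y) : Bl E 1 x y := Or.inr ⟨y, h, rfl⟩

theorem Pb.bl {k : ℕ} {x y : V} (h : Pb E k x y) : Bl E (k + 1) x y := Or.inr h

theorem Pb.mono {k l : ℕ} {x y : V} (h : Pb E k x y) (hk : k ≤ l) : Pb E l x y :=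
  h.imp fun _ h => ⟨h.1, h.2.mono hk⟩

theorem Pb.of_arc {x y : V} (h : E x y) (k : ℕ) : Pb E k x y := ⟨y, h, Bl.rfl' k y⟩

theorem Pb.trans_bl {k l : ℕ} {x y z : V} (h : Pb E k x y) (h' : Bl E l y z) :
    Pb E (k + l) x z := h.imp fun _ h => ⟨h.1, h.2.trans h'⟩

theorem Bl.trans_pb {k l : ℕ} {x y z : V} (h : Bl E k x y) (h' : Pb E l y z) :
    Pb E (k + l) x z := by
  cases k with
  | zero =>
    obtain rfl : x = y := h
    exact h'.mono (by omega)
  | succ k =>
    rcases h with rfl | h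
    · exact h'.mono (by omega)
    · exact (Pb.trans_bl h h'.bl).mono (by omega)

theorem Bl.keep {W : V → Prop} (hW : ∀ x y, E x y → W y) :
    ∀ {k : ℕ} {x y : V}, Bl E k x y → W x → W y
  | 0, _, _, h, hx => (show _ = _ from h) ▸ hx
  | _ + 1, _, _, h, hx => by
    rcases h with rfl | ⟨z, h1, h2⟩
    · exact hx
    · exact Bl.keep hW h2 (hW _ _ h1)

theorem Bl.lift {E' : V → V → Prop} (hE : ∀ x y, E' x y → E x y) :
    ∀ {k : ℕ} {x y : V}, Bl E' k x y → Bl E k x y
  | 0, _, _, h => h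
  | _ + 1, _, _, h => h.imp id fun ⟨z, h1, h2⟩ => ⟨z, hE _ _ h1, Bl.lift hE h2⟩

theorem Pb.lift {E' : V → V → Prop} (hE : ∀ x y, E' x y → E x y) {k : ℕ} {x y : V}
    (h : Pb E' k x y) : Pb E k x y := h.imp fun _ h => ⟨hE _ _ h.1, h.2.lift hE⟩

open Classical in
/-- the number of elements with a property -/
noncomputable def cd [Fintype V] (p : V → Prop) : ℕ := (univ.filter p).card

variable [Fintype V]

theorem cd_mono {p q : V → Prop} (h : ∀ x, p x → q x) : cd p ≤ cd q := by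
  classical
  unfold cd
  exact card_le_card fun x hx => by
    simp only [mem_filter, mem_univ, true_and] at hx ⊢
    exact h x hx

theorem cd_le_add {p q r : V → Prop} (h : ∀ x, p x → q x ∨ r x) : cd p ≤ cd q + cd r := by
  classical
  unfold cd
  refine le_trans (card_le_card fun x hx => ?_) (card_union_le _ _)
  simp only [mem_filter, mem_univ, true_and, mem_union] at hx ⊢
  exact h x hx

theorem cd_le_add3 {p q r s : V → Prop} (h : ∀ x, p x → q x ∨ r x ∨ s x) :
    cd p ≤ cd q + cd r + cd s := by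
  have h1 := cd_le_add (p := p) (q := q) (r := fun x => r x ∨ s x) h
  have h2 := cd_le_add (p := fun x => r x ∨ s x) (q := r) (r := s) fun _ h => h
  omega

theorem exists_of_cd {p : V → Prop} (h : 1 ≤ cd p) : ∃ x, p x := by
  classical
  unfold cd at h
  obtain ⟨x, hx⟩ := card_pos.1 h
  exact ⟨x, (mem_filter.1 hx).2⟩

/-- an antisymmetric relation has a point related to at most half of the set -/
theorem exists_half {p : V → Prop} {ρ : V → V → Prop} (hp : 1 ≤ cd p)
    (h : ∀ y z, ρ y z → ¬ ρ z y) : ∃ y, p y ∧ 2 * cd (fun z => p z ∧ ρ y z) ≤ cd p := by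
  classical
  by_contra hc
  push Not at hc
  set N := univ.filter p with hN
  have e0 : cd p = N.card := by unfold cd; convert rfl
  have e1 : ∀ y, cd (fun z => p z ∧ ρ y z) = (N.filter (ρ y)).card := fun y => by
    unfold cd
    rw [hN, filter_filter]
    convert rfl
  have h1 : ∑ y ∈ N, (N.filter (ρ y)).card = ∑ y ∈ N, (N.filter fun z => ρ z y).card := by
    simp only [card_filter]
    exact sum_comm
  have h2 : ∀ y ∈ N, (N.filter (ρ y)).card + (N.filter fun z => ρ z y).card ≤ N.card :=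
    fun y _ => by
      rw [← card_union_of_disjoint (disjoint_filter.2 fun z _ hz => h y z hz)]
      exact card_le_card (union_subset (filter_subset _ _) (filter_subset _ _))
  have h3 := sum_le_sum h2
  rw [sum_add_distrib, ← h1, ← two_mul, mul_sum] at h3
  have h4 : ∑ _y ∈ N, N.card < ∑ y ∈ N, 2 * (N.filter (ρ y)).card :=
    sum_lt_sum_of_nonempty (card_pos.1 (by omega)) fun y hy => by
      rw [← e0, ← e1]
      exact hc y (mem_filter.1 hy).2
  omega

/-- arcs with head in `W` -/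
def On (E : V → V → Prop) (W : V → Prop) (a b : V) : Prop := E a b ∧ W b

/-- every ball of radius `R` whose points have out-degree above `c` times their `F`-degree has
the property `Φ` -/
def Q (Γ : SimpleGraph V) (E F : V → V → Prop) (Φ : (V → Prop) → Prop) (c R : ℕ) : Prop :=
  ∀ (W : V → Prop) (x : V), W x →
    (∀ a b, W a → W b → Γ.Adj a b → E a b ∨ E b a ∨ F a b) →
    (∀ u, Bl (On E W) R x u → c * cd (F u) < cd (On E W u)) → Φ (Bl (On E W) R x)

theorem arithA {c dt d' du fu ft : ℕ} (h1 : dt ≤ d' + du + fu) (h2 : 3 * du < 2 * dt)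
    (h3 : (4 * c + 6) * fu < du) (h4 : (4 * c + 6) * ft < dt) : c * ft < d' := by
  by_contra h
  push Not at h
  have h5 : (4 * c + 6) * d' ≤ (4 * c + 6) * (c * ft) := Nat.mul_le_mul_left _ h
  have h6 : c * ((4 * c + 6) * ft) ≤ c * dt := Nat.mul_le_mul_left _ h4.le
  have h7 : (4 * c + 6) * dt ≤ (4 * c + 6) * (d' + du + fu) := Nat.mul_le_mul_left _ h1
  have h8 : (4 * c + 7) * (3 * du) ≤ (4 * c + 7) * (2 * dt) := Nat.mul_le_mul_left _ h2.le
  nlinarith [Nat.zero_le (c * dt)]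

theorem arithB {c dt d' h δ fv ft : ℕ} (h1 : dt ≤ d' + h + fv) (h2 : 2 * h ≤ δ)
    (h2' : 2 * δ ≤ 3 * dt) (h3 : (4 * c + 6) * fv < δ) (h4 : (4 * c + 6) * ft < dt) :
    c * ft < d' := by
  by_contra hh
  push Not at hh
  have h5 : (4 * c + 6) * d' ≤ (4 * c + 6) * (c * ft) := Nat.mul_le_mul_left _ hh
  have h6 : c * ((4 * c + 6) * ft) ≤ c * dt := Nat.mul_le_mul_left _ h4.le
  have h7 : (4 * c + 6) * dt ≤ (4 * c + 6) * (d' + h + fv) := Nat.mul_le_mul_left _ h1
  have h8 : (4 * c + 6) * (2 * h) ≤ (4 * c + 6) * δ := Nat.mul_le_mul_left _ h2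
  have h9 : (4 * c + 8) * (2 * δ) ≤ (4 * c + 8) * (3 * dt) := Nat.mul_le_mul_left _ h2'
  nlinarith

/-- the step: one more vertex, with no edge to a smaller ball that has the property -/
theorem step {Γ : SimpleGraph V} {E F : V → V → Prop} {Φ : (V → Prop) → Prop} {c R : ℕ}
    (hg : ∀ x, ¬ Pb E (2 * R + 3) x x) (hQ : Q Γ E F Φ c R) :
    Q Γ E F (fun B => ∃ (B' : V → Prop) (u : V), Φ B' ∧ B u ∧
      ∀ t, B' t → B t ∧ t ≠ u ∧ ¬ Γ.Adj u t) (4 * c + 6) (2 * R + 4) := by
  classical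
  intro W x hx hA hd
  have hk : ∀ {k : ℕ} {a b : V}, Bl (On E W) k a b → W a → W b :=
    fun h ha => Bl.keep (W := W) (fun _ _ h => h.2) h ha
  have hg' : ∀ y, ¬ Pb (On E W) (2 * R + 3) y y := fun y h => hg y (h.lift fun _ _ h => h.1)
  obtain ⟨v, hv, hmin⟩ := exists_min_image (univ.filter (Bl (On E W) (R + 2) x))
    (fun y => cd (On E W y)) ⟨x, mem_filter.2 ⟨mem_univ _, Bl.rfl' _ _⟩⟩
  have hv' : Bl (On E W) (R + 2) x v := (mem_filter.1 hv).2
  have hmin' : ∀ y, Bl (On E W) (R + 2) x y → cd (On E W v) ≤ cd (On E W y) :=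
    fun y hy => hmin y (mem_filter.2 ⟨mem_univ _, hy⟩)
  -- the common end of both cases
  have fin : ∀ u a : V, W u → W a → Bl (On E W) (2 * R + 4) x u →
      (∀ t, Bl (On E W) (R + 1) a t → Bl (On E W) (2 * R + 4) x t ∧ t ≠ u ∧ ¬ E t u ∧
        c * cd (F t) < cd (On E (fun y => W y ∧ ¬ E u y ∧ ¬ F u y) t)) →
      ∃ (B' : V → Prop) (u : V), Φ B' ∧ Bl (On E W) (2 * R + 4) x u ∧
        ∀ t, B' t → Bl (On E W) (2 * R + 4) x t ∧ t ≠ u ∧ ¬ Γ.Adj u t := by
    intro u a wu wa hu ht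
    obtain ⟨x', hx'⟩ := exists_of_cd (p := On E (fun y => W y ∧ ¬ E u y ∧ ¬ F u y) a) (by
      have := (ht a (Bl.rfl' _ _)).2.2.2
      omega)
    have hl : ∀ t, Bl (On E (fun y => W y ∧ ¬ E u y ∧ ¬ F u y)) R x' t →
        Bl (On E W) (R + 1) a t := fun t h =>
      Or.inr ⟨x', ⟨hx'.1, hx'.2.1⟩, h.lift fun _ _ h => ⟨h.1, h.2.1⟩⟩
    refine ⟨_, u, hQ (fun y => W y ∧ ¬ E u y ∧ ¬ F u y) x' hx'.2
      (fun a b ha hb h => hA a b ha.1 hb.1 h) (fun t h => (ht t (hl t h)).2.2.2), hu,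
      fun t h => ?_⟩
    obtain ⟨k1, k2, k3, -⟩ := ht t (hl t h)
    have k4 : W t ∧ ¬ E u t ∧ ¬ F u t :=
      Bl.keep (W := fun y => W y ∧ ¬ E u y ∧ ¬ F u y) (fun _ _ h => h.2) h hx'.2
    refine ⟨k1, k2, fun hadj => ?_⟩
    rcases hA u t wu k4.1 hadj with k | k | k
    · exact k4.2.1 k
    · exact k3 k
    · exact k4.2.2 k
  by_cases hb : ∃ u, Bl (On E W) (2 * R + 4) x u ∧ 3 * cd (On E W u) < 2 * cd (On E W v)
  · obtain ⟨u, hu, hs⟩ := hb
    have wu : W u := hk hu hx
    have hfar : ¬ Bl (On E W) (R + 2) x u := fun h => by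
      have := hmin' u h
      omega
    refine fin u x wu hx hu fun t ht => ⟨ht.mono (by omega), ?_, fun h => ?_, ?_⟩
    · rintro rfl
      exact hfar ht.succ
    · exact hfar (ht.trans (Bl.of_arc ⟨h, wu⟩))
    · have h1 := hmin' t ht.succ
      refine arithA (dt := cd (On E W t)) (du := cd (On E W u)) (fu := cd (F u))
        (cd_le_add3 fun y hy => ?_) (by omega) (hd u hu) (hd t (ht.mono (by omega)))
      by_cases e1 : E u y
      · exact Or.inr (Or.inl ⟨e1, hy.2⟩)
      · by_cases e2 : F u y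
        · exact Or.inr (Or.inr e2)
        · exact Or.inl ⟨hy.1, hy.2, e1, e2⟩
  · push Not at hb
    have wv : W v := hk hv' hx
    have hdv := hd v (hv'.mono (by omega))
    obtain ⟨a, ha, hh⟩ := exists_half (p := On E W v) (ρ := Pb (On E W) (R + 1)) (by omega)
      fun y z k1 k2 => hg' y ((k1.trans_bl k2.bl).mono (by omega))
    refine fin v a wv ha.2 (hv'.mono (by omega)) fun t ht => ?_
    have h0 : Pb (On E W) (R + 1) v t := ⟨a, ha, ht⟩
    have h1 : Bl (On E W) (2 * R + 4) x t := (hv'.trans h0.bl).mono (by omega)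
    refine ⟨h1, ?_, fun h => ?_, ?_⟩
    · rintro rfl
      exact hg' _ (h0.mono (by omega))
    · exact hg' v ((h0.trans_bl (Bl.of_arc ⟨h, wv⟩)).mono (by omega))
    · refine arithB (dt := cd (On E W t)) (fv := cd (F v))
        (cd_le_add3 fun y hy => ?_) hh (hb t h1) hdv (hd t h1)
      by_cases e1 : E v y
      · exact Or.inr (Or.inl ⟨⟨e1, hy.2⟩, ht.trans_pb (Pb.of_arc hy 0)⟩)
      · by_cases e2 : F v y
        · exact Or.inr (Or.inr e2)
        · exact Or.inl ⟨hy.1, hy.2, e1, e2⟩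

end Pool.Agent.Lib.MP_906bc3_co.Iso
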