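import Pool.Agent.Lib.MP_906bc3_co.NegBase

/-! If the linear bound holds on all digraphs without an induced `M`, then `M` is an induced
subgraph of a path on four vertices plus isolated vertices. -/

set_option autoImplicit false

namespace Pool.Agent.MP_906bc3_co.Neg

open Finset Relation

/-- a feedback arc set at most `c` times a packing of arc-disjoint cycles -/
def Lin (c : ℕ) {W : Type} (R : W → W → Prop) : Prop :=
  ∃ F : Finset (W × W), (∀ v, ¬ TransGen (fun x y => R x y ∧ (x, y) ∉ F) v v) ∧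
    ∃ k : ℕ, ∃ C : Fin k → Finset (W × W), (∀ i j, i ≠ j → Disjoint (C i) (C j)) ∧
      (∀ i, ∃ v, TransGen (fun x y => R x y ∧ (x, y) ∈ C i) v v) ∧ F.card ≤ c * k

theorem tg_lift {α β : Type} {r : α → α → Prop} {p : β → β → Prop} (f : α → β)
    (h : ∀ a b, r a b → TransGen p (f a) (f b)) {a b : α} (hab : TransGen r a b) :
    TransGen p (f a) (f b) := by
  induction hab with
  | single h1 => exact h _ _ h1
  | tail _ h2 ih => exact ih.trans (h _ _ h2)

theorem Lin.equiv {c : ℕ} {W W' : Type} (e : W ≃ W') {R : W → W → Prop}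
    (h : Lin c fun x y => R (e.symm x) (e.symm y)) : Lin c R := by
  obtain ⟨F, h1, k, C, h2, h3, h4⟩ := h
  let j := (e.symm.prodCongr e.symm).toEmbedding
  have hm : ∀ (S : Finset (W' × W')) x y, (x, y) ∈ S.map j ↔ (e x, e y) ∈ S := by
    intro S x y
    simp [j, mem_map_equiv]
  refine ⟨F.map j, fun v hv => h1 (e v) ?_, k, fun i => (C i).map j,
    fun a b hab => (disjoint_map j).mpr (h2 a b hab), fun i => ?_, by simpa using h4⟩
  · exact tg_lift e (fun a b hab =>
      .single ⟨by simpa using hab.1, fun h => hab.2 ((hm _ _ _).mpr h)⟩) hv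
  · obtain ⟨v, hv⟩ := h3 i
    exact ⟨e.symm v, tg_lift e.symm
      (fun a b hab => .single ⟨hab.1, (hm _ _ _).mpr (by simpa using hab.2)⟩) hv⟩

variable {V E : Type} [Fintype V] [Fintype E] {t h : E → V}

theorem not_lin {c : ℕ} (hB : Bad (32 * c + 1) t h) {W : Type} (R : W → W → Prop)
    (a : E → W × W) (χ : W × W → E) (Φ : Finset (W × W)) (hΦ : Φ.card ≤ Fintype.card V ^ 2)
    (lift : ∀ (F : Finset (W × W)) T, Closed t h T → (∀ p ∈ F, χ p ∉ T) →
      ∃ v, TransGen (fun x y => R x y ∧ (x, y) ∉ F) v v)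
    (proj : ∀ C : Finset (W × W), Disjoint C Φ →
      (∃ v, TransGen (fun x y => R x y ∧ (x, y) ∈ C) v v) → ∃ T, Closed t h T ∧ ∀ e ∈ T, a e ∈ C) :
    ¬ Lin c R := by
  classical
  rintro ⟨F, h1, k, C, h2, h3, h4⟩
  have f1 : Fintype.card E ≤ 16 * (F.image χ).card := by
    refine hB.fas _ fun T hT => ?_
    by_contra hc
    push Not at hc
    obtain ⟨v, hv⟩ := lift F T hT fun p hp h => hc _ h (mem_image_of_mem _ hp)
    exact h1 v hv
  have f2 : (F.image χ).card ≤ F.card := card_image_le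
  obtain ⟨g, hg⟩ : ∃ g, g = 32 * c + 1 := ⟨_, rfl⟩
  rw [← hg] at hB
  have f3 : ∀ i, g ≤ g * (C i ∩ Φ).card + (univ.filter fun e => a e ∈ C i).card := by
    intro i
    by_cases hd : Disjoint (C i) Φ
    · obtain ⟨T, h5, h6⟩ := proj _ hd (h3 i)
      have := hB.girth T h5
      have h7 : T.card ≤ (univ.filter fun e => a e ∈ C i).card :=
        card_le_card fun e he => mem_filter.mpr ⟨mem_univ _, h6 e he⟩
      omega
    · have : 0 < (C i ∩ Φ).card := card_pos.mpr (not_disjoint_iff_nonempty_inter.mp hd)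
      have := Nat.le_mul_of_pos_right g this
      omega
  have f4 : ∑ i, (C i ∩ Φ).card ≤ Φ.card := by
    rw [← card_biUnion]
    · exact card_le_card (biUnion_subset.mpr fun i _ => inter_subset_right)
    · intro i _ j _ hij
      exact (h2 i j hij).mono inter_subset_left inter_subset_left
  have f5 : ∑ i, (univ.filter fun e => a e ∈ C i).card ≤ Fintype.card E := by
    rw [← card_biUnion]
    · exact card_le_univ _
    · intro i _ j _ hij
      exact disjoint_left.mpr fun e e1 e2 =>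
        disjoint_left.mp (h2 i j hij) (mem_filter.mp e1).2 (mem_filter.mp e2).2
  have f6 := sum_le_sum fun i (_ : i ∈ (univ : Finset (Fin k))) => f3 i
  rw [sum_const, card_univ, Fintype.card_fin, smul_eq_mul, sum_add_distrib, ← mul_sum] at f6
  have f7 : g * ∑ i, (C i ∩ Φ).card ≤ Fintype.card E :=
    (Nat.mul_le_mul_left _ (f4.trans hΦ)).trans hB.many
  have f8 : k * g ≤ 2 * Fintype.card E := by omega
  have f9 : Fintype.card E ≤ 16 * (c * k) := by omega
  have f10 := hB.pos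
  have : g * Fintype.card E ≤ 32 * c * Fintype.card E := by
    calc g * Fintype.card E ≤ g * (16 * (c * k)) := Nat.mul_le_mul_left _ f9
      _ = 16 * c * (k * g) := by ring
      _ ≤ 16 * c * (2 * Fintype.card E) := Nat.mul_le_mul_left _ f8
      _ = _ := by ring
  have := Nat.le_of_mul_le_mul_right this f10
  omega

/-- subdivide every arc and put any relation on the old vertices -/
def RS (t h : E → V) (ρ : V → V → Prop) : V ⊕ E → V ⊕ E → Prop
  | .inl x, .inl y => ρ x y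
  | .inl x, .inr e => t e = x
  | .inr e, .inl y => h e = y
  | .inr _, .inr _ => False

theorem not_lin_RS {c : ℕ} (hB : Bad (32 * c + 1) t h) (ρ : V → V → Prop) :
    ¬ Lin c (RS t h ρ) := by
  classical
  obtain ⟨e0⟩ := Fintype.card_pos_iff.mp hB.pos
  refine not_lin hB _ (fun e => (.inl (t e), .inr e))
    (fun p => p.1.elim (fun _ => p.2.elim (fun _ => e0) id) id)
    (univ.image fun p : V × V => (.inl p.1, .inl p.2))
    (card_image_le.trans (by simp [pow_two])) ?_ ?_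
  · intro F T hT hF
    obtain ⟨v, hv⟩ := closed_loop hT
    refine ⟨.inl v, tg_lift Sum.inl ?_ hv⟩
    rintro x y ⟨e, he, rfl, rfl⟩
    exact TransGen.tail (b := Sum.inr e) (.single ⟨rfl, fun h => hF _ h he⟩) ⟨rfl, fun h => hF _ h he⟩
  · rintro C hC ⟨v, hv⟩
    let T := univ.filter fun e => (Sum.inl (t e), Sum.inr e) ∈ C ∧
      TransGen (fun x y => RS t h ρ x y ∧ (x, y) ∈ C) (.inr e) (.inr e)
    have L1 : ∀ x, TransGen (fun x y => RS t h ρ x y ∧ (x, y) ∈ C) (.inl x) (.inl x) →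
        ∃ e ∈ T, t e = x := by
      intro x hx
      obtain ⟨y | e, ⟨h1, h2⟩, h3⟩ := loop_next hx
      · exact absurd (mem_image.mpr ⟨(x, y), mem_univ _, rfl⟩) (disjoint_left.mp hC h2)
      · obtain rfl : t e = x := h1
        exact ⟨e, mem_filter.mpr ⟨mem_univ _, h2, h3⟩, rfl⟩
    have L2 : ∀ e, TransGen (fun x y => RS t h ρ x y ∧ (x, y) ∈ C) (.inr e) (.inr e) →
        ∃ e' ∈ T, t e' = h e := by
      intro e he
      obtain ⟨y | e', ⟨h1, -⟩, h3⟩ := loop_next he
      · obtain rfl : h e = y := h1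
        exact L1 _ h3
      · exact h1.elim
    refine ⟨T, ⟨?_, fun e he => L2 e (mem_filter.mp he).2.2⟩, fun e he => (mem_filter.mp he).2.1⟩
    rcases v with x | e
    · obtain ⟨e, he, -⟩ := L1 x hv
      exact ⟨e, he⟩
    · obtain ⟨e', he, -⟩ := L2 e hv
      exact ⟨e', he⟩

theorem succ_loop {α : Type} {T : Finset α} {s : α → α → Prop} (h0 : T.Nonempty)
    (hn : ∀ a ∈ T, ∃ b ∈ T, s a b) : ∃ a, TransGen (fun x y => x ∈ T ∧ s x y) a a := by
  by_contra hc
  push Not at hc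
  obtain ⟨e0, he0⟩ := h0
  let ρ : T → T → Prop := fun a b => TransGen (fun x y => x ∈ T ∧ s x y) b.1 a.1
  have : IsTrans T ρ := ⟨fun a b c h1 h2 => h2.trans h1⟩
  have : Std.Irrefl ρ := ⟨fun a h1 => hc _ h1⟩
  obtain ⟨a, -, ha⟩ := (Finite.wellFounded_of_trans_of_irrefl ρ).has_min Set.univ ⟨⟨e0, he0⟩, trivial⟩
  obtain ⟨e', h1, h2⟩ := hn a.1 a.2
  exact ha ⟨e', h1⟩ trivial (TransGen.single ⟨a.2, h2⟩)

/-- the vertex at which an arc end sits -/
def loc (t h : E → V) (w : E × Bool) : V := if w.2 then h w.1 else t w.1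

/-- heads come before tails -/
noncomputable def key (w : E × Bool) : ℕ :=
  (if w.2 then 0 else Fintype.card E) + (Fintype.equivFin E w.1 : ℕ)

theorem key_lt (w : E × Bool) : key w < 2 * Fintype.card E := by
  have := (Fintype.equivFin E w.1).2
  unfold key
  split_ifs <;> omega

theorem key_inj {w w' : E × Bool} (hk : key w = key w') : w = w' := by
  obtain ⟨e, b⟩ := w
  obtain ⟨e', b'⟩ := w'
  have h1 := (Fintype.equivFin E e).2
  have h2 := (Fintype.equivFin E e').2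
  have h3 : (Fintype.equivFin E e : ℕ) = Fintype.equivFin E e' → e = e' :=
    fun h => (Fintype.equivFin E).injective (Fin.ext h)
  cases b <;> cases b' <;> simp only [key, if_true, if_false, Bool.false_eq_true] at hk
  · rw [h3 (by omega)]
  · omega
  · omega
  · rw [h3 (by omega)]

/-- replace every vertex by a transitive tournament on the arc ends -/
def RC (t h : E → V) (w w' : E × Bool) : Prop :=
  (w.2 = false ∧ w' = (w.1, true)) ∨ (loc t h w = loc t h w' ∧ key w < key w')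

theorem not_lin_RC {c : ℕ} (hB : Bad (32 * c + 1) t h) : ¬ Lin c (RC t h) := by
  classical
  refine not_lin hB _ (fun e => ((e, false), (e, true))) (fun p => p.1.1) ∅ (by simp) ?_ ?_
  · intro F T hT hF
    obtain ⟨v, hv⟩ := succ_loop hT.1 hT.2
    refine ⟨(v, false), tg_lift (fun e => (e, false)) ?_ hv⟩
    rintro e e' ⟨he, h1⟩
    refine (TransGen.single (b := (e, true)) ⟨Or.inl ⟨rfl, rfl⟩, fun h => hF _ h he⟩).tail
      ⟨Or.inr ⟨by simp [loc, h1], ?_⟩, fun h => hF _ h he⟩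
    have := (Fintype.equivFin E e).2
    simp only [key, if_true, if_false, Bool.false_eq_true]
    omega
  · rintro C - ⟨v, hv⟩
    let T := univ.filter fun e => ((e, false), (e, true)) ∈ C ∧
      TransGen (fun x y => RC t h x y ∧ (x, y) ∈ C) (e, true) (e, true)
    have L : ∀ N w, 2 * Fintype.card E - key w ≤ N →
        TransGen (fun x y => RC t h x y ∧ (x, y) ∈ C) w w → ∃ e ∈ T, t e = loc t h w := by
      intro N
      induction N with
      | zero => intro w h1; have := key_lt w; omega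
      | succ N ih =>
        rintro ⟨e, b⟩ h1 hw
        obtain ⟨y, ⟨⟨h2, h3⟩ | ⟨h2, h3⟩, h4⟩, h5⟩ := loop_next hw
        · obtain rfl : b = false := h2
          subst h3
          exact ⟨e, mem_filter.mpr ⟨mem_univ _, h4, h5⟩, by simp [loc]⟩
        · rw [h2]
          exact ih y (by omega) h5
    refine ⟨T, ⟨?_, fun e he => ?_⟩, fun e he => (mem_filter.mp he).2.1⟩
    · obtain ⟨e, he, -⟩ := L _ v le_rfl hv
      exact ⟨e, he⟩
    · simpa [loc] using L _ _ le_rfl (mem_filter.mp he).2.2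

theorem embed {U : Type} [Fintype U] (M : SimpleGraph U) (K : U → Prop)
    (k1 : ∀ a b, K a → K b → a ≠ b → M.Adj a b) (k2 : ∀ a b, M.Adj a b → K a ∨ K b)
    (tri : ∀ a b c, M.Adj a b → M.Adj a c → ¬ M.Adj b c)
    (deg : ∀ a b c d, M.Adj a b → M.Adj a c → M.Adj a d → b = c ∨ b = d ∨ c = d) :
    Nonempty (M ↪g (SimpleGraph.pathGraph 4).sum (⊥ : SimpleGraph (Fin (Fintype.card U)))) := by
  classical
  let e := Fintype.equivFin U
  by_cases h0 : ∃ a b, M.Adj a b
  swap
  · push Not at h0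
    exact ⟨⟨⟨fun a => .inr (e a), fun a b hab => e.injective (Sum.inr.inj hab)⟩,
      fun {a b} => by simp [h0 a b]⟩⟩
  obtain ⟨u, w, huw, hc⟩ : ∃ u w, M.Adj u w ∧
      ∀ a b, M.Adj a b → a = u ∨ a = w ∨ b = u ∨ b = w := by
    obtain ⟨u, w0, hu, h1⟩ : ∃ u w, K u ∧ M.Adj u w := by
      obtain ⟨a, b, hab⟩ := h0
      rcases k2 a b hab with h | h
      · exact ⟨a, b, h, hab⟩
      · exact ⟨b, a, h, hab.symm⟩
    by_cases h2 : ∃ w, K w ∧ u ≠ w
    · obtain ⟨w, hw, hne⟩ := h2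
      have h3 : ∀ a, K a → a = u ∨ a = w := by
        intro a ha
        by_contra hn
        push Not at hn
        exact tri a u w (k1 _ _ ha hu hn.1) (k1 _ _ ha hw hn.2) (k1 _ _ hu hw hne)
      refine ⟨u, w, k1 _ _ hu hw hne, fun a b hab => ?_⟩
      rcases k2 a b hab with h | h <;> rcases h3 _ h with h | h <;> simp [h]
    · push Not at h2
      refine ⟨u, w0, h1, fun a b hab => ?_⟩
      rcases k2 a b hab with h | h <;> simp [← h2 _ h]
  let φ : U → Fin 4 ⊕ Fin (Fintype.card U) := fun a =>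
    if a = u then .inl 1 else if a = w then .inl 2 else if M.Adj a u then .inl 0
    else if M.Adj a w then .inl 3 else .inr (e a)
  have hne : w ≠ u := huw.ne'
  have cls : ∀ a, (a = u ∧ φ a = .inl 1) ∨ (a = w ∧ φ a = .inl 2) ∨ (a ≠ u ∧ a ≠ w ∧
      ((M.Adj a u ∧ ¬ M.Adj a w ∧ φ a = .inl 0) ∨ (¬ M.Adj a u ∧ M.Adj a w ∧ φ a = .inl 3) ∨
       (¬ M.Adj a u ∧ ¬ M.Adj a w ∧ φ a = .inr (e a)))) := by
    intro a
    by_cases h1 : a = u
    · exact Or.inl ⟨h1, by simp [φ, h1]⟩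
    by_cases h2 : a = w
    · exact Or.inr (Or.inl ⟨h2, by simp [φ, h2, hne]⟩)
    refine Or.inr (Or.inr ⟨h1, h2, ?_⟩)
    by_cases h3 : M.Adj a u
    · exact Or.inl ⟨h3, fun h4 => tri a u w h3 h4 huw, by simp [φ, h1, h2, h3]⟩
    by_cases h4 : M.Adj a w
    · exact Or.inr (Or.inl ⟨h3, h4, by simp [φ, h1, h2, h3, h4]⟩)
    · exact Or.inr (Or.inr ⟨h3, h4, by simp [φ, h1, h2, h3, h4]⟩)
  have far : ∀ a b, a ≠ u → a ≠ w → b ≠ u → b ≠ w → ¬ M.Adj a b := fun a b h1 h2 h3 h4 h => by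
    rcases hc a b h with h | h | h | h <;> contradiction
  refine ⟨⟨⟨φ, fun a b hab => ?_⟩, fun {a b} => ?_⟩⟩
  · rcases cls a with ⟨a1, a2⟩ | ⟨a1, a2⟩ | ⟨a1, a1', ⟨a3, a4, a2⟩ | ⟨a3, a4, a2⟩ | ⟨a3, a4, a2⟩⟩ <;>
    rcases cls b with ⟨b1, b2⟩ | ⟨b1, b2⟩ | ⟨b1, b1', ⟨b3, b4, b2⟩ | ⟨b3, b4, b2⟩ | ⟨b3, b4, b2⟩⟩ <;>
    rw [a2, b2] at hab <;>
    first
      | exact a1.trans b1.symm
      | exact absurd (Sum.inl.inj hab) (by decide)
      | exact e.injective (Sum.inr.inj hab)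
      | exact absurd hab Sum.inl_ne_inr
      | exact absurd hab Sum.inr_ne_inl
      | exact (deg u a b w (M.adj_symm a3) (M.adj_symm b3) huw).resolve_right
          (not_or.mpr ⟨a1', b1'⟩)
      | exact (deg w a b u (M.adj_symm a4) (M.adj_symm b4) huw.symm).resolve_right
          (not_or.mpr ⟨a1, b1⟩)
  · simp only [Function.Embedding.coeFn_mk]
    have s1 := M.adj_comm a b
    have s2 := far a b
    rcases cls a with ⟨a1, a2⟩ | ⟨a1, a2⟩ | ⟨a1, a1', ⟨a3, a4, a2⟩ | ⟨a3, a4, a2⟩ | ⟨a3, a4, a2⟩⟩ <;>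
    rcases cls b with ⟨b1, b2⟩ | ⟨b1, b2⟩ | ⟨b1, b1', ⟨b3, b4, b2⟩ | ⟨b3, b4, b2⟩ | ⟨b3, b4, b2⟩⟩ <;>
    rw [a2, b2] <;>
    simp only [SimpleGraph.sum_adj, SimpleGraph.pathGraph_adj, SimpleGraph.bot_adj] <;>
    simp_all [huw.symm]

theorem neg {U : Type} [Fintype U] (M : SimpleGraph U) (c : ℕ)
    (hM : ∀ (n : ℕ) (G : Digraph (Fin n)), IsEmpty (M ↪g G.toSimpleGraphInclusive) → Lin c G.Adj) :
    Nonempty (M ↪g (SimpleGraph.pathGraph 4).sum (⊥ : SimpleGraph (Fin (Fintype.card U)))) := by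
  classical
  have tr : ∀ (W : Type) [Fintype W] (R : W → W → Prop), ¬ Lin c R →
      ∃ f : U → W, Function.Injective f ∧
        ∀ a b, M.Adj a b ↔ f a ≠ f b ∧ (R (f a) (f b) ∨ R (f b) (f a)) := by
    intro W _ R hR
    let e := Fintype.equivFin W
    have := mt (hM _ ⟨fun x y => R (e.symm x) (e.symm y)⟩) fun h => hR (Lin.equiv e h)
    obtain ⟨f⟩ := not_isEmpty_iff.mp this
    refine ⟨fun a => e.symm (f a), e.symm.injective.comp f.injective, fun a b => ?_⟩
    rw [← f.map_rel_iff]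
    simp [Digraph.toSimpleGraphInclusive, SimpleGraph.fromRel_adj]
  obtain ⟨n, E, _, t, h, hB⟩ := base (32 * c + 1)
  obtain ⟨f1, i1, h1⟩ := tr _ _ (not_lin_RS hB fun x y => x < y)
  obtain ⟨f2, -, h2⟩ := tr _ _ (not_lin_RS hB fun _ _ => False)
  obtain ⟨f3, i3, h3⟩ := tr _ _ (not_lin_RC hB)
  have col : ∀ a b, M.Adj a b → (f2 a).isLeft ≠ (f2 b).isLeft := by
    intro a b hab
    have := ((h2 a b).mp hab).2
    rcases ha : f2 a with x | x <;> rcases hb : f2 b with y | y <;> simp_all [RS]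
  have tri : ∀ a b c, M.Adj a b → M.Adj a c → ¬ M.Adj b c := by
    intro a b c x y z
    have := col _ _ x
    have := col _ _ y
    have := col _ _ z
    cases ha : (f2 a).isLeft <;> cases hb : (f2 b).isLeft <;> cases hc : (f2 c).isLeft <;> simp_all
  refine embed M (fun a => (f1 a).isLeft) ?_ ?_ tri ?_
  · intro a b ha hb hab
    refine (h1 a b).mpr ⟨i1.ne hab, ?_⟩
    have := i1.ne hab
    obtain ⟨x, hx⟩ := Sum.isLeft_iff.mp ha
    obtain ⟨y, hy⟩ := Sum.isLeft_iff.mp hb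
    rw [hx, hy] at this ⊢
    exact lt_or_gt_of_ne fun e => this (by rw [e])
  · intro a b hab
    have := ((h1 a b).mp hab).2
    rcases ha : f1 a with x | x <;> rcases hb : f1 b with y | y <;> simp_all [RS]
  · have p1 : ∀ a b, M.Adj a b → f3 b = ((f3 a).1, !(f3 a).2) ∨ loc t h (f3 b) = loc t h (f3 a) := by
      intro a b hab
      rcases ((h3 a b).mp hab).2 with (⟨x, y⟩ | ⟨x, -⟩) | (⟨x, y⟩ | ⟨x, -⟩)
      · exact Or.inl (by rw [y, x]; rfl)
      · exact Or.inr x.symm
      · exact Or.inl (by rw [y]; exact Prod.ext rfl x)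
      · exact Or.inr x
    have p2 : ∀ a b, a ≠ b → loc t h (f3 a) = loc t h (f3 b) → M.Adj a b := by
      intro a b hab hl
      refine (h3 a b).mpr ⟨i3.ne hab, ?_⟩
      rcases lt_or_gt_of_ne (fun e => i3.ne hab (key_inj e)) with x | x
      · exact Or.inl (Or.inr ⟨hl, x⟩)
      · exact Or.inr (Or.inr ⟨hl.symm, x⟩)
    intro a b c d x y z
    by_contra hn
    push Not at hn
    obtain ⟨n1, n2, n3⟩ := hn
    rcases p1 _ _ x with x1 | x1 <;> rcases p1 _ _ y with y1 | y1 <;> rcases p1 _ _ z with z1 | z1 <;>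
    first
      | exact n1 (i3 (x1.trans y1.symm))
      | exact n2 (i3 (x1.trans z1.symm))
      | exact n3 (i3 (y1.trans z1.symm))
      | exact tri a b c x y (p2 _ _ n1 (x1.trans y1.symm))
      | exact tri a b d x z (p2 _ _ n2 (x1.trans z1.symm))
      | exact tri a c d y z (p2 _ _ n3 (y1.trans z1.symm))

end Pool.Agent.MP_906bc3_co.Neg
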