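import Mathlib

/-! Multi-digraphs of large directed girth with a linear feedback arc number (counting proof). -/

set_option autoImplicit false

namespace Pool.Agent.MP_906bc3_co.Neg

open Finset

/-- a nonempty set of arcs in which every arc can be continued -/
def Closed {V E : Type} (t h : E → V) (T : Finset E) : Prop :=
  T.Nonempty ∧ ∀ e ∈ T, ∃ e' ∈ T, t e' = h e

theorem loop_next {W : Type} {ρ : W → W → Prop} {v : W} (h : Relation.TransGen ρ v v) :
    ∃ y, ρ v y ∧ Relation.TransGen ρ y y := by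
  obtain ⟨b, h1, h2⟩ := Relation.TransGen.head'_iff.mp h
  exact ⟨b, h1, Relation.TransGen.tail' h2 h1⟩

theorem rank {n : ℕ} (ρ : Fin n → Fin n → Prop) (h : ∀ v, ¬ Relation.TransGen ρ v v) :
    ∃ r : Fin n → Fin n, ∀ x y, ρ x y → r x < r y := by
  classical
  have hlt : ∀ x, (univ.filter fun y => Relation.TransGen ρ y x).card < n := by
    intro x
    have : (univ.filter fun y => Relation.TransGen ρ y x) ⊂ univ :=
      filter_ssubset.mpr ⟨x, mem_univ x, h x⟩
    simpa using card_lt_card this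
  refine ⟨fun x => ⟨_, hlt x⟩, fun x y hxy => ?_⟩
  refine Fin.mk_lt_mk.mpr (card_lt_card ?_)
  refine (ssubset_iff_of_subset ?_).mpr ⟨x, ?_, ?_⟩
  · intro z hz
    simp only [mem_filter, mem_univ, true_and] at hz ⊢
    exact hz.tail hxy
  · simpa using Relation.TransGen.single hxy
  · simpa using h x

theorem fwd_pairs {n : ℕ} (r : Fin n → Fin n) :
    2 * ∑ x : Fin n, ∑ y : Fin n, (if r x < r y then 2 else 1) ≤ 3 * n ^ 2 := by
  have h1 : ∑ x : Fin n, ∑ y : Fin n, (if r x < r y then 2 else 1) =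
      ∑ x : Fin n, ∑ y : Fin n, (if r y < r x then 2 else 1) := sum_comm
  have h2 : ∑ x : Fin n, ∑ y : Fin n, (if r x < r y then 2 else 1) +
      ∑ x : Fin n, ∑ y : Fin n, (if r y < r x then 2 else 1) ≤ ∑ _x : Fin n, ∑ _y : Fin n, 3 := by
    rw [← sum_add_distrib]
    refine sum_le_sum fun x _ => ?_
    rw [← sum_add_distrib]
    refine sum_le_sum fun y _ => ?_
    split_ifs with a b <;> omega
  simp only [sum_const, card_univ, Fintype.card_fin, smul_eq_mul] at h2
  nlinarith

theorem moment {n m : ℕ} (w : Fin n → Fin n → ℕ) :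
    ∑ z : (Fin m → Fin n) × (Fin m → Fin n), ∏ e, w (z.1 e) (z.2 e) =
      (∑ x, ∑ y, w x y) ^ m := by
  classical
  rw [Fintype.sum_prod_type]
  have h1 : ∀ t : Fin m → Fin n, ∑ h : Fin m → Fin n, ∏ e, w (t e) (h e) = ∏ e, ∑ y, w (t e) y := by
    intro t
    rw [prod_univ_sum, Fintype.piFinset_univ]
  simp only [h1]
  have h2 := prod_univ_sum (fun _ : Fin m => (univ : Finset (Fin n))) (fun _ x => ∑ y, w x y)
  rw [Fintype.piFinset_univ] at h2
  rw [← h2]
  simp

theorem bad_rank {n q : ℕ} (r : Fin n → Fin n) :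
    (univ.filter fun z : (Fin (8 * q) → Fin n) × (Fin (8 * q) → Fin n) =>
      7 * q ≤ (univ.filter fun e => r (z.1 e) < r (z.2 e)).card).card * 4 ^ q ≤
      (n ^ 2) ^ (8 * q) := by
  classical
  set A := univ.filter fun z : (Fin (8 * q) → Fin n) × (Fin (8 * q) → Fin n) =>
      7 * q ≤ (univ.filter fun e => r (z.1 e) < r (z.2 e)).card with hA
  set S := ∑ x : Fin n, ∑ y : Fin n, (if r x < r y then 2 else 1) with hS
  have h1 : A.card * 2 ^ (7 * q) ≤ S ^ (8 * q) := by
    rw [hS, ← moment (fun x y => if r x < r y then 2 else 1), ← smul_eq_mul, ← sum_const]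
    refine (sum_le_sum fun z hz => ?_).trans (sum_le_sum_of_subset (subset_univ A))
    rw [prod_ite, prod_const, prod_const_one, mul_one]
    exact Nat.pow_le_pow_right (by norm_num) (mem_filter.mp hz).2
  have h2 : (2 * S) ^ (8 * q) ≤ (3 * n ^ 2) ^ (8 * q) := Nat.pow_le_pow_left (fwd_pairs r) _
  have h3 : 3 ^ (8 * q) * 4 ^ q ≤ 2 ^ (7 * q) * 2 ^ (8 * q) := by
    rw [pow_mul, pow_mul, pow_mul, ← mul_pow, ← mul_pow]
    exact Nat.pow_le_pow_left (by norm_num) _
  rw [mul_pow, mul_pow] at h2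
  have h4 : 0 < 3 ^ (8 * q) := by positivity
  refine Nat.le_of_mul_le_mul_left ?_ h4
  calc 3 ^ (8 * q) * (A.card * 4 ^ q) = A.card * (3 ^ (8 * q) * 4 ^ q) := by ring
    _ ≤ A.card * (2 ^ (7 * q) * 2 ^ (8 * q)) := Nat.mul_le_mul_left _ h3
    _ = 2 ^ (8 * q) * (A.card * 2 ^ (7 * q)) := by ring
    _ ≤ 2 ^ (8 * q) * S ^ (8 * q) := Nat.mul_le_mul_left _ h1
    _ ≤ _ := h2

open Classical in
theorem closed_cnt {n m g : ℕ} (T : Finset (Fin m)) (hT : T.card ≤ g) :
    (univ.filter fun z : (Fin m → Fin n) × (Fin m → Fin n) => Closed z.1 z.2 T).card * n ^ T.card ≤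
      g ^ T.card * (n ^ 2) ^ m := by
  have hm : T.card ≤ m := by simpa using card_le_univ T
  have h1 : ∀ t : Fin m → Fin n, (univ.filter fun h : Fin m → Fin n => Closed t h T).card ≤
      g ^ T.card * n ^ (m - T.card) := by
    intro t
    have : (univ.filter fun h : Fin m → Fin n => Closed t h T) ⊆
        Fintype.piFinset fun e => if e ∈ T then T.image t else univ := by
      intro h hh
      rw [Fintype.mem_piFinset]
      intro e
      split_ifs with he
      · obtain ⟨e', h1, h2⟩ := (mem_filter.mp hh).2.2 e he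
        exact mem_image.mpr ⟨e', h1, h2⟩
      · exact mem_univ _
    refine (card_le_card this).trans ?_
    rw [Fintype.card_piFinset]
    simp only [apply_ite card]
    rw [prod_ite, prod_const, prod_const, filter_mem_eq_inter, univ_inter]
    have e1 : (univ.filter fun e : Fin m => e ∉ T).card = m - T.card := by
      rw [filter_not, filter_mem_eq_inter, univ_inter, card_univ_sdiff, Fintype.card_fin]
    rw [e1, card_univ, Fintype.card_fin]
    exact Nat.mul_le_mul_right _ (Nat.pow_le_pow_left (card_image_le.trans hT) _)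
  have h2 : (univ.filter fun z : (Fin m → Fin n) × (Fin m → Fin n) => Closed z.1 z.2 T).card ≤
      n ^ m * (g ^ T.card * n ^ (m - T.card)) := by
    rw [card_filter, Fintype.sum_prod_type]
    refine (sum_le_sum (g := fun _ => g ^ T.card * n ^ (m - T.card)) fun t _ => ?_).trans_eq
      (by rw [sum_const, card_univ, smul_eq_mul]; simp)
    rw [← card_filter]
    exact h1 t
  calc _ ≤ n ^ m * (g ^ T.card * n ^ (m - T.card)) * n ^ T.card := Nat.mul_le_mul_right _ h2
    _ = g ^ T.card * (n ^ m * (n ^ (m - T.card) * n ^ T.card)) := by ring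
    _ = _ := by rw [← pow_add, Nat.sub_add_cancel hm, ← pow_mul, two_mul, pow_add]

open Classical in
theorem short_sum {n d g : ℕ} (hn : 0 < n) (hd : 0 < d) :
    ∑ z : (Fin (d * n) → Fin n) × (Fin (d * n) → Fin n),
      (univ.filter fun T : Finset (Fin (d * n)) => T.card ≤ g ∧ Closed z.1 z.2 T).card ≤
      (g + 1) * (d * (g + 1)) ^ g * (n ^ 2) ^ (d * n) := by
  have h0 : ∑ z : (Fin (d * n) → Fin n) × (Fin (d * n) → Fin n),
      (univ.filter fun T : Finset (Fin (d * n)) => T.card ≤ g ∧ Closed z.1 z.2 T).card ≤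
      ∑ j ∈ range (g + 1), ∑ T ∈ powersetCard j (univ : Finset (Fin (d * n))),
        (univ.filter fun z : (Fin (d * n) → Fin n) × (Fin (d * n) → Fin n) =>
          Closed z.1 z.2 T).card := by
    simp only [card_filter]
    rw [sum_comm]
    rw [← sum_biUnion]
    · rw [← sum_subset (subset_univ ((range (g + 1)).biUnion fun j => powersetCard j univ))]
      · refine sum_le_sum fun T _ => sum_le_sum fun z _ => ?_
        by_cases h1 : T.card ≤ g <;> by_cases h2 : Closed z.1 z.2 T <;> simp [h1, h2]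
      · intro T _ hT
        have : ¬ T.card ≤ g := fun h => hT (mem_biUnion.mpr
          ⟨T.card, mem_range.mpr (Nat.lt_succ_of_le h), mem_powersetCard.mpr ⟨subset_univ _, rfl⟩⟩)
        simp [this]
    · intro i _ j _ hij
      exact pairwise_disjoint_powersetCard _ hij
  refine h0.trans ?_
  rw [mul_assoc]
  refine (sum_le_sum (g := fun _ => (d * (g + 1)) ^ g * (n ^ 2) ^ (d * n))
    fun j hj => ?_).trans_eq (by simp)
  have hj' : j ≤ g := Nat.lt_succ_iff.mp (mem_range.mp hj)
  refine Nat.le_of_mul_le_mul_right ?_ (pow_pos hn j)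
  rw [sum_mul]
  refine (sum_le_sum (g := fun _ => g ^ j * (n ^ 2) ^ (d * n)) fun T hT => ?_).trans ?_
  · have e := (mem_powersetCard.mp hT).2
    have := closed_cnt (n := n) T (e.trans_le hj')
    rwa [e] at this
  · rw [sum_const, card_powersetCard, card_univ, Fintype.card_fin, smul_eq_mul]
    have h1 : (d * n).choose j ≤ (d * n) ^ j := Nat.choose_le_pow _ _
    have h2 : (d * g) ^ j ≤ (d * (g + 1)) ^ g :=
      (Nat.pow_le_pow_left (Nat.mul_le_mul_left _ (Nat.le_succ g)) j).trans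
        (Nat.pow_le_pow_right (by positivity) hj')
    calc _ ≤ (d * n) ^ j * (g ^ j * (n ^ 2) ^ (d * n)) := Nat.mul_le_mul_right _ h1
      _ = (d * g) ^ j * (n ^ 2) ^ (d * n) * n ^ j := by rw [mul_pow, mul_pow]; ring
      _ ≤ _ := Nat.mul_le_mul_right _ (Nat.mul_le_mul_right _ h2)

theorem exists_ell (K g : ℕ) : ∃ l : ℕ, 1 ≤ l ∧ K * l ^ g ≤ 2 ^ l := by
  have h := tendsto_pow_const_div_const_pow_of_one_lt g (r := 2) (by norm_num)
  have h2 := (h.const_mul (K : ℝ)).eventually (gt_mem_nhds (show (K : ℝ) * 0 < 1 by simp))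
  obtain ⟨l, hl, h1⟩ := (h2.and (Filter.eventually_ge_atTop 1)).exists
  refine ⟨l, h1, ?_⟩
  have h3 : (0 : ℝ) < 2 ^ l := by positivity
  rw [← mul_div_assoc, div_lt_one h3] at hl
  exact_mod_cast hl.le

theorem loop_closed {V E : Type} [Fintype E] (t h : E → V) (S : E → Prop) {v : V}
    (hv : Relation.TransGen (fun x y => ∃ e, S e ∧ t e = x ∧ h e = y) v v) :
    ∃ T, Closed t h T ∧ ∀ e ∈ T, S e := by
  classical
  refine ⟨univ.filter fun e => S e ∧
    Relation.TransGen (fun x y => ∃ e, S e ∧ t e = x ∧ h e = y) (h e) (h e), ⟨?_, ?_⟩, ?_⟩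
  · obtain ⟨y, ⟨e, h1, -, rfl⟩, h3⟩ := loop_next hv
    exact ⟨e, mem_filter.mpr ⟨mem_univ _, h1, h3⟩⟩
  · intro e he
    obtain ⟨y, ⟨e', h1, h2, rfl⟩, h3⟩ := loop_next (mem_filter.mp he).2.2
    exact ⟨e', mem_filter.mpr ⟨mem_univ _, h1, h3⟩, h2⟩
  · intro e he
    exact (mem_filter.mp he).2.1

theorem base0 (g : ℕ) : ∃ (n m : ℕ) (t h : Fin m → Fin n) (D : Finset (Fin m)), 0 < m ∧
    16 * D.card ≤ m ∧ (∀ T, Closed t h T → T.card ≤ g → T ⊆ D) ∧
    ∀ r : Fin n → Fin n, 8 * (univ.filter fun e => r (t e) < r (h e)).card ≤ 7 * m := by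
  classical
  obtain ⟨l, hl1, hl⟩ := exists_ell (4 * g * (g + 1) * (8 * (g + 1)) ^ g) g
  set n := 2 ^ l with hn
  have hn2 : 2 ≤ n := by
    calc 2 = 2 ^ 1 := by norm_num
      _ ≤ 2 ^ l := Nat.pow_le_pow_right (by norm_num) hl1
  have hn0 : 0 < n := by omega
  set B := (g + 1) * (8 * l * (g + 1)) ^ g with hB
  have hB0 : 0 < B := by positivity
  have em : 8 * l * n = 8 * (l * n) := by ring
  have hs := short_sum (n := n) (d := 8 * l) (g := g) hn0 (by omega)
  rw [← hB] at hs
  revert hs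
  rw [em]
  intro hs
  set q := l * n with hq
  set N := (n ^ 2) ^ (8 * q) with hN
  have hN0 : 0 < N := by positivity
  let Ω := (Fin (8 * q) → Fin n) × (Fin (8 * q) → Fin n)
  have hΩ : (univ : Finset Ω).card = N := by
    rw [card_univ, Fintype.card_prod, hN]
    simp only [Fintype.card_pi, Fintype.card_fin, prod_const, card_univ]
    rw [pow_two n, mul_pow]
  let X : Ω → ℕ := fun z =>
    (univ.filter fun T : Finset (Fin (8 * q)) => T.card ≤ g ∧ Closed z.1 z.2 T).card
  let A1 : Finset Ω := univ.filter fun z => 2 * B ≤ X z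
  let A2 : Finset Ω := univ.biUnion fun r : Fin n → Fin n => univ.filter fun z : Ω =>
    7 * q ≤ (univ.filter fun e => r (z.1 e) < r (z.2 e)).card
  have c1 : 2 * A1.card ≤ N := by
    have : A1.card * (2 * B) ≤ B * N := by
      rw [← smul_eq_mul, ← sum_const]
      exact ((sum_le_sum fun z hz => (mem_filter.mp hz).2).trans
        (sum_le_sum_of_subset (subset_univ A1))).trans hs
    refine Nat.le_of_mul_le_mul_left ?_ hB0
    linarith
  have c2 : 4 * A2.card ≤ N := by
    have h1 : A2.card * 4 ^ q ≤ n ^ n * N := by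
      refine (Nat.mul_le_mul_right _ card_biUnion_le).trans ?_
      rw [sum_mul]
      refine (sum_le_sum (g := fun _ => N) fun r _ => bad_rank r).trans_eq ?_
      simp
    have h2 : 4 ^ q = n ^ n * n ^ n := by
      rw [hq, hn, ← pow_mul, ← mul_pow]
      norm_num
    have h3 : 4 ≤ n ^ n := by
      calc 4 = 2 ^ 2 := by norm_num
        _ ≤ n ^ 2 := Nat.pow_le_pow_left hn2 _
        _ ≤ n ^ n := Nat.pow_le_pow_right hn0 hn2
    refine Nat.le_of_mul_le_mul_left ?_ (show 0 < n ^ n by omega)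
    rw [h2] at h1
    calc n ^ n * (4 * A2.card) ≤ n ^ n * (n ^ n * A2.card) :=
          Nat.mul_le_mul_left _ (Nat.mul_le_mul_right _ h3)
      _ = A2.card * (n ^ n * n ^ n) := by ring
      _ ≤ _ := h1
  obtain ⟨z, -, hz⟩ : ∃ z ∈ (univ : Finset Ω), z ∉ A1 ∪ A2 := by
    refine exists_mem_notMem_of_card_lt_card ?_
    have := card_union_le A1 A2
    omega
  rw [mem_union, not_or] at hz
  have z1 : X z ≤ 2 * B := by
    by_contra hc
    exact hz.1 (mem_filter.mpr ⟨mem_univ _, by omega⟩)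
  refine ⟨n, 8 * q, z.1, z.2,
    (univ.filter fun T : Finset (Fin (8 * q)) => T.card ≤ g ∧ Closed z.1 z.2 T).biUnion id,
    by positivity, ?_, ?_, ?_⟩
  · have h1 : ((univ.filter fun T : Finset (Fin (8 * q)) =>
        T.card ≤ g ∧ Closed z.1 z.2 T).biUnion id).card ≤ X z * g :=
      card_biUnion_le_card_mul _ _ _ fun T hT => (mem_filter.mp hT).2.1
    have h2 : 4 * g * B ≤ n := by
      refine le_trans (le_of_eq ?_) hl
      rw [hB, show 8 * l * (g + 1) = 8 * (g + 1) * l by ring, mul_pow]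
      ring
    have h3 : n ≤ q := Nat.le_mul_of_pos_left _ hl1
    have h4 : X z * g ≤ 2 * B * g := Nat.mul_le_mul_right _ z1
    nlinarith
  · intro T h1 h2
    exact subset_biUnion_of_mem id (mem_filter.mpr ⟨mem_univ _, h2, h1⟩)
  · intro r
    by_contra hc
    exact hz.2 (mem_biUnion.mpr ⟨r, mem_univ _, mem_filter.mpr ⟨mem_univ _, by omega⟩⟩)

/-- girth above `g`, every set meeting all closed sets is large, many more arcs than vertices -/
structure Bad (g : ℕ) {V E : Type} [Fintype V] [Fintype E] (t h : E → V) : Prop where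
  pos : 0 < Fintype.card E
  many : g * Fintype.card V ^ 2 ≤ Fintype.card E
  girth : ∀ T, Closed t h T → g < T.card
  fas : ∀ F : Finset E, (∀ T, Closed t h T → ∃ e ∈ T, e ∈ F) → Fintype.card E ≤ 16 * F.card

theorem closed_loop {V E : Type} {t h : E → V} {T : Finset E} (hT : Closed t h T) :
    ∃ v, Relation.TransGen (fun x y => ∃ e ∈ T, t e = x ∧ h e = y) v v := by
  by_contra hc
  push Not at hc
  obtain ⟨⟨e0, he0⟩, hn⟩ := hT
  let ρ : T → T → Prop := fun a b => Relation.TransGen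
    (fun x y => ∃ e ∈ T, t e = x ∧ h e = y) (t b.1) (t a.1)
  have : IsTrans T ρ := ⟨fun a b c h1 h2 => h2.trans h1⟩
  have : Std.Irrefl ρ := ⟨fun a h1 => hc _ h1⟩
  obtain ⟨a, -, ha⟩ := (Finite.wellFounded_of_trans_of_irrefl ρ).has_min Set.univ ⟨⟨e0, he0⟩, trivial⟩
  obtain ⟨e', h1, h2⟩ := hn a.1 a.2
  exact ha ⟨e', h1⟩ trivial (Relation.TransGen.single ⟨a.1, a.2, rfl, h2.symm⟩)

theorem base (g : ℕ) : ∃ (n : ℕ) (E : Type) (_ : Fintype E) (t h : E → Fin n), Bad g t h := by
  classical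
  obtain ⟨n, m, t, h, D, hm, hD, hg, hr⟩ := base0 g
  let E0 := {e : Fin m // e ∉ D}
  have cE : Fintype.card E0 = m - D.card := by
    rw [Fintype.card_subtype_compl, Fintype.card_fin]; simp
  have cE1 : 0 < Fintype.card E0 := by omega
  have fas0 : ∀ F : Finset E0, (∀ T, Closed (fun e : E0 => t e.1) (fun e => h e.1) T →
      ∃ e ∈ T, e ∈ F) → Fintype.card E0 ≤ 16 * F.card := by
    intro F hF
    obtain ⟨r, hr'⟩ := rank (fun x y => ∃ e : E0, e ∉ F ∧ t e.1 = x ∧ h e.1 = y) (by
      intro v hv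
      obtain ⟨T, h1, h2⟩ := loop_closed _ _ _ hv
      obtain ⟨e, h3, h4⟩ := hF T h1
      exact h2 e h3 h4)
    have h1 : (univ \ F).card ≤ (univ.filter fun e => r (t e) < r (h e)).card := by
      refine card_le_card_of_injOn Subtype.val ?_ Subtype.val_injective.injOn
      intro e he
      have : e ∉ F := by simpa using he
      simpa using hr' _ _ ⟨e, this, rfl, rfl⟩
    rw [card_univ_sdiff] at h1
    have := hr r
    omega
  refine ⟨n, E0 × Fin (g * n ^ 2 + 1), inferInstance, fun e => t e.1.1, fun e => h e.1.1, ?_, ?_, ?_, ?_⟩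
  · simp only [Fintype.card_prod, Fintype.card_fin]; positivity
  · simp only [Fintype.card_prod, Fintype.card_fin]
    exact (Nat.le_succ _).trans (Nat.le_mul_of_pos_left _ cE1)
  · intro T hT
    by_contra hc
    have h1 : Closed t h (T.image fun e => e.1.1) := by
      refine ⟨hT.1.image _, fun e he => ?_⟩
      obtain ⟨a, ha, rfl⟩ := mem_image.mp he
      obtain ⟨b, hb, e1⟩ := hT.2 a ha
      exact ⟨_, mem_image_of_mem _ hb, e1⟩
    obtain ⟨a, ha⟩ := hT.1
    exact a.1.2 (hg _ h1 (card_image_le.trans (not_lt.mp hc)) (mem_image_of_mem _ ha))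
  · intro F hF
    have h1 : ∀ j, Fintype.card E0 ≤ 16 * (univ.filter fun e : E0 => (e, j) ∈ F).card := by
      intro j
      refine fas0 _ fun T hT => ?_
      obtain ⟨e, h2, h3⟩ := hF (T.image fun e => (e, j)) ⟨hT.1.image _, fun e he => by
        obtain ⟨a, ha, rfl⟩ := mem_image.mp he
        obtain ⟨b, hb, e1⟩ := hT.2 a ha
        exact ⟨_, mem_image_of_mem _ hb, e1⟩⟩
      obtain ⟨a, ha, rfl⟩ := mem_image.mp h2
      exact ⟨a, ha, by simpa using h3⟩
    have h2 : ∑ j, (univ.filter fun e : E0 => (e, j) ∈ F).card = F.card := by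
      simp only [card_filter]
      rw [sum_comm, ← Fintype.sum_prod_type', ← card_filter]
      simp
    rw [← h2, mul_sum, Fintype.card_prod, mul_comm]
    exact le_trans (by simp) (sum_le_sum fun j _ => h1 j)

end Pool.Agent.MP_906bc3_co.Neg
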