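import Mathlib
import Pool.Agent.Lib.MP_906bc3_co.IsoMain

set_option autoImplicit false

namespace Pool.Agent.Lib.MP_906bc3_co.P3FreeLinear

/-- If the underlying graph of a finite digraph has no induced copy of the path on three vertices
plus s isolated vertices, then the digraph has a feedback arc set F and k pairwise disjoint sets
of at most 2^(s+3) arcs, each containing a directed cycle, with |F| at most 8^(s+2) k. -/
theorem result (s n : ℕ) (G : Digraph (Fin n))
    (hG : IsEmpty ((SimpleGraph.pathGraph 3).sum (⊥ : SimpleGraph (Fin s)) ↪g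
      SimpleGraph.fromRel G.Adj)) :
    ∃ F : Finset (Fin n × Fin n),
      (∀ v : Fin n, ¬ Relation.TransGen (fun x y => G.Adj x y ∧ (x, y) ∉ F) v v) ∧
      ∃ k : ℕ, ∃ C : Fin k → Finset (Fin n × Fin n),
        (∀ i j : Fin k, i ≠ j → Disjoint (C i) (C j)) ∧
        (∀ i : Fin k, (C i).card ≤ 2 ^ (s + 3) ∧
          ∃ v : Fin n, Relation.TransGen (fun x y => G.Adj x y ∧ (x, y) ∈ C i) v v) ∧
        F.card ≤ 8 ^ (s + 2) * k :=
  Pool.Agent.Lib.MP_906bc3_co.Iso.main3 G.Adj s hG

end Pool.Agent.Lib.MP_906bc3_co.P3FreeLinear
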