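import Pool.Agent.Lib.MP_906bc3_co.Depth

/-! Digraphs whose underlying graph has a tree-model of bounded depth with few colours. -/

set_option autoImplicit false

namespace Pool.Agent.Lib.MP_906bc3_co.Shr

open Finset SimpleGraph Pool.Agent.Lib.MP_906bc3_co.Iso Pool.Agent.Lib.MP_906bc3_co.Dep

variable {V : Type}

/-- the radius needed to make one of `n` colours recurrent -/
def rad (f : ℕ → ℕ) (κ : ℕ) : ℕ → ℕ
  | 0 => 0
  | n + 1 => f (κ + rad f κ n) + rad f κ n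

theorem stab {E : V → V → Prop} (f : ℕ → ℕ) (κ : ℕ) (W X : V → Prop) (col : V → ℕ) :
    ∀ (n : ℕ) (x : V), W x →
    (∀ z, W z → Bl E (rad f κ n) x z → ∃ y, X y ∧ col y < n ∧ Bl E κ z y) →
    ∃ x' a s, W x' ∧ Bl E (rad f κ n) x x' ∧ s ≤ κ + rad f κ n ∧
      ∀ z, W z → Bl E (f s) x' z → ∃ y, X y ∧ col y = a ∧ Bl E s z y := by
  intro n
  induction n with
  | zero =>
    intro x hx h
    obtain ⟨y, -, hy, -⟩ := h x hx (Bl.rfl' _ _)
    omega
  | succ n ih =>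
    intro x hx h
    have e : rad f κ (n + 1) = f (κ + rad f κ n) + rad f κ n := rfl
    by_cases k : ∀ z, W z → Bl E (f (κ + rad f κ n)) x z →
        ∃ y, X y ∧ col y = n ∧ Bl E (κ + rad f κ n) z y
    · exact ⟨x, n, κ + rad f κ n, hx, Bl.rfl' _ _, by omega, k⟩
    · push Not at k
      obtain ⟨z0, k1, k2, k3⟩ := k
      obtain ⟨x', a, s, q1, q2, q3, q4⟩ := ih z0 k1 (fun z hz hb => by
        obtain ⟨y, y1, y2, y3⟩ := h z hz (e ▸ k2.trans hb)
        refine ⟨y, y1, ?_, y3⟩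
        by_contra hne
        exact k3 y y1 (by omega) ((hb.trans y3).mono (by omega)))
      exact ⟨x', a, s, q1, e ▸ k2.trans q2, by omega, q4⟩

variable [Fintype V] {Γ : SimpleGraph V} {E F : V → V → Prop} {U : V → Prop} {c g : ℕ}

/-- the pair count at a point of locally least out-degree -/
theorem pc {W T : V → Prop} {N : V → V → Prop} {κ : ℕ} {x0 : V}
    (hU : ∀ a b, E a b → U b) (hA : ∀ a b, U a → U b → Γ.Adj a b → E a b ∨ E b a ∨ F a b)
    (hd : ∀ a, U a → c * cd (F a) < cd (E a)) (hg : ∀ x, ¬ Pb E (2 * κ + 2) x x) (hc : g ≤ c)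
    (hT : ∀ t, T t → U t ∧ c * cd (On E (N t) t) ≤ g * cd (E t)) (h0 : W x0)
    (hne : ∃ t, T t ∧ Bl E κ x0 t)
    (H : ∀ x l, W x → Bl E (κ + 3) x0 x → T l →
      ∃ t, T t ∧ Bl E κ x t ∧ ∀ y, E t y → N t y ∨ Γ.Adj l y) :
    ∃ l, T l ∧ Bl E (κ + 2) x0 l ∧ c * cd (On E W l) ≤ 4 * (g + 1) * cd (E l) := by
  classical
  have out : ∀ l t, T l → (∀ y, E t y → N t y ∨ Γ.Adj l y) → (∀ y, E t y → ¬ E y l) →
      cd (E t) ≤ cd (fun z => E t z ∧ (E l z ∨ F l z)) + cd (On E (N t) t) := by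
    intro l t hl h h'
    refine cd_le_add fun y hy => ?_
    rcases h y hy with q | q
    · exact Or.inr ⟨hy, q⟩
    · rcases hA l y (hT l hl).1 (hU _ _ hy) q with q | q | q
      · exact Or.inl ⟨hy, Or.inl q⟩
      · exact absurd q (h' y hy)
      · exact Or.inl ⟨hy, Or.inr q⟩
  obtain ⟨t0, t1, t2⟩ := hne
  obtain ⟨v, hv, hmin⟩ := exists_min_image (univ.filter fun y => T y ∧ Bl E (κ + 2) x0 y)
    (fun y => cd (E y)) ⟨t0, mem_filter.2 ⟨mem_univ _, t1, t2.mono (by omega)⟩⟩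
  obtain ⟨wv, bv⟩ := (mem_filter.1 hv).2
  have hmin' : ∀ y, T y → Bl E (κ + 2) x0 y → cd (E v) ≤ cd (E y) :=
    fun y h1 h2 => hmin y (mem_filter.2 ⟨mem_univ _, h1, h2⟩)
  obtain ⟨m, rfl⟩ : ∃ m, c = g + m := ⟨c - g, by omega⟩
  have hB : ∀ u, T u → (g + m) * cd (E v) ≤ (g + m) * cd (E u) + (g + 1) * cd (E v) := by
    intro u wu
    by_contra hlt
    have far : ¬ Bl E (κ + 2) x0 u := fun h => by
      have := Nat.mul_le_mul_left (g + m) (hmin' u wu h)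
      omega
    obtain ⟨t, t1, t2, t3⟩ := H x0 u h0 (Bl.rfl' _ _) wu
    have a1 := out u t wu t3 fun y hy e => far ((t2.trans (Bl.of_arc hy)).trans (Bl.of_arc e))
    have a2 : cd (fun z => E t z ∧ (E u z ∨ F u z)) ≤ cd (E u) + cd (F u) :=
      cd_le_add fun _ h => h.2
    have a3 := hd u (hT u wu).1
    have a4 := Nat.mul_le_mul_left m (hmin' t t1 (t2.mono (by omega)))
    have a5 := Nat.mul_le_mul_left (g + m) (a1.trans (Nat.add_le_add_right a2 _))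
    have a6 : cd (E u) ≤ cd (E v) := by
      by_contra e
      have := Nat.mul_le_mul_left (g + m) (show cd (E v) ≤ cd (E u) by omega)
      omega
    have a7 := (hT t t1).2
    nlinarith
  refine ⟨v, wv, bv, ?_⟩
  have ex' : ∀ q, On E W v q → ∃ t, T t ∧ Bl E κ q t ∧ ∀ y, E t y → N t y ∨ Γ.Adj v y :=
    fun q hq => H q v hq.2 (bv.trans (Bl.of_arc hq.1)) wv
  choose! u hu1 hu2 hu3 using ex'
  by_cases h1 : 1 ≤ cd (On E W v)
  swap
  · have : cd (On E W v) = 0 := by omega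
    rw [this]
    omega
  obtain ⟨q, hq, hh⟩ := exists_half (ρ := fun y z => On E W v y ∧ On E W v z ∧ E (u y) z) h1
    (fun y z h1 h2 => hg y (((hu2 y h1.1).trans_pb ⟨z, h1.2.2,
      (hu2 z h1.2.1).trans (Bl.of_arc h2.2.2)⟩).mono (by omega)))
  have a1 : cd (On E W v) ≤ cd (fun z => On E W v z ∧ On E W v q ∧ On E W v z ∧ E (u q) z) +
      cd (fun z => On E W v z ∧ ¬ E (u q) z) := cd_le_add fun z hz => by
    by_cases e : E (u q) z
    · exact Or.inl ⟨hz, hq, hz, e⟩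
    · exact Or.inr ⟨hz, e⟩
  have a2 : cd (fun z => E (u q) z ∧ (E v z ∨ F v z)) + cd (fun z => On E W v z ∧ ¬ E (u q) z) ≤
      cd (fun z => E v z ∨ F v z) :=
    cd_disj (fun _ h => h.2) (fun _ h => Or.inl h.1.1) fun _ h h' => h'.2 h.1
  have a3 : cd (fun z => E v z ∨ F v z) ≤ cd (E v) + cd (F v) := cd_le_add fun _ h => h
  have p0 : Pb E κ v (u q) := ⟨q, hq.1, hu2 q hq⟩
  have a4 := out v (u q) wv (hu3 q hq) fun y hy e =>
    hg v (((p0.trans_bl (Bl.of_arc hy)).trans_bl (Bl.of_arc e)).mono (by omega))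
  have a5 := (hT _ (hu1 q hq)).2
  have a6 := hB _ (hu1 q hq)
  have a7 := hd v (hT v wv).1
  have b1 := Nat.mul_le_mul_left (g + m) a4
  have b3 := Nat.mul_le_mul_left (g + m) (a2.trans a3)
  have b4 : cd (On E W v) ≤ 2 * cd (fun z => On E W v z ∧ ¬ E (u q) z) := by omega
  have b5 := Nat.mul_le_mul_left (g + m) b4
  rcases le_total (cd (E v)) (cd (E (u q))) with e | e
  · have b2 := Nat.mul_le_mul_left m e
    nlinarith
  · have b2 := Nat.mul_le_mul_left g e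
    nlinarith

/-- every point is close to a point of its class with few out-neighbours in the class -/
def Ex {β : Type} (E : V → V → Prop) (U : V → Prop) (nd : V → β) (c k g : ℕ) : Prop :=
  ∀ w, U w → ∃ u, U u ∧ nd u = nd w ∧ Bl E k w u ∧
    c * cd (On E (fun y => nd y = nd u) u) ≤ g * cd (E u)

theorem step (m k : ℕ) : ∃ k' L : ℕ, ∀ {V β : Type} [Fintype V] (Γ : SimpleGraph V)
    (E F : V → V → Prop) (U : V → Prop) (c g : ℕ) (nd nd' : V → β) (col : V → ℕ),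
    (∀ a b, E a b → U b) → (∀ a b, E a b → Γ.Adj a b) →
    (∀ a b, U a → U b → Γ.Adj a b → E a b ∨ E b a ∨ F a b) →
    (∀ a, U a → c * cd (F a) < cd (E a)) → (∀ x, ¬ Pb E L x x) → g ≤ c → (∀ a, col a < m) →
    (∀ a b, nd a = nd b → nd' a = nd' b) →
    (∀ u u' y, col u = col u' → nd' u = nd' u' → nd y ≠ nd u → nd y ≠ nd u' → Γ.Adj u' y →
      Γ.Adj u y) →
    Ex E U nd c k g → Ex E U nd' c k' (4 * (g + 1)) := by
  classical
  let r2 : ℕ → ℕ := fun s => rad (fun s => s + 3) (s + 1 + k) m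
  let f : ℕ → ℕ := fun s => 2 * r2 s + s + 3
  obtain ⟨r1, hr1⟩ : ∃ r1, r1 = rad f k m := ⟨_, rfl⟩
  obtain ⟨B, hBd⟩ : ∃ B, ∀ s, s ≤ k + r1 → r2 s ≤ B :=
    ⟨(range (k + r1 + 1)).sup r2, fun s hs => le_sup (f := r2) (mem_range.2 (by omega))⟩
  refine ⟨3 * r1 + 3 * k + 3 * B + 6, 2 * (r1 + 2 * k + B + 1) + 2,
    fun {V β} _ Γ E F U c g nd nd' col hU hE hA hd hg hc hcol hup htw hx w hw => ?_⟩
  let W : V → Prop := fun y => U y ∧ nd' y = nd' w
  let X : V → Prop := fun u => W u ∧ c * cd (On E (fun y => nd y = nd u) u) ≤ g * cd (E u)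
  have rec0 : ∀ z, W z → ∃ y, X y ∧ nd y = nd z ∧ Bl E k z y := fun z hz => by
    obtain ⟨u, u1, u2, u3, u4⟩ := hx z hz.1
    exact ⟨u, ⟨⟨u1, (hup _ _ u2).trans hz.2⟩, u4⟩, u2, u3⟩
  have fin : ∀ (T : V → Prop) (κ ρ : ℕ) (x0 : V), κ ≤ r1 + 2 * k + B + 1 →
      ρ + (κ + 2) ≤ 3 * r1 + 3 * k + 3 * B + 6 → Bl E ρ w x0 → W x0 → (∀ t, T t → X t) →
      (∃ t, T t ∧ Bl E κ x0 t) → (∀ x l, W x → Bl E (κ + 3) x0 x → T l →
        ∃ t, T t ∧ Bl E κ x t ∧ ∀ y, E t y → nd y = nd t ∨ Γ.Adj l y) →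
      ∃ u, U u ∧ nd' u = nd' w ∧ Bl E (3 * r1 + 3 * k + 3 * B + 6) w u ∧
        c * cd (On E (fun y => nd' y = nd' u) u) ≤ 4 * (g + 1) * cd (E u) := by
    intro T κ ρ x0 h1 h2 h3 h4 h5 h6 h7
    obtain ⟨l, l1, l2, l3⟩ := pc (Γ := Γ) (F := F) (U := U) (W := W) (T := T)
      (N := fun t y => nd y = nd t) hU hA hd (fun x e => hg x (e.mono (by omega))) hc
      (fun t ht => ⟨(h5 t ht).1.1, (h5 t ht).2⟩) h4 h6 h7
    have wl := (h5 l l1).1
    exact ⟨l, wl.1, wl.2, (h3.trans l2).mono h2, le_trans (Nat.mul_le_mul_left _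
      (cd_mono fun y hy => ⟨hy.1, hU _ _ hy.1, hy.2.trans wl.2⟩)) l3⟩
  obtain ⟨x1, a, s, q1, q2, q3, q4⟩ := stab (E := E) f k W X col m w ⟨hw, rfl⟩ (fun z hz _ => by
    obtain ⟨y, y1, -, y3⟩ := rec0 z hz
    exact ⟨y, y1, hcol y, y3⟩)
  rw [← hr1] at q2 q3
  have hs := hBd s q3
  by_cases hI : ∃ x i, W x ∧ Bl E (r2 s + s + 3) x1 x ∧
      ∀ z, W z → Bl E (r2 s) x z → ∃ y, W y ∧ nd y = i ∧ Bl E (s + 1) z y
  · obtain ⟨x, i, i1, i2, i3⟩ := hI
    obtain ⟨x2, b, s2, p1, p2, p3, p4⟩ := stab (E := E) (fun s => s + 3) (s + 1 + k) W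
      (fun y => X y ∧ nd y = i) col m x i1 (fun z hz hb => by
        obtain ⟨y, y1, y2, y3⟩ := i3 z hz hb
        obtain ⟨t, t1, t2, t3⟩ := rec0 y y1
        exact ⟨t, ⟨t1, t2.trans y2⟩, hcol t, y3.trans t3⟩)
    have p2' : Bl E (r2 s) x x2 := p2
    have p3' : s2 ≤ s + 1 + k + r2 s := p3
    refine fin (fun y => (X y ∧ nd y = i) ∧ col y = b) s2 _ x2 (by omega) ?_
      ((q2.trans i2).trans p2') p1 (fun t ht => ht.1.1) ?_ fun z l hz hb hl => ?_
    · omega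
    · obtain ⟨y, y1, y2, y3⟩ := p4 x2 p1 (Bl.rfl' _ _)
      exact ⟨y, ⟨y1, y2⟩, y3⟩
    · obtain ⟨y, y1, y2, y3⟩ := p4 z hz hb
      refine ⟨y, ⟨y1, y2⟩, y3, fun t ht => ?_⟩
      by_cases e : nd t = nd y
      · exact Or.inl e
      · exact Or.inr (htw l y t (hl.2.trans y2.symm) (hl.1.1.1.2.trans y1.1.1.2.symm)
          (fun e' => e (e'.trans (hl.1.2.trans y1.2.symm))) e (hE _ _ ht))
  · push Not at hI
    refine fin (fun y => X y ∧ col y = a) (r2 s + s) r1 x1 (by omega) (by omega) q2 q1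
      (fun t ht => ht.1) ?_ fun x l hz hb hl => ?_
    · obtain ⟨y, y1, y2, y3⟩ := q4 x1 q1 (Bl.rfl' _ _)
      exact ⟨y, ⟨y1, y2⟩, y3.mono (by omega)⟩
    · obtain ⟨z, z1, z2, z3⟩ := hI x (nd l) hz hb
      obtain ⟨y, y1, y2, y3⟩ := q4 z z1 ((hb.trans z2).mono (by
        change _ ≤ 2 * r2 s + s + 3
        omega))
      refine ⟨y, ⟨y1, y2⟩, z2.trans y3, fun t ht => ?_⟩
      by_cases e : nd t = nd y
      · exact Or.inl e
      · exact Or.inr (htw l y t (hl.2.trans y2.symm) (hl.1.1.2.trans y1.1.2.symm)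
          (fun e' => z3 t ⟨hU _ _ ht, (hup _ _ e').trans hl.1.1.2⟩ e' (y3.trans (Bl.of_arc ht)))
          e (hE _ _ ht))

theorem all (m j : ℕ) : ∃ k g L : ℕ, ∀ {V β : Type} [Fintype V] (Γ : SimpleGraph V)
    (E F : V → V → Prop) (U : V → Prop) (c : ℕ) (nd : ℕ → V → β) (col : V → ℕ),
    (∀ a b, E a b → U b) → (∀ a b, E a b → Γ.Adj a b) →
    (∀ a b, U a → U b → Γ.Adj a b → E a b ∨ E b a ∨ F a b) →
    (∀ a, U a → c * cd (F a) < cd (E a)) → (∀ x, ¬ Pb E L x x) → g ≤ c → (∀ a, col a < m) →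
    (∀ a b, nd 0 a = nd 0 b → a = b) →
    (∀ i a b, nd i a = nd i b → nd (i + 1) a = nd (i + 1) b) →
    (∀ i u u' y, col u = col u' → nd (i + 1) u = nd (i + 1) u' → nd i y ≠ nd i u →
      nd i y ≠ nd i u' → Γ.Adj u' y → Γ.Adj u y) →
    Ex E U (nd j) c k g := by
  induction j with
  | zero =>
    refine ⟨0, 0, 0, fun Γ E F U c nd col _ hE _ _ _ _ _ h0 _ _ w hw => ⟨w, hw, rfl, rfl, ?_⟩⟩
    by_contra hne
    obtain ⟨y, hy⟩ := exists_of_cd (p := On E (fun y => nd 0 y = nd 0 w) w) (by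
      by_contra e
      have : cd (On E (fun y => nd 0 y = nd 0 w) w) = 0 := by omega
      rw [this] at hne
      omega)
    exact (hE _ _ hy.1).ne (h0 _ _ hy.2).symm
  | succ j ih =>
    obtain ⟨k, g, L, h⟩ := ih
    obtain ⟨k', L', h'⟩ := step m k
    refine ⟨k', 4 * (g + 1), L + L', fun Γ E F U c nd col h1 h2 h3 h4 h5 h6 h7 h8 h9 h10 => ?_⟩
    exact h' Γ E F U c g (nd j) (nd (j + 1)) col h1 h2 h3 h4
      (fun x e => h5 x (e.mono (by omega))) (by omega) h7 (h9 j) (h10 j)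
      (h Γ E F U c nd col h1 h2 h3 h4 (fun x e => h5 x (e.mono (by omega))) (by omega) h7 h8 h9 h10)

omit [Fintype V] in
theorem twin {d m : ℕ} {p : V → Fin d → ℕ} {col : V → Fin m} {S : Fin m → Fin m → Fin d → Prop}
    (hS : ∀ u v (i : Fin d), p u i ≠ p v i → (∀ i' : Fin d, i' < i → p u i' = p v i') →
      (Γ.Adj u v ↔ S (col u) (col v) i)) (j : ℕ) (u u' y : V) (h1 : col u = col u')
    (h2 : ∀ i : Fin d, i.1 + (j + 1) < d → p u i = p u' i)
    (h3 : ¬ ∀ i : Fin d, i.1 + j < d → p y i = p u i)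
    (h4 : ¬ ∀ i : Fin d, i.1 + j < d → p y i = p u' i) (h5 : Γ.Adj u' y) : Γ.Adj u y := by
  classical
  push Not at h4
  obtain ⟨i0, k1, k2⟩ := h4
  obtain ⟨i, hi, hmin⟩ := exists_min_image (univ.filter fun i : Fin d => p u' i ≠ p y i) id
    ⟨i0, mem_filter.2 ⟨mem_univ _, k2.symm⟩⟩
  have a1 : p u' i ≠ p y i := (mem_filter.1 hi).2
  have a2 : ∀ i' : Fin d, i' < i → p u' i' = p y i' := fun i' h => by
    by_contra e
    exact absurd (hmin i' (mem_filter.2 ⟨mem_univ _, e⟩)) (not_le.2 h)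
  have a3 : i.1 ≤ i0.1 := hmin i0 (mem_filter.2 ⟨mem_univ _, k2.symm⟩)
  have a4 : ∀ i' : Fin d, i' < i → p u i' = p y i' := fun i' h => by
    have : i'.1 < i.1 := h
    exact (h2 i' (by omega)).trans (a2 i' h)
  have a5 : p u i ≠ p y i := fun e => by
    by_cases q : i.1 + (j + 1) < d
    · exact a1 ((h2 i q).symm.trans e)
    · refine h3 fun i' h => ?_
      rcases lt_or_eq_of_le (show i' ≤ i from by
        change i'.1 ≤ i.1
        omega) with r | r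
      · exact (a4 i' r).symm
      · exact r ▸ e.symm
  rw [hS u y i a5 a4, h1, ← hS u' y i a1 a2]
  exact h5

theorem main (d m : ℕ) : ∃ c : ℕ, ∀ {V : Type} [Fintype V] [DecidableEq V] (D : V → V → Prop)
    (p : V → Fin d → ℕ) (col : V → Fin m) (S : Fin m → Fin m → Fin d → Prop),
    Function.Injective p →
    (∀ u v (i : Fin d), p u i ≠ p v i → (∀ i' : Fin d, i' < i → p u i' = p v i') →
      ((fromRel D).Adj u v ↔ S (col u) (col v) i)) →
    ∃ F : Finset (V × V),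
      (∀ v : V, ¬ Relation.TransGen (fun x y => D x y ∧ (x, y) ∉ F) v v) ∧
      ∃ k : ℕ, ∃ C : Fin k → Finset (V × V),
        (∀ i j : Fin k, i ≠ j → Disjoint (C i) (C j)) ∧
        (∀ i : Fin k, ∃ v : V, Relation.TransGen (fun x y => D x y ∧ (x, y) ∈ C i) v v) ∧
        F.card ≤ c * k := by
  obtain ⟨k0, g, L, hs⟩ := all m d
  refine ⟨(g + 1 + 1) * (L + 1), fun {V} _ _ D p col S0 hp hS => ?_⟩
  obtain ⟨S, h1, h2, h3⟩ := packing D L
  set R := S.biUnion id with hR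
  have hc : R.card ≤ S.card * (L + 1) :=
    card_biUnion_le_card_mul S id _ fun c hc => (h2 c hc).1
  let nd : ℕ → V → Fin d → ℕ := fun j u i => if i.1 + j < d then p u i else 0
  have hnd : ∀ j u v, nd j u = nd j v ↔ ∀ i : Fin d, i.1 + j < d → p u i = p v i :=
    fun j u v => ⟨fun e i h => by simpa [nd, h] using congrFun e i, fun e => funext fun i => by
      by_cases h : i.1 + j < d
      · simp [nd, h, e i h]
      · simp [nd, h]⟩
  obtain ⟨X, rk, k1, k2⟩ := peel (G := fun x y => D x y ∧ (x, y) ∉ R) R (g + 1) (fun U hU => by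
    obtain ⟨a, ha⟩ := hU
    by_contra hne
    push Not at hne
    obtain ⟨v, hv, -, -, hd⟩ := hs (fromRel D) (fun x y => (D x y ∧ (x, y) ∉ R) ∧ y ∈ U)
      (fun x y => y ∈ U ∧ ((x, y) ∈ R ∨ (y, x) ∈ R)) (fun y => y ∈ U) (g + 1) nd
      (fun v => (col v).1) (fun _ _ e => e.2)
      (fun p q e => (fromRel_adj _ _ _).2 ⟨by
        rintro rfl
        exact h3 p ⟨p, e.1, Bl.rfl' _ _⟩, Or.inl e.1.1⟩)
      (fun p q hp hq e => by
        by_cases r : (p, q) ∈ R ∨ (q, p) ∈ R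
        · exact Or.inr (Or.inr ⟨hq, r⟩)
        · rw [not_or] at r
          rcases ((fromRel_adj _ _ _).1 e).2 with k | k
          · exact Or.inl ⟨⟨k, r.1⟩, hq⟩
          · exact Or.inr (Or.inl ⟨⟨k, r.2⟩, hp⟩))
      hne (fun x e => h3 x (e.lift fun _ _ e => e.1)) (by omega) (fun v => (col v).2)
      (fun u v e => hp (funext fun i => (hnd 0 u v).1 e i i.2))
      (fun j u v e => (hnd _ u v).2 fun i h => (hnd j u v).1 e i (by omega))
      (fun j u u' y e1 e2 e3 e4 e5 => twin hS j u u' y (Fin.ext e1) ((hnd _ _ _).1 e2)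
        (fun e => e3 ((hnd _ _ _).2 e)) (fun e => e4 ((hnd _ _ _).2 e)) e5) a ha
    have u4 := hne v hv
    have u5 : cd (fun y => (D v y ∧ (v, y) ∉ R) ∧ y ∈ U) ≤
        cd (On (fun x y => (D x y ∧ (x, y) ∉ R) ∧ y ∈ U) (fun y => nd d y = nd d v) v) :=
      cd_mono fun y hy => ⟨hy, (hnd d y v).2 fun i h => absurd h (by omega)⟩
    have u6 := Nat.mul_le_mul_left (g + 1) u5
    nlinarith) univ
  refine ⟨R ∪ X, fun v hv => ?_, S.card, fun i => (S.equivFin.symm i).1, fun i j hij =>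
    h1 _ (S.equivFin.symm i).2 _ (S.equivFin.symm j).2
      fun e => hij (S.equivFin.symm.injective (Subtype.ext e)),
    fun i => (h2 _ (S.equivFin.symm i).2).2, ?_⟩
  · have key : ∀ x y, Relation.TransGen (fun x y => D x y ∧ (x, y) ∉ R ∪ X) x y →
        rk y < rk x := fun x y h => by
      have st : ∀ x y, D x y ∧ (x, y) ∉ R ∪ X → rk y < rk x := fun x y h =>
        k2 x (mem_univ _) y (mem_univ _) ⟨h.1, fun e => h.2 (mem_union_left _ e)⟩
          fun e => h.2 (mem_union_right _ e)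
      induction h with
      | single h => exact st _ _ h
      | tail _ h ih => exact (st _ _ h).trans ih
    exact lt_irrefl _ (key v v hv)
  · have k3 := k1.trans (Nat.mul_le_mul_left (g + 1) (card_filter_le _ _))
    have k4 := card_union_le R X
    have k5 := Nat.mul_le_mul_left (g + 1 + 1) hc
    calc (R ∪ X).card ≤ (g + 1 + 1) * R.card := by rw [add_mul]; omega
      _ ≤ (g + 1 + 1) * (S.card * (L + 1)) := k5
      _ = _ := by ring

end Pool.Agent.Lib.MP_906bc3_co.Shr
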