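import Pool.Agent.Lib.MP_906bc3_co.ChainComp
import Pool.Agent.Lib.MP_906bc3_co.Shrub

/-! Digraphs whose underlying graph has no triangle and no induced path on five vertices. -/

set_option autoImplicit false

namespace Pool.Agent.Lib.MP_906bc3_co.Chn

open Finset SimpleGraph Pool.Agent.Lib.MP_906bc3_co.Iso

variable {V : Type} {Γ : SimpleGraph V}

theorem noP5_of (h : IsEmpty (pathGraph 5 ↪g Γ)) (a b c d e : V) (h1 : Γ.Adj a b)
    (h2 : Γ.Adj b c) (h3 : Γ.Adj c d) (h4 : Γ.Adj d e) (k1 : ¬ Γ.Adj a c) (k2 : ¬ Γ.Adj a d)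
    (k3 : ¬ Γ.Adj a e) (k4 : ¬ Γ.Adj b d) (k5 : ¬ Γ.Adj b e) (k6 : ¬ Γ.Adj c e) : False := by
  have h1' := h1.symm
  have h2' := h2.symm
  have h3' := h3.symm
  have h4' := h4.symm
  have k1' : ¬ Γ.Adj c a := fun h => k1 h.symm
  have k2' : ¬ Γ.Adj d a := fun h => k2 h.symm
  have k3' : ¬ Γ.Adj e a := fun h => k3 h.symm
  have k4' : ¬ Γ.Adj d b := fun h => k4 h.symm
  have k5' : ¬ Γ.Adj e b := fun h => k5 h.symm
  have k6' : ¬ Γ.Adj e c := fun h => k6 h.symm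
  have e1 := h1.ne
  have e2 := h2.ne
  have e3 := h3.ne
  have e4 := h4.ne
  have e5 : a ≠ c := fun q => k2 (q ▸ h3)
  have e6 : a ≠ d := fun q => k1 (q ▸ h3')
  have e7 : a ≠ e := fun q => k2 (q ▸ h4')
  have e8 : b ≠ d := fun q => k5 (q ▸ h4)
  have e9 : b ≠ e := fun q => k4 (q ▸ h4')
  have e0 : c ≠ e := fun q => k5 (q ▸ h2)
  refine h.false ⟨⟨![a, b, c, d, e], ?_⟩, ?_⟩
  · intro i j q
    fin_cases i <;> fin_cases j <;> simp_all
  · intro i j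
    change Γ.Adj (![a, b, c, d, e] i) (![a, b, c, d, e] j) ↔ _
    fin_cases i <;> fin_cases j <;>
      simp [pathGraph_adj, h1, h2, h3, h4, h1', h2', h3', h4', k1, k2, k3, k4, k5, k6, k1', k2',
        k3', k4', k5', k6']

/-- two edges of one component are joined by an edge -/
theorem touch (h3 : ∀ a b c, Γ.Adj a b → Γ.Adj b c → Γ.Adj a c → False)
    (h5 : IsEmpty (pathGraph 5 ↪g Γ)) {x y p : V} (hxy : Γ.Adj x y) (hr : Γ.Reachable x p) :
    ∀ q, Γ.Adj p q → Γ.Adj p x ∨ Γ.Adj p y ∨ Γ.Adj q x ∨ Γ.Adj q y := by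
  rw [reachable_iff_reflTransGen] at hr
  induction hr with
  | refl => exact fun q _ => Or.inr (Or.inl hxy)
  | @tail p q _ hpq ih =>
    intro s hs
    by_contra hn
    push Not at hn
    obtain ⟨n1, n2, n3, n4⟩ := hn
    have n5 : ¬ Γ.Adj p s := h3 p q s hpq hs
    rcases ih q hpq with k | k | k | k
    · exact noP5_of h5 y x p q s hxy.symm k.symm hpq hs (h3 y x p hxy.symm k.symm)
        (fun e => n2 e.symm) (fun e => n4 e.symm) (fun e => n1 e.symm) (fun e => n3 e.symm) n5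
    · exact noP5_of h5 x y p q s hxy k.symm hpq hs (h3 x y p hxy k.symm)
        (fun e => n1 e.symm) (fun e => n3 e.symm) (fun e => n2 e.symm) (fun e => n4 e.symm) n5
    · exact n1 k
    · exact n2 k

theorem has_nbr {x y p : V} (hxy : Γ.Adj x y) (hr : Γ.Reachable x p) : ∃ q, Γ.Adj p q := by
  rw [reachable_iff_reflTransGen] at hr
  induction hr with
  | refl => exact ⟨y, hxy⟩
  | tail _ h _ => exact ⟨_, h.symm⟩

section five
variable (h3 : ∀ a b c, Γ.Adj a b → Γ.Adj b c → Γ.Adj a c → False)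
  (h5 : IsEmpty (pathGraph 5 ↪g Γ)) {w : Fin 5 → V} (hw : ∀ i, Γ.Adj (w i) (w (i + 1)))
include h3 hw

theorem c5_adj (i j : Fin 5) (h : Γ.Adj (w i) (w j)) : j = i + 1 ∨ i = j + 1 := by
  have k : ∀ i j : Fin 5, (j = i + 1 ∨ i = j + 1) ∨ j = i ∨ j = i + 1 + 1 ∨ i = j + 1 + 1 := by
    decide
  rcases k i j with k | rfl | rfl | rfl
  · exact k
  · exact absurd rfl h.ne
  · exact (h3 _ _ _ (hw i) (hw (i + 1)) h).elim
  · exact (h3 _ _ _ (hw j) (hw (j + 1)) h.symm).elim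

omit h3 in
theorem c5_reach (i : Fin 5) : Γ.Reachable (w i) (w 0) := by
  have r0 := (hw 0).reachable
  have r1 := (hw 1).reachable
  have r4 := (hw 4).reachable
  have r3 := (hw 3).reachable
  fin_cases i
  · exact Reachable.refl _
  · exact r0.symm
  · exact r1.symm.trans r0.symm
  · exact r3.trans r4
  · exact r4

include h5

theorem c5_two {z : V} (hz : Γ.Reachable (w 0) z) :
    ∃ i, Γ.Adj z (w i) ∧ Γ.Adj z (w (i + 2)) := by
  have k1 : ∃ i, Γ.Adj z (w i) := by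
    by_contra hn
    push Not at hn
    obtain ⟨s, hs⟩ := has_nbr (hw 0) hz
    have t : ∀ i, Γ.Adj s (w i) ∨ Γ.Adj s (w (i + 1)) := fun i =>
      ((touch h3 h5 (hw i) ((c5_reach hw i).trans hz) s hs).resolve_left (hn _)).resolve_left
        (hn _)
    have u : ∀ i, Γ.Adj s (w i) → ¬ Γ.Adj s (w (i + 1)) := fun i e => h3 _ _ _ e (hw i)
    have t0 : Γ.Adj s (w 0) ∨ Γ.Adj s (w 1) := t 0
    have t1 : Γ.Adj s (w 1) ∨ Γ.Adj s (w 2) := t 1
    have t2 : Γ.Adj s (w 2) ∨ Γ.Adj s (w 3) := t 2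
    have t3 : Γ.Adj s (w 3) ∨ Γ.Adj s (w 4) := t 3
    have t4 : Γ.Adj s (w 4) ∨ Γ.Adj s (w 0) := t 4
    have u0 : Γ.Adj s (w 0) → ¬ Γ.Adj s (w 1) := u 0
    have u1 : Γ.Adj s (w 1) → ¬ Γ.Adj s (w 2) := u 1
    have u2 : Γ.Adj s (w 2) → ¬ Γ.Adj s (w 3) := u 2
    have u3 : Γ.Adj s (w 3) → ¬ Γ.Adj s (w 4) := u 3
    have u4 : Γ.Adj s (w 4) → ¬ Γ.Adj s (w 0) := u 4
    tauto
  obtain ⟨i, hi⟩ := k1
  have d : ∀ i : Fin 5, ¬ (i + 2 = i + 1 ∨ i = i + 2 + 1) ∧ ¬ (i + 2 + 1 = i + 1 ∨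
      i = i + 2 + 1 + 1) ∧ i + 2 + 1 + 2 = i := by decide
  rcases touch h3 h5 (hw (i + 2)) ((c5_reach hw _).trans hz) _ hi with k | k | k | k
  · exact ⟨i, hi, k⟩
  · exact ⟨i + 2 + 1, k, by rw [(d i).2.2]; exact hi⟩
  · exact absurd (c5_adj h3 hw _ _ k) (d i).1
  · exact absurd (c5_adj h3 hw _ _ k) (d i).2.1

theorem c5_join {z u : V} (hz : Γ.Reachable (w 0) z) (hu : Γ.Reachable (w 0) u)
    (hd : ∀ i, ¬ (Γ.Adj z (w i) ∧ Γ.Adj u (w i))) : Γ.Adj z u := by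
  by_contra hn
  obtain ⟨i, i1, i2⟩ := c5_two h3 h5 hw hz
  obtain ⟨j, j1, j2⟩ := c5_two h3 h5 hw hu
  have t : ∀ i j, Γ.Adj z (w i) → Γ.Adj u (w j) → i = j + 1 ∨ j = i + 1 := fun i j a b => by
    rcases touch h3 h5 a (hz.symm.trans hu) _ b with k | k | k | k
    · exact absurd k.symm hn
    · exact absurd ⟨a, k⟩ (hd i)
    · exact absurd ⟨k.symm, b⟩ (hd j)
    · exact c5_adj h3 hw _ _ k
  have d : ∀ i j : Fin 5, (i = j + 1 ∨ j = i + 1) → (i + 2 = j + 1 ∨ j = i + 2 + 1) →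
      (i = j + 2 + 1 ∨ j + 2 = i + 1) → False := by decide
  exact d i j (t _ _ i1 j1) (t _ _ i2 j1) (t _ _ i1 j2)

end five

theorem cd_lt [Fintype V] {p q : V → Prop} (h : ∀ x, p x → q x) {y : V} (hq : q y) (hp : ¬ p y) :
    cd p < cd q := by
  classical
  unfold cd
  refine card_lt_card ⟨fun z hz => ?_, fun k => hp ?_⟩
  · simp only [mem_filter, mem_univ, true_and] at hz ⊢
    exact h z hz
  · simpa using k (show y ∈ _ by simpa using hq)

theorem tg_mono {r s : V → V → Prop} (h : ∀ a b, r a b → s a b) {x y : V}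
    (k : Relation.TransGen r x y) : Relation.TransGen s x y := by
  induction k with
  | single k => exact .single (h _ _ k)
  | tail _ k ih => exact ih.tail (h _ _ k)

theorem main5 : ∃ c : ℕ, ∀ {V : Type} [Fintype V] [DecidableEq V] (D : V → V → Prop),
    (fromRel D).CliqueFree 3 → IsEmpty (pathGraph 5 ↪g fromRel D) →
    ∃ F : Finset (V × V),
      (∀ v : V, ¬ Relation.TransGen (fun x y => D x y ∧ (x, y) ∉ F) v v) ∧
      ∃ k : ℕ, ∃ C : Fin k → Finset (V × V),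
        (∀ i j : Fin k, i ≠ j → Disjoint (C i) (C j)) ∧
        (∀ i : Fin k, ∃ v : V, Relation.TransGen (fun x y => D x y ∧ (x, y) ∈ C i) v v) ∧
        F.card ≤ c * k := by
  obtain ⟨c1, m1⟩ := main2
  obtain ⟨c2, m2⟩ := Shr.main 2 (Fintype.card (Fin 5 → Prop))
  refine ⟨c1 + c2, fun {V} _ _ D hK h5 => ?_⟩
  classical
  obtain ⟨Γ, hΓ⟩ : ∃ Γ, Γ = fromRel D := ⟨_, rfl⟩
  rw [← hΓ] at hK h5
  have h3 : ∀ a b c, Γ.Adj a b → Γ.Adj b c → Γ.Adj a c → False := fun a b c x y z =>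
    hK _ (is3Clique_triple_iff.2 ⟨x, z, y⟩)
  obtain ⟨κ, κ1, κ2⟩ : ∃ κ : V → V, (∀ v, Γ.Reachable (κ v) v) ∧
      ∀ u v, Γ.Adj u v → κ u = κ v :=
    ⟨fun v => (Γ.connectedComponentMk v).out,
      fun v => ConnectedComponent.exact (Quot.out_eq (Γ.connectedComponentMk v)),
      fun u v h => congrArg Quot.out (ConnectedComponent.sound h.reachable)⟩
  have κ3 : ∀ u v, D u v → κ u = κ v := fun u v h => by
    by_cases e : u = v
    · rw [e]
    · exact κ2 u v (hΓ ▸ (fromRel_adj _ _ _).2 ⟨e, Or.inl h⟩)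
  have sub : ∀ (P : V → Prop) u v, (fromRel fun u v => D u v ∧ P (κ u)).Adj u v ↔
      Γ.Adj u v ∧ P (κ u) := fun P u v => by
    rw [hΓ, fromRel_adj, fromRel_adj]
    exact ⟨fun h => ⟨⟨h.1, h.2.imp And.left And.left⟩,
      h.2.elim And.right fun k => κ3 _ _ k.1 ▸ k.2⟩,
      fun h => ⟨h.1.1, h.1.2.imp (fun k => ⟨k, h.2⟩) fun k => ⟨k, κ3 _ _ k ▸ h.2⟩⟩⟩
  obtain ⟨B, hB⟩ : ∃ B : V → Prop, ∀ t, B t ↔
      ∃ w : Fin 5 → V, Γ.Reachable (w 0) t ∧ ∀ i, Γ.Adj (w i) (w (i + 1)) := ⟨_, fun _ => Iff.rfl⟩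
  obtain ⟨X, hX⟩ : ∃ X : V → Prop, ∀ v, X v ↔ ∃ p, Γ.Adj (κ v) p ∧ Γ.Adj p v :=
    ⟨_, fun _ => Iff.rfl⟩
  have x1 : ∀ u v, ¬ B (κ u) → X u → X v → ¬ Γ.Adj u v := fun u v b hu hv h => by
    obtain ⟨p, p1, p2⟩ := (hX u).1 hu
    obtain ⟨q, q1, q2⟩ := (hX v).1 hv
    rw [← κ2 u v h] at q1
    refine b ((hB _).2 ⟨![κ u, p, u, v, q], Reachable.refl _, fun i => ?_⟩)
    fin_cases i
    exacts [p1, p2, h, q2.symm, q1.symm]
  have x2 : ∀ u v, ¬ X u → ¬ X v → ¬ Γ.Adj u v := fun u v hu hv h => by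
    obtain ⟨p, hp⟩ := has_nbr h (κ1 u).symm
    rcases touch h3 h5 hp (κ1 u) v h with k | k | k | k
    · exact hv ((hX v).2 ⟨u, κ2 u v h ▸ k.symm, h⟩)
    · exact hu ((hX u).2 ⟨p, hp, k.symm⟩)
    · exact hu ((hX u).2 ⟨v, k.symm, h.symm⟩)
    · exact hv ((hX v).2 ⟨p, κ2 u v h ▸ hp, k.symm⟩)
  obtain ⟨F1, f1, k1, C1, d1, e1, n1⟩ := m1 (fun u v => D u v ∧ ¬ B (κ u)) κ X
    (fun x => cd fun y => ¬ Γ.Adj x y)
    (fun u v h => κ2 u v ((sub (fun t => ¬ B t) u v).1 h).1)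
    (fun u v hu hv h => x2 u v hu hv ((sub (fun t => ¬ B t) u v).1 h).1)
    (fun x x' y hx hx' hy e le h => by
      obtain ⟨h, b⟩ := (sub (fun t => ¬ B t) x' y).1 h
      refine (sub (fun t => ¬ B t) x y).2 ⟨by_contra fun hn => ?_, e ▸ b⟩
      have s : ∀ z, ¬ Γ.Adj x' z → ¬ Γ.Adj x z := fun z nz hz => by
        have nx : ¬ X z := fun k => x1 x z (e ▸ b) hx k hz
        rcases touch h3 h5 hz ((κ1 x).symm.trans (e ▸ κ1 x')) y h with k | k | k | k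
        · exact x1 x' x b hx' hx k
        · exact nz k
        · exact hn k.symm
        · exact x2 y z hy nx k
      exact absurd le (not_le.2 (cd_lt s hn (not_not.2 h))))
    (fun t => Or.inr fun x x' _ _ hx hx' h =>
      x1 x x' ((sub (fun t => ¬ B t) x x').1 h).2 hx hx' ((sub (fun t => ¬ B t) x x').1 h).1)
  have hw : ∀ t, ∃ w : Fin 5 → V, B t → Γ.Reachable (w 0) t ∧ ∀ i, Γ.Adj (w i) (w (i + 1)) :=
    fun t => by
      by_cases b : B t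
      · obtain ⟨w, hw⟩ := (hB t).1 b
        exact ⟨w, fun _ => hw⟩
      · exact ⟨fun _ => t, fun k => absurd k b⟩
  choose w hw using hw
  let q := Fintype.equivFin (Fin 5 → Prop)
  let e : V → ℕ := fun v => (Fintype.equivFin V v).1
  have he : Function.Injective e := fun u v h => (Fintype.equivFin V).injective (Fin.ext h)
  obtain ⟨F2, f2, k2, C2, d2, e2, n2⟩ := m2 (fun u v => D u v ∧ B (κ u))
    (fun v => ![e (κ v), e v]) (fun v => q fun i => B (κ v) ∧ Γ.Adj v (w (κ v) i))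
    (fun c c' i => i = 1 ∧ (∃ j, q.symm c j) ∧ ∀ j, ¬ (q.symm c j ∧ q.symm c' j))
    (fun u v h => he (congrFun h 1))
    (fun u v i _ hi => by
      rw [sub B u v]
      simp only [Equiv.symm_apply_apply]
      fin_cases i
      · refine ⟨fun h => absurd ?_ ‹_ ≠ _›, fun h => absurd h.1 (by decide)⟩
        exact congrArg e (κ2 u v h.1)
      · have k : κ u = κ v := he (hi 0 (by decide))
        rw [← k]
        refine ⟨fun ⟨h, b⟩ => ⟨rfl, ?_, fun j s => h3 _ _ _ h s.2.2 s.1.2⟩,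
          fun ⟨_, ⟨_, b, _⟩, h⟩ => ⟨c5_join h3 h5 (hw _ b).2 ((hw _ b).1.trans (κ1 u))
            ((hw _ b).1.trans (k ▸ κ1 v)) fun j s => h j ⟨⟨b, s.1⟩, b, s.2⟩, b⟩⟩
        obtain ⟨j, s, -⟩ := c5_two h3 h5 (hw _ b).2 ((hw _ b).1.trans (κ1 u))
        exact ⟨j, b, s⟩)
  have ac : ∀ v : V, ¬ Relation.TransGen (fun x y => D x y ∧ (x, y) ∉ F1 ∪ F2) v v := by
    have key : ∀ (P : V → Prop) (F : Finset (V × V)), F ⊆ F1 ∪ F2 → ∀ x y, P (κ x) →
        Relation.TransGen (fun x y => D x y ∧ (x, y) ∉ F1 ∪ F2) x y →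
        P (κ y) ∧ Relation.TransGen (fun x y => (D x y ∧ P (κ x)) ∧ (x, y) ∉ F) x y := by
      intro P F s x y hx h
      induction h with
      | single h => exact ⟨κ3 _ _ h.1 ▸ hx, .single ⟨⟨h.1, hx⟩, fun k => h.2 (s k)⟩⟩
      | tail _ h ih => exact ⟨κ3 _ _ h.1 ▸ ih.1, ih.2.tail ⟨⟨h.1, ih.1⟩, fun k => h.2 (s k)⟩⟩
    intro v h
    by_cases b : B (κ v)
    · exact f2 v (key B F2 subset_union_right v v b h).2
    · exact f1 v (key (fun t => ¬ B t) F1 subset_union_left v v b h).2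
  have cu := card_union_le F1 F2
  rcases le_total k1 k2 with h | h
  · refine ⟨F1 ∪ F2, ac, k2, C2, d2, fun i => (e2 i).imp fun v hv =>
      tg_mono (fun x y s => ⟨s.1.1, s.2⟩) hv, ?_⟩
    have := Nat.mul_le_mul_left c1 h
    rw [add_mul]
    omega
  · refine ⟨F1 ∪ F2, ac, k1, C1, d1, fun i => (e1 i).imp fun v hv =>
      tg_mono (fun x y s => ⟨s.1.1, s.2⟩) hv, ?_⟩
    have := Nat.mul_le_mul_left c2 h
    rw [add_mul]
    omega

end Pool.Agent.Lib.MP_906bc3_co.Chn
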