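import Pool.Agent.Lib.MP_906bc3_co.PathFive

/-! Digraphs whose underlying graph has no induced paw and no induced path on five vertices. -/

set_option autoImplicit false

namespace Pool.Agent.Lib.MP_906bc3_co.Chn

open Finset SimpleGraph Pool.Agent.Lib.MP_906bc3_co.Iso

section paw
variable {V : Type} {Γ : SimpleGraph V}
  (hp : ∀ a b c d, Γ.Adj a b → Γ.Adj b c → Γ.Adj a c → Γ.Adj a d → Γ.Adj b d ∨ Γ.Adj c d)
include hp

theorem paw_tri {a b c t : V} (h1 : Γ.Adj a b) (h2 : Γ.Adj b c) (h3 : Γ.Adj a c)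
    (hr : Γ.Reachable a t) : ∃ b c, Γ.Adj t b ∧ Γ.Adj b c ∧ Γ.Adj t c := by
  rw [reachable_iff_reflTransGen] at hr
  induction hr with
  | refl => exact ⟨b, c, h1, h2, h3⟩
  | @tail z y _ h ih =>
    obtain ⟨p, q, k1, k2, k3⟩ := ih
    rcases hp z p q y k1 k2 k3 h with k | k
    · exact ⟨z, p, h.symm, k1, k.symm⟩
    · exact ⟨z, q, h.symm, k3, k.symm⟩

theorem paw_two {u v t z : V} (h1 : Γ.Adj u v) (h2 : Γ.Adj v t) (h3 : Γ.Adj u t)
    (hr : Γ.Reachable u z) :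
    (Γ.Adj u z ∧ Γ.Adj v z) ∨ (Γ.Adj v z ∧ Γ.Adj t z) ∨ (Γ.Adj u z ∧ Γ.Adj t z) := by
  rw [reachable_iff_reflTransGen] at hr
  induction hr with
  | refl => exact Or.inr (Or.inl ⟨h1.symm, h3.symm⟩)
  | @tail z y _ h ih =>
    have k1 := hp u v t y h1 h2 h3
    have k2 := hp v u t y h1.symm h3 h2
    have k3 := hp t u v y h3.symm h1 h2.symm
    rcases ih with ⟨p, q⟩ | ⟨p, q⟩ | ⟨p, q⟩
    · have := hp z u v y p.symm h1 q.symm h
      tauto
    · have := hp z v t y p.symm h2 q.symm h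
      tauto
    · have := hp z u t y p.symm h3 q.symm h
      tauto

theorem paw_dom {a b c u v z : V} (h1 : Γ.Adj a b) (h2 : Γ.Adj b c) (h3 : Γ.Adj a c)
    (hr : Γ.Reachable a u) (h : Γ.Adj u v) (hz : Γ.Reachable u z) : Γ.Adj u z ∨ Γ.Adj v z := by
  obtain ⟨p, q, k1, k2, k3⟩ := paw_tri hp h1 h2 h3 hr
  rcases hp u p q v k1 k2 k3 h with k | k
  · have := paw_two hp h k.symm k1 hz
    tauto
  · have := paw_two hp h k.symm k3 hz
    tauto

end paw

theorem mainP : ∃ c : ℕ, ∀ {V : Type} [Fintype V] [DecidableEq V] (D : V → V → Prop),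
    (∀ a b c d, (fromRel D).Adj a b → (fromRel D).Adj b c → (fromRel D).Adj a c →
      (fromRel D).Adj a d → (fromRel D).Adj b d ∨ (fromRel D).Adj c d) →
    IsEmpty (pathGraph 5 ↪g fromRel D) →
    ∃ F : Finset (V × V),
      (∀ v : V, ¬ Relation.TransGen (fun x y => D x y ∧ (x, y) ∉ F) v v) ∧
      ∃ k : ℕ, ∃ C : Fin k → Finset (V × V),
        (∀ i j : Fin k, i ≠ j → Disjoint (C i) (C j)) ∧
        (∀ i : Fin k, ∃ v : V, Relation.TransGen (fun x y => D x y ∧ (x, y) ∈ C i) v v) ∧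
        F.card ≤ c * k := by
  obtain ⟨c1, m1⟩ := main5
  obtain ⟨c2, m2⟩ := Shr.main 3 (Fintype.card Prop)
  refine ⟨c1 + c2, fun {V} _ _ D hp h5 => ?_⟩
  classical
  obtain ⟨Γ, hΓ⟩ : ∃ Γ, Γ = fromRel D := ⟨_, rfl⟩
  rw [← hΓ] at hp h5
  obtain ⟨κ, κ1, κ2⟩ : ∃ κ : V → V, (∀ v, Γ.Reachable (κ v) v) ∧
      ∀ u v, Γ.Adj u v → κ u = κ v :=
    ⟨fun v => (Γ.connectedComponentMk v).out,
      fun v => ConnectedComponent.exact (Quot.out_eq (Γ.connectedComponentMk v)),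
      fun u v h => congrArg Quot.out (ConnectedComponent.sound h.reachable)⟩
  have κ3 : ∀ u v, D u v → κ u = κ v := fun u v h => by
    by_cases e : u = v
    · rw [e]
    · exact κ2 u v (hΓ ▸ (fromRel_adj _ _ _).2 ⟨e, Or.inl h⟩)
  have sub : ∀ (P : V → Prop) u v, (fromRel fun u v => D u v ∧ P (κ u)).Adj u v ↔
      Γ.Adj u v ∧ P (κ u) := fun P u v => by
    rw [hΓ, fromRel_adj, fromRel_adj]
    exact ⟨fun h => ⟨⟨h.1, h.2.imp And.left And.left⟩,
      h.2.elim And.right fun k => κ3 _ _ k.1 ▸ k.2⟩,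
      fun h => ⟨h.1.1, h.1.2.imp (fun k => ⟨k, h.2⟩) fun k => ⟨k, κ3 _ _ k ▸ h.2⟩⟩⟩
  obtain ⟨B, hB⟩ : ∃ B : V → Prop, ∀ t, B t ↔
      ∃ a b c, Γ.Reachable a t ∧ Γ.Adj a b ∧ Γ.Adj b c ∧ Γ.Adj a c := ⟨_, fun _ => Iff.rfl⟩
  have sb := sub fun t => ¬ B t
  obtain ⟨F1, f1, k1, C1, d1, e1, n1⟩ := m1 (fun u v => D u v ∧ ¬ B (κ u))
    (fun s hs => by
      obtain ⟨a, b, c, h1, h2, h3, -⟩ := is3Clique_iff.1 hs
      exact ((sb a b).1 h1).2 ((hB _).2 ⟨a, b, c, (κ1 a).symm, ((sb a b).1 h1).1,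
        ((sb b c).1 h3).1, ((sb a c).1 h2).1⟩))
    ⟨fun f => h5.false ⟨f.toEmbedding, fun {i j} => by
      have d : ∀ i : Fin 5, ∃ j : Fin 5, i.val + 1 = j.val ∨ j.val + 1 = i.val := by decide
      obtain ⟨l, hl⟩ := d i
      have nb := ((sb _ _).1 (f.map_rel_iff.2 (pathGraph_adj.2 hl))).2
      exact ⟨fun h => f.map_rel_iff.1 ((sb _ _).2 ⟨h, nb⟩),
        fun h => ((sb _ _).1 (f.map_rel_iff.2 h)).1⟩⟩⟩
  let q := Fintype.equivFin Prop
  let e : V → ℕ := fun v => (Fintype.equivFin V v).1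
  have he : Function.Injective e := fun u v h => (Fintype.equivFin V).injective (Fin.ext h)
  let g : (V → Prop) → ℕ := fun s => (Fintype.equivFin (V → Prop) s).1
  have hg : Function.Injective g := fun u v h =>
    (Fintype.equivFin (V → Prop)).injective (Fin.ext h)
  obtain ⟨F2, f2, k2, C2, d2, e2, n2⟩ := m2 (fun u v => D u v ∧ B (κ u))
    (fun v => ![e (κ v), g (Γ.Adj v), e v]) (fun v => q (B (κ v)))
    (fun c _ i => i = 1 ∧ q.symm c) (fun u v h => he (congrFun h 2))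
    (fun u v i hne hi => by
      rw [sub B u v]
      simp only [Equiv.symm_apply_apply]
      fin_cases i
      · exact ⟨fun h => absurd (congrArg e (κ2 u v h.1)) hne, fun h => absurd h.1 (by decide)⟩
      · have k : κ u = κ v := he (hi 0 (by decide))
        refine ⟨fun h => ⟨rfl, h.2⟩, fun h => ⟨by_contra fun hn => hne ?_, h.2⟩⟩
        obtain ⟨a, b, c, r, h1, h2, h3⟩ := (hB _).1 h.2
        have ru := r.trans (κ1 u)
        have rv : Γ.Reachable a v := r.trans (k ▸ κ1 v)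
        refine congrArg g (funext fun z => propext ⟨fun s => ?_, fun s => ?_⟩)
        · exact ((paw_dom hp h1 h2 h3 ru s (ru.symm.trans rv)).resolve_left hn).symm
        · exact ((paw_dom hp h1 h2 h3 rv s (rv.symm.trans ru)).resolve_left
            fun x => hn x.symm).symm
      · have k : Γ.Adj u = Γ.Adj v := hg (hi 1 (by decide))
        exact ⟨fun h => absurd (k ▸ h.1 : Γ.Adj v v) Γ.irrefl, fun h => absurd h.1 (by decide)⟩)
  have ac : ∀ v : V, ¬ Relation.TransGen (fun x y => D x y ∧ (x, y) ∉ F1 ∪ F2) v v := by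
    have key : ∀ (P : V → Prop) (F : Finset (V × V)), F ⊆ F1 ∪ F2 → ∀ x y, P (κ x) →
        Relation.TransGen (fun x y => D x y ∧ (x, y) ∉ F1 ∪ F2) x y →
        P (κ y) ∧ Relation.TransGen (fun x y => (D x y ∧ P (κ x)) ∧ (x, y) ∉ F) x y := by
      intro P F s x y hx h
      induction h with
      | single h => exact ⟨κ3 _ _ h.1 ▸ hx, .single ⟨⟨h.1, hx⟩, fun k => h.2 (s k)⟩⟩
      | tail _ h ih => exact ⟨κ3 _ _ h.1 ▸ ih.1, ih.2.tail ⟨⟨h.1, ih.1⟩, fun k => h.2 (s k)⟩⟩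
    intro v h
    by_cases b : B (κ v)
    · exact f2 v (key B F2 subset_union_right v v b h).2
    · exact f1 v (key (fun t => ¬ B t) F1 subset_union_left v v b h).2
  have cu := card_union_le F1 F2
  rcases le_total k1 k2 with h | h
  · refine ⟨F1 ∪ F2, ac, k2, C2, d2, fun i => (e2 i).imp fun v hv =>
      tg_mono (fun x y s => ⟨s.1.1, s.2⟩) hv, ?_⟩
    have := Nat.mul_le_mul_left c1 h
    rw [add_mul]
    omega
  · refine ⟨F1 ∪ F2, ac, k1, C1, d1, fun i => (e1 i).imp fun v hv =>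
      tg_mono (fun x y s => ⟨s.1.1, s.2⟩) hv, ?_⟩
    have := Nat.mul_le_mul_left c2 h
    rw [add_mul]
    omega

end Pool.Agent.Lib.MP_906bc3_co.Chn
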